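import Pool.Agent.H264Z.ArwDefs

set_option autoImplicit false
set_option linter.unusedSectionVars false

open Finset

namespace Pool.Agent.H264Z.Arw

lemma act_pos {a : Site} (h : 0 < act a) : ∃ c, a = some (c + 1) := by
  cases a with
  | none => simp [act] at h
  | some c =>
    cases c with
    | zero => simp [act] at h
    | succ c => exact ⟨c, rfl⟩

lemma act_arrive (a : Site) : act a ≤ act (arrive a) := by
  cases a <;> simp [act, arrive]

lemma act_arrive_pos (a : Site) : 0 < act (arrive a) := by
  cases a <;> simp [act, arrive]

lemma arrive_ne (a : Site) : arrive a ≠ none := by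
  cases a <;> simp [arrive]

lemma leave_arrive {a : Site} (h : 0 < act a) : leave (arrive a) = arrive (leave a) := by
  obtain ⟨c, rfl⟩ := act_pos h
  simp [leave, arrive]

lemma trySleep_arrive {a : Site} (h : 0 < act a) : trySleep (arrive a) = arrive (trySleep a) := by
  obtain ⟨c, rfl⟩ := act_pos h
  cases c with
  | zero => simp [trySleep, arrive]
  | succ c => simp [trySleep, arrive]

/-- Number of particles at a site. -/
def mass : Site → ℕ
  | none => 1
  | some c => c

lemma mass_arrive (a : Site) : mass (arrive a) = mass a + 1 := by
  cases a <;> simp [mass, arrive]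

lemma mass_leave {a : Site} (h : 0 < act a) : mass (leave a) + 1 = mass a := by
  obtain ⟨c, rfl⟩ := act_pos h
  simp [leave, mass]

lemma mass_trySleep (a : Site) : mass (trySleep a) = mass a := by
  unfold trySleep
  split_ifs with h
  · subst h; rfl
  · rfl

variable {V E : Type} [Fintype V] [DecidableEq V] [Fintype E]

lemma add_add (s : V → Site) (z z' : Option V) : add (add s z) z' = add (add s z') z := by
  cases z with
  | none => rfl
  | some y =>
    cases z' with
    | none => rfl
    | some y' =>
      by_cases h : y = y'
      · subst h; rfl
      · simp only [add]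
        rw [Function.update_of_ne h, Function.update_of_ne (Ne.symm h), Function.update_comm h]

lemma upd_add (s : V → Site) (x : V) (φ : Site → Site) (z : Option V)
    (h : φ (arrive (s x)) = arrive (φ (s x))) :
    Function.update (add s z) x (φ (add s z x)) = add (Function.update s x (φ (s x))) z := by
  cases z with
  | none => rfl
  | some y =>
    by_cases hy : y = x
    · subst hy
      simp [add, h]
    · simp only [add]
      rw [Function.update_of_ne hy, Function.update_of_ne (Ne.symm hy), Function.update_comm hy]

/-- Change the site `x` by `φ`, then add a particle at `z`. -/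
def mv (s : V → Site) (x : V) (φ : Site → Site) (z : Option V) : V → Site :=
  add (Function.update s x (φ (s x))) z

lemma jump_eq (s : V → Site) (x : V) (z : Option V) : jump s x z = mv s x leave z := rfl

lemma sleep_eq (s : V → Site) (x : V) : sleep s x = mv s x trySleep none := rfl

lemma mv_add (s : V → Site) (x : V) (φ : Site → Site) (z z' : Option V)
    (h : φ (arrive (s x)) = arrive (φ (s x))) : mv (add s z') x φ z = add (mv s x φ z) z' := by
  unfold mv
  rw [upd_add s x φ z' h, add_add]

lemma mv_comm (s : V → Site) {x w : V} (hxw : x ≠ w) (φ ψ : Site → Site) (z z' : Option V)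
    (h : φ (arrive (s x)) = arrive (φ (s x))) (h' : ψ (arrive (s w)) = arrive (ψ (s w))) :
    mv (mv s w ψ z') x φ z = mv (mv s x φ z) w ψ z' := by
  have e1 : mv (mv s w ψ z') x φ z = add (mv (Function.update s w (ψ (s w))) x φ z) z' := by
    apply mv_add
    rw [Function.update_of_ne hxw]; exact h
  have e2 : mv (mv s x φ z) w ψ z' = add (mv (Function.update s x (φ (s x))) w ψ z') z := by
    apply mv_add
    rw [Function.update_of_ne hxw.symm]; exact h'
  rw [e1, e2]
  unfold mv
  rw [Function.update_of_ne hxw, Function.update_of_ne hxw.symm, add_add, Function.update_comm hxw]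

lemma act_add (s : V → Site) (z : Option V) (x : V) : act (s x) ≤ act (add s z x) := by
  cases z with
  | none => exact le_rfl
  | some y =>
    by_cases hy : x = y
    · subst hy; simp [add, act_arrive]
    · simp [add, Function.update_of_ne hy]

lemma act_mv (s : V → Site) {x w : V} (hxw : w ≠ x) (φ : Site → Site) (z : Option V) :
    act (s w) ≤ act (mv s x φ z w) := by
  refine le_trans ?_ (act_add _ z w)
  rw [Function.update_of_ne hxw]

lemma add_ne (s : V → Site) (z : Option V) (v : V) (h : s v ≠ none) : add s z v ≠ none := by
  cases z with
  | none => exact h
  | some y =>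
    by_cases hy : v = y
    · subst hy; simp [add, arrive_ne]
    · simpa [add, Function.update_of_ne hy] using h

lemma leave_ne (s : V → Site) (x v : V) (h : s v ≠ none) :
    Function.update s x (leave (s x)) v ≠ none := by
  by_cases hx : v = x
  · subst hx
    cases hs : s v with
    | none => exact absurd hs h
    | some c => simp [leave]
  · simpa [Function.update_of_ne hx] using h

lemma jump_ne (s : V → Site) (x v : V) (z : Option V) (h : s v ≠ none) : jump s x z v ≠ none :=
  add_ne _ z v (leave_ne s x v h)

/-- Total number of particles. -/
def total (s : V → Site) : ℕ := ∑ x, mass (s x)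

lemma total_update (s : V → Site) (x : V) (a : Site) :
    total (Function.update s x a) + mass (s x) = total s + mass a := by
  unfold total
  rw [← Finset.add_sum_erase _ _ (mem_univ x), ← Finset.add_sum_erase univ (fun y => mass (s y)) (mem_univ x)]
  have : ∑ y ∈ univ.erase x, mass (Function.update s x a y) = ∑ y ∈ univ.erase x, mass (s y) :=
    sum_congr rfl fun y hy => by rw [Function.update_of_ne (ne_of_mem_erase hy)]
  rw [this]
  simp only [Function.update_self]
  omega

lemma total_add (s : V → Site) (z : Option V) : total (add s z) ≤ total s + 1 := by
  cases z with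
  | none => exact Nat.le_succ _
  | some y =>
    have := total_update s y (arrive (s y))
    rw [mass_arrive] at this
    simp only [add]
    omega

lemma total_leave (s : V → Site) {x : V} (h : 0 < act (s x)) :
    total (Function.update s x (leave (s x))) + 1 = total s := by
  have := total_update s x (leave (s x))
  have := mass_leave h
  omega

lemma total_jump (s : V → Site) {x : V} (h : 0 < act (s x)) (z : Option V) :
    total (jump s x z) ≤ total s := by
  have := total_leave s h
  have := total_add (Function.update s x (leave (s x))) z
  unfold jump
  omega

lemma total_sleep (s : V → Site) (x : V) : total (sleep s x) = total s := by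
  have := total_update s x (trySleep (s x))
  rw [mass_trySleep] at this
  unfold sleep
  omega

lemma card_le_total (s : V → Site) : (univ.filter fun x => s x = none).card ≤ total s := by
  unfold total
  rw [card_filter]
  refine sum_le_sum fun x _ => ?_
  split_ifs with h
  · rw [h]; exact le_rfl
  · exact Nat.zero_le _

lemma total_stable (s : V → Site) (h : ∑ x, act (s x) = 0) :
    total s = (univ.filter fun x => s x = none).card := by
  unfold total
  rw [card_filter]
  refine sum_congr rfl fun x _ => ?_
  have hx : act (s x) = 0 := (sum_eq_zero_iff.1 h) x (mem_univ x)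
  cases hs : s x with
  | none => simp [mass]
  | some c => rw [hs] at hx; simpa [mass, act] using hx

lemma add_leave (s : V → Site) {x : V} (h : 0 < act (s x)) :
    add (Function.update s x (leave (s x))) (some x) = s := by
  obtain ⟨c, hc⟩ := act_pos h
  simp only [add, Function.update_self, Function.update_idem, hc, leave, arrive]
  rw [show c + 1 - 1 + 1 = c + 1 by omega, ← hc, Function.update_eq_self]

lemma jump_add (s : V → Site) {v : V} (h : s v ≠ none) (z : Option V) :
    jump (add s (some v)) v z = add s z := by
  unfold jump
  congr 1
  cases hs : s v with
  | none => exact absurd hs h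
  | some c =>
    simp only [add, Function.update_self, Function.update_idem, hs, leave, arrive]
    rw [show c + 1 - 1 = c by omega, ← hs, Function.update_eq_self]

lemma exists_act {s : V → Site} (h : ∑ x, act (s x) ≠ 0) : ∃ x, 0 < act (s x) := by
  by_contra hc
  push Not at hc
  exact h (sum_eq_zero fun x _ => Nat.le_zero.1 (hc x))

lemma sum_ne_of_act {s : V → Site} {x : V} (h : 0 < act (s x)) : ∑ x, act (s x) ≠ 0 := by
  intro h0
  have := (sum_eq_zero_iff.1 h0) x (mem_univ x)
  omega

end Pool.Agent.H264Z.Arw
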