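import Pool.Agent.H264Z.ArwA

set_option autoImplicit false
set_option linter.unusedSectionVars false

open Finset Filter Topology

namespace Pool.Agent.H264Z.Arw

/-- A graph with a marked edge and a sleep rate. -/
structure Dat (V E : Type) [DecidableEq V] [Fintype E] where
  src : E → V
  tgt : E → Option V
  e : E
  lam : ℝ
  hlam : 0 < lam
  hdeg : ∀ x, 0 < deg src x

/-- Extended states: a configuration and the list of the destinations of the next uses of the marked edge. -/
abbrev St (V : Type) := (V → Site) × (ℕ → Option V)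

variable {V E : Type} [Fintype V] [DecidableEq V] [Fintype E] [DecidableEq E]

namespace Dat

variable (D : Dat V E)

def dest (f : E) (d : ℕ → Option V) : Option V := if f = D.e then d 0 else D.tgt f

def nxt (f : E) (d : ℕ → Option V) : ℕ → Option V := if f = D.e then fun i => d (i + 1) else d

def app (x : V) : Option E → St V → St V
  | none, σ => (sleep σ.1 x, σ.2)
  | some f, σ => (jump σ.1 x (D.dest f σ.2), D.nxt f σ.2)

noncomputable def wt (x : V) : Option E → ℝ
  | none => D.lam / (1 + D.lam)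
  | some f => if D.src f = x then 1 / ((1 + D.lam) * deg D.src x) else 0

noncomputable def T (x : V) (g : St V → ℝ) (σ : St V) : ℝ := ∑ i, D.wt x i * g (D.app x i σ)

noncomputable def Stp (g : St V → ℝ) (σ : St V) : ℝ :=
  if ∑ x, act (σ.1 x) = 0 then g σ else (∑ x, act (σ.1 x) * D.T x g σ) / ∑ x, (act (σ.1 x) : ℝ)

noncomputable def P (k n : ℕ) : St V → ℝ := D.Stp^[n] fun σ => target k σ.1

lemma wt_nonneg (x : V) (i : Option E) : 0 ≤ D.wt x i := by
  have := D.hlam
  cases i with
  | none => simp only [wt]; positivity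
  | some f => simp only [wt]; split_ifs <;> positivity

lemma wt_src {x : V} {f : E} (h : D.wt x (some f) ≠ 0) : D.src f = x := by
  by_contra hc
  simp [wt, hc] at h

lemma wt_pos (f : E) : 0 < D.wt (D.src f) (some f) := by
  have := D.hlam
  have h2 : (0 : ℝ) < deg D.src (D.src f) := by exact_mod_cast D.hdeg _
  simp only [wt, if_true]
  positivity

lemma sum_wt_some (x : V) : ∑ f, D.wt x (some f) = 1 / (1 + D.lam) := by
  have := D.hlam
  have h2 : (0 : ℝ) < deg D.src x := by exact_mod_cast D.hdeg _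
  simp only [wt]
  rw [← sum_filter, sum_const, nsmul_eq_mul]
  change (deg D.src x : ℝ) * _ = _
  field_simp

lemma sum_wt (x : V) : ∑ i, D.wt x i = 1 := by
  have := D.hlam
  rw [Fintype.sum_option, sum_wt_some]
  simp only [wt]
  field_simp
  ring

lemma app_act {x w : V} (hxw : w ≠ x) (i : Option E) (σ : St V) :
    act (σ.1 w) ≤ act ((D.app x i σ).1 w) := by
  cases i with
  | none => exact act_mv σ.1 hxw trySleep none
  | some f => exact act_mv σ.1 hxw leave _

lemma app_comm {x w : V} (hxw : x ≠ w) (i j : Option E) (hi : D.wt x i ≠ 0) (hj : D.wt w j ≠ 0) (σ : St V)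
    (hx : 0 < act (σ.1 x)) (hw : 0 < act (σ.1 w)) :
    D.app x i (D.app w j σ) = D.app w j (D.app x i σ) := by
  cases i with
  | none =>
    cases j with
    | none =>
      simp only [app, sleep_eq]
      rw [mv_comm σ.1 hxw _ _ _ _ (trySleep_arrive hx) (trySleep_arrive hw)]
    | some f' =>
      simp only [app, sleep_eq, jump_eq]
      rw [mv_comm σ.1 hxw _ _ _ _ (trySleep_arrive hx) (leave_arrive hw)]
  | some f =>
    cases j with
    | none =>
      simp only [app, sleep_eq, jump_eq]
      rw [mv_comm σ.1 hxw _ _ _ _ (leave_arrive hx) (trySleep_arrive hw)]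
    | some f' =>
      have hff : f ≠ f' := by
        intro h
        subst h
        exact hxw ((D.wt_src hi).symm.trans (D.wt_src hj))
      simp only [app, jump_eq]
      rw [mv_comm σ.1 hxw _ _ _ _ (leave_arrive hx) (leave_arrive hw)]
      by_cases h1 : f = D.e
      · have h2 : f' ≠ D.e := fun h => hff (h1.trans h.symm)
        simp [dest, nxt, h1, h2]
      · simp [dest, nxt, h1]

lemma T_mono (x : V) {g g' : St V → ℝ} (σ : St V) (h : ∀ i, D.wt x i ≠ 0 → g (D.app x i σ) ≤ g' (D.app x i σ)) :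
    D.T x g σ ≤ D.T x g' σ := by
  refine sum_le_sum fun i _ => ?_
  by_cases hi : D.wt x i = 0
  · simp [hi]
  · exact mul_le_mul_of_nonneg_left (h i hi) (D.wt_nonneg x i)

lemma T_congr (x : V) {g g' : St V → ℝ} (σ : St V) (h : ∀ i, D.wt x i ≠ 0 → g (D.app x i σ) = g' (D.app x i σ)) :
    D.T x g σ = D.T x g' σ :=
  le_antisymm (D.T_mono x σ fun i hi => (h i hi).le) (D.T_mono x σ fun i hi => (h i hi).ge)

lemma T_const (x : V) (c : ℝ) (σ : St V) : D.T x (fun _ => c) σ = c := by
  unfold T
  rw [← sum_mul, sum_wt, one_mul]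

lemma T_comm {x w : V} (hxw : x ≠ w) (g : St V → ℝ) (σ : St V) (hx : 0 < act (σ.1 x)) (hw : 0 < act (σ.1 w)) :
    D.T w (D.T x g) σ = D.T x (D.T w g) σ := by
  unfold T
  simp only [mul_sum]
  rw [sum_comm]
  refine sum_congr rfl fun i _ => sum_congr rfl fun j _ => ?_
  by_cases hi : D.wt x i = 0
  · simp [hi]
  by_cases hj : D.wt w j = 0
  · simp [hj]
  rw [D.app_comm hxw i j hi hj σ hx hw]
  ring

lemma Stp_stable (g : St V → ℝ) {σ : St V} (h : ∑ x, act (σ.1 x) = 0) : D.Stp g σ = g σ := by
  simp [Stp, h]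

lemma Stp_eq (g : St V → ℝ) {σ : St V} {x : V} (hx : 0 < act (σ.1 x)) (c : ℝ)
    (h : ∀ w, 0 < act (σ.1 w) → D.T w g σ = c) : D.Stp g σ = c := by
  have h0 := sum_ne_of_act hx
  have h1 : (∑ x, (act (σ.1 x) : ℝ)) ≠ 0 := by exact_mod_cast h0
  simp only [Stp, h0, if_false]
  rw [div_eq_iff h1, mul_sum]
  refine sum_congr rfl fun w _ => ?_
  rcases Nat.eq_zero_or_pos (act (σ.1 w)) with hw | hw
  · simp [hw]
  · rw [h w hw, mul_comm]

lemma P_succ (k n : ℕ) : D.P k (n + 1) = D.Stp (D.P k n) := Function.iterate_succ_apply' _ _ _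

lemma P_stable (k n : ℕ) {σ : St V} (h : ∑ x, act (σ.1 x) = 0) : D.P k n σ = target k σ.1 := by
  induction n with
  | zero => rfl
  | succ n ih => rw [P_succ, D.Stp_stable _ h, ih]

lemma target_act (k : ℕ) {s : V → Site} {x : V} (h : 0 < act (s x)) : target k s = 0 := by
  unfold target
  rw [if_neg fun hc => sum_ne_of_act h hc.1]

/-- The abelian property: any unstable site may be toppled first. -/
lemma diamond (k n : ℕ) : ∀ (σ : St V) (x : V), 0 < act (σ.1 x) → D.P k (n + 1) σ = D.T x (D.P k n) σ := by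
  induction n with
  | zero =>
    intro σ x hx
    rw [P_succ]
    refine D.Stp_eq _ hx _ fun w hw => ?_
    by_cases hxw : x = w
    · rw [hxw]
    have h1 : D.T w (D.P k 0) σ = D.T w (fun _ => 0) σ :=
      D.T_congr w σ fun i _ => target_act k (lt_of_lt_of_le hx (D.app_act hxw i σ))
    have h2 : D.T x (D.P k 0) σ = D.T x (fun _ => 0) σ :=
      D.T_congr x σ fun i _ => target_act k (lt_of_lt_of_le hw (D.app_act (Ne.symm hxw) i σ))
    rw [h1, h2, T_const, T_const]
  | succ n ih =>
    intro σ x hx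
    rw [P_succ]
    refine D.Stp_eq _ hx _ fun w hw => ?_
    by_cases hxw : x = w
    · rw [hxw]
    have h1 : D.T w (D.P k (n + 1)) σ = D.T w (D.T x (D.P k n)) σ :=
      D.T_congr w σ fun i _ => ih _ x (lt_of_lt_of_le hx (D.app_act hxw i σ))
    have h2 : D.T x (D.P k (n + 1)) σ = D.T x (D.T w (D.P k n)) σ :=
      D.T_congr x σ fun i _ => ih _ w (lt_of_lt_of_le hw (D.app_act (Ne.symm hxw) i σ))
    rw [h1, h2, D.T_comm hxw _ σ hx hw]

omit [DecidableEq V] in
lemma target_nonneg (k : ℕ) (s : V → Site) : 0 ≤ target k s := by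
  unfold target; split_ifs <;> norm_num

omit [DecidableEq V] in
lemma target_le (k : ℕ) (s : V → Site) : target k s ≤ 1 := by
  unfold target; split_ifs <;> norm_num

lemma P_bounds (k n : ℕ) : ∀ σ : St V, 0 ≤ D.P k n σ ∧ D.P k n σ ≤ 1 := by
  induction n with
  | zero => exact fun σ => ⟨target_nonneg k _, target_le k _⟩
  | succ n ih =>
    intro σ
    by_cases h : ∑ x, act (σ.1 x) = 0
    · rw [D.P_stable k _ h]; exact ⟨target_nonneg k _, target_le k _⟩
    · obtain ⟨x, hx⟩ := exists_act h
      rw [D.diamond k n σ x hx]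
      constructor
      · rw [← D.T_const x 0 σ]; exact D.T_mono x σ fun i _ => (ih _).1
      · rw [← D.T_const x 1 σ]; exact D.T_mono x σ fun i _ => (ih _).2

lemma P_mono (k n : ℕ) : ∀ σ : St V, D.P k n σ ≤ D.P k (n + 1) σ := by
  induction n with
  | zero =>
    intro σ
    by_cases h : ∑ x, act (σ.1 x) = 0
    · rw [D.P_stable k _ h, D.P_stable k _ h]
    · obtain ⟨x, hx⟩ := exists_act h
      have : D.P k 0 σ = 0 := target_act k hx
      rw [this]; exact (D.P_bounds k _ σ).1
  | succ n ih =>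
    intro σ
    by_cases h : ∑ x, act (σ.1 x) = 0
    · rw [D.P_stable k _ h, D.P_stable k _ h]
    · obtain ⟨x, hx⟩ := exists_act h
      rw [D.diamond k n σ x hx, D.diamond k (n + 1) σ x hx]
      exact D.T_mono x σ fun i _ => ih _

/-- The probability of stabilising with at least `k` sleeping particles. -/
noncomputable def Val (k : ℕ) (σ : St V) : ℝ := ⨆ n, D.P k n σ

lemma bdd (k : ℕ) (σ : St V) : BddAbove (Set.range fun n => D.P k n σ) :=
  ⟨1, by rintro _ ⟨n, rfl⟩; exact (D.P_bounds k n σ).2⟩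

lemma tendsto_Val (k : ℕ) (σ : St V) : Tendsto (fun n => D.P k n σ) atTop (𝓝 (D.Val k σ)) :=
  tendsto_atTop_ciSup (monotone_nat_of_le_succ fun n => D.P_mono k n σ) (D.bdd k σ)

lemma P_le_Val (k n : ℕ) (σ : St V) : D.P k n σ ≤ D.Val k σ := le_ciSup (D.bdd k σ) n

lemma Val_nonneg (k : ℕ) (σ : St V) : 0 ≤ D.Val k σ := (D.P_bounds k 0 σ).1.trans (D.P_le_Val k 0 σ)

lemma Val_le (k : ℕ) (σ : St V) : D.Val k σ ≤ 1 := ciSup_le fun n => (D.P_bounds k n σ).2

lemma Val_stable (k : ℕ) {σ : St V} (h : ∑ x, act (σ.1 x) = 0) : D.Val k σ = target k σ.1 := by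
  unfold Val
  simp only [D.P_stable k _ h, ciSup_const]

lemma Val_harm (k : ℕ) (σ : St V) (x : V) (hx : 0 < act (σ.1 x)) : D.Val k σ = D.T x (D.Val k) σ := by
  have h1 : Tendsto (fun n => D.P k (n + 1) σ) atTop (𝓝 (D.Val k σ)) :=
    (tendsto_add_atTop_iff_nat 1).2 (D.tendsto_Val k σ)
  have h2 : Tendsto (fun n => D.T x (D.P k n) σ) atTop (𝓝 (D.T x (D.Val k) σ)) :=
    tendsto_finsetSum _ fun i _ => (D.tendsto_Val k _).const_mul _
  simp only [D.diamond k _ σ x hx] at h1
  exact tendsto_nhds_unique h1 h2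

lemma total_app {x : V} (i : Option E) (σ : St V) (hx : 0 < act (σ.1 x)) :
    total (D.app x i σ).1 ≤ total σ.1 := by
  cases i with
  | none => exact (total_sleep _ _).le
  | some f => exact total_jump _ hx _

lemma P_zero (k n : ℕ) : ∀ σ : St V, total σ.1 < k → D.P k n σ = 0 := by
  have h0 : ∀ s : V → Site, total s < k → target k s = 0 := by
    intro s hs
    have := card_le_total s
    unfold target
    rw [if_neg]
    omega
  induction n with
  | zero => exact fun σ h => h0 _ h
  | succ n ih =>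
    intro σ hσ
    by_cases h : ∑ x, act (σ.1 x) = 0
    · rw [D.P_stable k _ h, h0 _ hσ]
    · obtain ⟨x, hx⟩ := exists_act h
      rw [D.diamond k n σ x hx, ← D.T_const x 0 σ]
      exact D.T_congr x σ fun i _ => ih _ (lt_of_le_of_lt (D.total_app i σ hx) hσ)

lemma Val_zero (k : ℕ) (σ : St V) (h : total σ.1 < k) : D.Val k σ = 0 := by
  unfold Val
  simp only [D.P_zero k _ σ h, ciSup_const]

omit [DecidableEq V] in
lemma target_zero {s : V → Site} (h : ∑ x, act (s x) = 0) : target 0 s = 1 := by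
  simp [target, h]

lemma T_lin (x : V) (g g' : St V → ℝ) (a b c : ℝ) (σ : St V) :
    D.T x (fun τ => a * g τ + b * g' τ + c) σ = a * D.T x g σ + b * D.T x g' σ + c := by
  have := D.sum_wt x
  unfold T
  simp only [mul_add, sum_add_distrib, mul_sum]
  rw [← sum_mul, this, one_mul]
  congr 2 <;> exact sum_congr rfl fun i _ => by ring

lemma Val_le_P (k n : ℕ) : ∀ σ : St V, D.Val k σ ≤ D.P k n σ + 1 - D.P 0 n σ := by
  induction n with
  | zero =>
    intro σ
    by_cases h : ∑ x, act (σ.1 x) = 0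
    · rw [D.P_stable k _ h, D.P_stable 0 _ h, D.Val_stable k h, target_zero h]; linarith
    · obtain ⟨x, hx⟩ := exists_act h
      have h1 : D.P k 0 σ = 0 := target_act k hx
      have h2 : D.P 0 0 σ = 0 := target_act 0 hx
      have := D.Val_le k σ
      linarith
  | succ n ih =>
    intro σ
    by_cases h : ∑ x, act (σ.1 x) = 0
    · rw [D.P_stable k _ h, D.P_stable 0 _ h, D.Val_stable k h, target_zero h]; linarith
    · obtain ⟨x, hx⟩ := exists_act h
      rw [D.diamond k n σ x hx, D.diamond 0 n σ x hx, D.Val_harm k σ x hx]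
      have h1 := D.T_lin x (D.P k n) (D.P 0 n) 1 (-1) 1 σ
      have h2 := D.T_mono x (g := D.Val k) (g' := fun τ => 1 * D.P k n τ + (-1) * D.P 0 n τ + 1) σ
        fun i _ => by have := ih (D.app x i σ); linarith
      linarith

lemma P_congr (k n : ℕ) : ∀ (s : V → Site) (d d' : ℕ → Option V), (∀ i < n, d i = d' i) →
    D.P k n (s, d) = D.P k n (s, d') := by
  induction n with
  | zero => intro s d d' _; rfl
  | succ n ih =>
    intro s d d' hd
    by_cases h : ∑ x, act (s x) = 0
    · rw [D.P_stable k _ (σ := (s, d)) h, D.P_stable k _ (σ := (s, d')) h]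
    · obtain ⟨x, hx⟩ := exists_act h
      rw [D.diamond k n (s, d) x hx, D.diamond k n (s, d') x hx]
      refine sum_congr rfl fun i _ => ?_
      congr 1
      cases i with
      | none => exact ih _ _ _ fun i hi => hd i (by omega)
      | some f =>
        have h0 : D.dest f d = D.dest f d' := by simp [dest, hd 0 (by omega)]
        simp only [app, h0]
        refine ih _ _ _ fun i hi => ?_
        unfold nxt
        split_ifs
        · exact hd _ (by omega)
        · exact hd _ (by omega)

/-- Maximum principle. -/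
lemma maxp {ι : Type} (φ : ι → St V) (F : ι → ℝ) (hC : ∀ a, -1 ≤ F a)
    (h : ∀ a, 0 ≤ F a ∨ ∃ x, 0 < act ((φ a).1 x) ∧ ∃ g : Option E → ℝ, ∑ i, D.wt x i * g i ≤ F a ∧
      ∀ i, D.wt x i ≠ 0 → 0 ≤ g i ∨ ∃ b, φ b = D.app x i (φ a) ∧ F b ≤ g i)
    (habs : ∀ a, D.Val 0 (φ a) = 1) (a : ι) : 0 ≤ F a := by
  have key : ∀ n a, D.P 0 n (φ a) - 1 ≤ F a := by
    intro n
    induction n with
    | zero =>
      intro a
      rcases h a with h0 | ⟨x, hx, -⟩
      · have := (D.P_bounds 0 0 (φ a)).2; linarith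
      · have h2 : D.P 0 0 (φ a) = 0 := target_act 0 hx
        have := hC a
        linarith
    | succ n ih =>
      intro a
      rcases h a with h0 | ⟨x, hx, g, hg, hi⟩
      · have := (D.P_bounds 0 (n + 1) (φ a)).2; linarith
      · rw [D.diamond 0 n _ x hx]
        refine le_trans ?_ hg
        have h1 := D.T_lin x (D.P 0 n) (D.P 0 n) 1 0 (-1) (φ a)
        have h2 : D.T x (fun τ => 1 * D.P 0 n τ + 0 * D.P 0 n τ + -1) (φ a) ≤ ∑ i, D.wt x i * g i := by
          refine sum_le_sum fun i _ => ?_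
          by_cases hw : D.wt x i = 0
          · simp [hw]
          refine mul_le_mul_of_nonneg_left ?_ (D.wt_nonneg x i)
          rcases hi i hw with h0 | ⟨b, hb, hb'⟩
          · have := (D.P_bounds 0 n (D.app x i (φ a))).2; linarith
          · have := ih b
            rw [hb] at this
            linarith
        linarith
  have h1 := (D.tendsto_Val 0 (φ a)).sub_const 1
  rw [habs a, sub_self] at h1
  exact le_of_tendsto' h1 fun n => key n a

end Dat

end Pool.Agent.H264Z.Arw
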