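import Pool.Agent.H264Z.ArwB

set_option autoImplicit false
set_option linter.unusedSectionVars false

open Finset Filter Topology

namespace Pool.Agent.H264Z.Arw

variable {V E : Type} [Fintype V] [DecidableEq V] [Fintype E] [DecidableEq E]

/-- All listed destinations are `y` or the sink. -/
def Good (y : V) (d : ℕ → Option V) : Prop := ∀ i, d i = some y ∨ d i = none

namespace Dat

variable (D : Dat V E)

lemma good_app {y : V} (x : V) (i : Option E) {σ : St V} (h : Good y σ.2) : Good y (D.app x i σ).2 := by
  cases i with
  | none => exact h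
  | some f =>
    simp only [app, nxt]
    split_ifs
    · exact fun i => h (i + 1)
    · exact h

lemma absorb_path {y : V} (hy : D.tgt D.e = some y) (N : ℕ)
    (ih : ∀ σ : St V, Good y σ.2 → total σ.1 < N → D.Val 0 σ = 1) (a : Option V)
    (ha : Relation.ReflTransGen (fun a b : Option V => ∃ f, a = some (D.src f) ∧ b = D.tgt f) a none) :
    ∃ c : ℝ, 0 < c ∧ c ≤ 1 ∧ ∀ m : ℝ, 0 ≤ m →
      (∀ σ : St V, Good y σ.2 → total σ.1 < N + 1 → 1 - m ≤ D.Val 0 σ) →
      ∀ s d, Good y d → total s < N → 1 - m + c * m ≤ D.Val 0 (add s a, d) := by
  induction ha using Relation.ReflTransGen.head_induction_on with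
  | refl =>
    refine ⟨1, one_pos, le_rfl, fun m _ _ s d hd hs => ?_⟩
    have := ih (s, d) hd hs
    simp only [add]
    linarith
  | head hab _ ih2 =>
    obtain ⟨f, rfl, rfl⟩ := hab
    obtain ⟨c, hc0, hc1, hc⟩ := ih2
    have hw1 : D.wt (D.src f) (some f) ≤ 1 := by
      rw [← D.sum_wt (D.src f)]
      exact single_le_sum (fun i _ => D.wt_nonneg _ i) (mem_univ _)
    refine ⟨D.wt (D.src f) (some f) * c, mul_pos (D.wt_pos f) hc0, mul_le_one₀ hw1 hc0.le hc1,
      fun m hm hall s d hd hs => ?_⟩
    set x := D.src f with hx
    have hact : 0 < act ((add s (some x), d).1 x) := by simp [add, act_arrive_pos]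
    have htot := total_add s (some x)
    rw [D.Val_harm 0 _ x hact]
    have h1 : ∑ i, D.wt x i * (1 - m + if i = some f then c * m else 0) ≤
        D.T x (D.Val 0) (add s (some x), d) := by
      refine sum_le_sum fun i _ => mul_le_mul_of_nonneg_left ?_ (D.wt_nonneg x i)
      split_ifs with hi
      · subst hi
        have h2 := total_leave (add s (some x)) hact
        have hg : Good y (D.nxt f d) := D.good_app x (some f) (σ := (add s (some x), d)) hd
        have h3 : D.dest f d = D.tgt f ∨ D.dest f d = none := by
          unfold dest
          split_ifs with hf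
          · rw [hf, hy]; exact hd 0
          · exact Or.inl rfl
        simp only [app, jump]
        rcases h3 with h3 | h3
        · rw [h3]
          exact hc m hm hall _ _ hg (by omega)
        · rw [h3]
          have := ih (Function.update (add s (some x)) x (leave (add s (some x) x)), D.nxt f d) hg
            (show total (Function.update (add s (some x)) x (leave (add s (some x) x))) < N by omega)
          change _ ≤ D.Val 0 (Function.update (add s (some x)) x (leave (add s (some x) x)), D.nxt f d)
          rw [this]
          nlinarith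
      · have := hall _ (D.good_app x i (σ := (add s (some x), d)) hd)
          (lt_of_le_of_lt (D.total_app i _ hact) (show total (add s (some x)) < N + 1 by omega))
        linarith
    refine le_trans (le_of_eq ?_) h1
    simp only [mul_add, sum_add_distrib, mul_ite, mul_zero, sum_ite_eq', mem_univ, if_true]
    rw [← sum_mul, sum_wt]
    ring

/-- The process stabilises almost surely. -/
lemma absorb {y : V} (hy : D.tgt D.e = some y) (hr : ∀ x, ReachesSink D.src D.tgt x) (σ : St V)
    (hσ : Good y σ.2) : D.Val 0 σ = 1 := by
  suffices h : ∀ N, ∀ σ : St V, Good y σ.2 → total σ.1 < N → D.Val 0 σ = 1 from h _ σ hσ (Nat.lt_succ_self _)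
  intro N
  induction N with
  | zero => intro σ _ h; omega
  | succ N ih =>
    choose c hc0 hc1 hc using fun x => D.absorb_path hy N ih (some x) (hr x)
    obtain ⟨x0, -, hx0⟩ := exists_min_image univ c ⟨y, mem_univ _⟩
    have key : ∀ n : ℕ, ∀ σ : St V, Good y σ.2 → total σ.1 < N + 1 → 1 - (1 - c x0) ^ n ≤ D.Val 0 σ := by
      intro n
      induction n with
      | zero => intro σ _ _; simpa using D.Val_nonneg 0 σ
      | succ n ihn =>
        intro σ hg ht
        have hm : 0 ≤ (1 - c x0) ^ n := pow_nonneg (by linarith [hc1 x0]) n
        by_cases h : ∑ x, act (σ.1 x) = 0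
        · rw [D.Val_stable 0 h, target_zero h]
          have : 0 ≤ (1 - c x0) ^ (n + 1) := pow_nonneg (by linarith [hc1 x0]) _
          linarith
        · obtain ⟨x, hx⟩ := exists_act h
          have h1 := total_leave σ.1 hx
          have h2 := hc x _ hm ihn (Function.update σ.1 x (leave (σ.1 x))) σ.2 hg (by omega)
          rw [add_leave σ.1 hx] at h2
          have h3 := mul_le_mul_of_nonneg_right (hx0 x (mem_univ x)) hm
          rw [pow_succ]
          nlinarith
    intro σ hg ht
    refine le_antisymm (D.Val_le 0 σ) ?_
    have h1 : Tendsto (fun n : ℕ => 1 - (1 - c x0) ^ n) atTop (𝓝 (1 - 0)) :=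
      (tendsto_pow_atTop_nhds_zero_of_lt_one (by linarith [hc1 x0]) (by linarith [hc0 x0])).const_sub 1
    rw [sub_zero] at h1
    exact le_of_tendsto' h1 fun n => key n σ hg ht

lemma Stp_const (z : Option V) (g : St V → ℝ) (s : V → Site) :
    D.Stp g (s, fun _ => z) =
      step D.src (Function.update D.tgt D.e z) D.lam (fun t => g (t, fun _ => z)) s := by
  unfold Stp step
  split_ifs with h
  · rfl
  have hl := D.hlam
  have h1 : (∑ x, (act (s x) : ℝ)) ≠ 0 := by exact_mod_cast h
  have h2 : ∀ f, D.dest f (fun _ => z) = Function.update D.tgt D.e z f := by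
    intro f
    unfold dest
    split_ifs with hf
    · rw [hf, Function.update_self]
    · rw [Function.update_of_ne hf]
  have h3 : ∀ f, D.nxt f (fun _ => z) = fun _ => z := by
    intro f
    unfold nxt
    split_ifs <;> rfl
  have h4 : ∀ x, (act (s x) : ℝ) * D.T x g (s, fun _ => z) =
      (D.lam * act (s x) * g (sleep s x, fun _ => z) + ∑ f, if D.src f = x then
        (act (s (D.src f)) : ℝ) / deg D.src (D.src f) *
          g (jump s (D.src f) (Function.update D.tgt D.e z f), fun _ => z) else 0) / (1 + D.lam) := by
    intro x
    unfold T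
    rw [Fintype.sum_option, mul_add, add_div, mul_sum, sum_div]
    congr 1
    · simp only [wt, app]; ring
    · refine sum_congr rfl fun f _ => ?_
      simp only [wt, app, h2, h3]
      split_ifs with hf
      · subst hf
        have : (0 : ℝ) < deg D.src (D.src f) := by exact_mod_cast D.hdeg _
        field_simp
      · simp
  simp only [h4]
  rw [← sum_div, sum_add_distrib, sum_comm, div_div]
  simp only [sum_ite_eq, mem_univ, if_true]

lemma Val_const (z : Option V) (k : ℕ) (s : V → Site) :
    D.Val k (s, fun _ => z) = tailProb D.src (Function.update D.tgt D.e z) D.lam s k := by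
  have key : ∀ n s, D.P k n (s, fun _ => z) =
      (step D.src (Function.update D.tgt D.e z) D.lam)^[n] (target k) s := by
    intro n
    induction n with
    | zero => intro s; rfl
    | succ n ih =>
      intro s
      rw [P_succ, Stp_const, Function.iterate_succ_apply']
      congr 1
      funext t
      exact ih t
  unfold Val tailProb
  simp only [key]

end Dat

end Pool.Agent.H264Z.Arw
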