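import Pool.Agent.H264Z.ArwC

set_option autoImplicit false
set_option linter.unusedSectionVars false

open Finset Filter Topology

namespace Pool.Agent.H264Z.Arw

variable {V E : Type} [Fintype V] [DecidableEq V] [Fintype E] [DecidableEq E]

/-- The list `y, ..., y, z, sink, sink, ...` with `j` copies of `y`. -/
def dj (y : V) (j : ℕ) (z : Option V) : ℕ → Option V :=
  fun i => if i < j then some y else if i = j then z else none

lemma dj_tail_zero (y : V) (z : Option V) : (fun i => dj y 0 z (i + 1)) = fun _ => none := by
  funext i; simp [dj]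

lemma dj_tail_succ (y : V) (j : ℕ) (z : Option V) : (fun i => dj y (j + 1) z (i + 1)) = dj y j z := by
  funext i; simp [dj]

lemma dj_some (y : V) (j : ℕ) : dj y j (some y) = dj y (j + 1) none := by
  funext i
  unfold dj
  by_cases h1 : i < j
  · simp [h1, Nat.lt_succ_of_lt h1]
  · by_cases h2 : i = j
    · simp [h2]
    · have h3 : ¬ i < j + 1 := by omega
      simp [h1, h2, h3]

lemma dj_zero (y : V) : dj y 0 none = fun _ => none := by
  funext i; simp [dj]

lemma good_dj (y : V) (j : ℕ) : Good y (dj y j none) := by
  intro i
  unfold dj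
  split_ifs <;> simp

lemma total_add_some (s : V → Site) (v : V) : total (add s (some v)) = total s + 1 := by
  have := total_update s v (arrive (s v))
  rw [mass_arrive] at this
  simp only [add]
  omega

namespace Dat

variable (D : Dat V E)

/-- Targets of the edges after the marked edge is sent to the sink. -/
def te : E → Option V := Function.update D.tgt D.e none

/-- Average over the edges leaving `v` in the graph with the marked edge sent to the sink. -/
noncomputable def avg (v : V) (h : Option V → ℝ) : ℝ := ∑ f, (1 + D.lam) * D.wt v (some f) * h (D.te f)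

lemma avg_mono (v : V) {h h' : Option V → ℝ} (hh : ∀ z, h z ≤ h' z) : D.avg v h ≤ D.avg v h' :=
  sum_le_sum fun f _ => mul_le_mul_of_nonneg_left (hh _)
    (mul_nonneg (by linarith [D.hlam]) (D.wt_nonneg v _))

lemma avg_const (v : V) (c : ℝ) : D.avg v (fun _ => c) = c := by
  have := D.hlam
  unfold avg
  rw [← sum_mul, ← mul_sum, sum_wt_some]
  field_simp

lemma avg_sum (v x : V) (h : Option E → Option V → ℝ) :
    D.avg v (fun z => ∑ i, D.wt x i * h i z) = ∑ i, D.wt x i * D.avg v (h i) := by
  unfold avg
  simp only [mul_sum]
  rw [sum_comm]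
  exact sum_congr rfl fun i _ => sum_congr rfl fun f _ => by ring

lemma app_add (x : V) (i : Option E) (s : V → Site) (d : ℕ → Option V) (z : Option V) (hx : 0 < act (s x)) :
    D.app x i (add s z, d) = (add (D.app x i (s, d)).1 z, (D.app x i (s, d)).2) := by
  cases i with
  | none => simp only [app, sleep_eq]; rw [mv_add _ _ _ _ _ (trySleep_arrive hx)]
  | some f => simp only [app, jump_eq]; rw [mv_add _ _ _ _ _ (leave_arrive hx)]

lemma nxt_none (f : E) : D.nxt f (fun _ => none) = fun _ => none := by
  unfold nxt
  split_ifs <;> rfl

lemma dest_none (f : E) : D.dest f (fun _ => none) = D.te f := by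
  unfold dest te
  split_ifs with hf
  · rw [hf, Function.update_self]
  · rw [Function.update_of_ne hf]

lemma app_none (x : V) (i : Option E) (s : V → Site) : (D.app x i (s, fun _ => none)).2 = fun _ => none := by
  cases i with
  | none => rfl
  | some f => exact D.nxt_none f

lemma app_ne {x v : V} (hxv : x ≠ v) (i : Option E) (σ : St V) (h : σ.1 v ≠ none) :
    (D.app x i σ).1 v ≠ none := by
  cases i with
  | none => simpa [app, sleep, Function.update_of_ne hxv.symm] using h
  | some f => exact jump_ne _ _ _ _ h

/-- An extra particle at `v` is better than an extra particle after one jump from `v`. -/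
lemma extra {y : V} (hy : D.tgt D.e = some y) (hr : ∀ x, ReachesSink D.src D.tgt x) (k : ℕ) (v : V)
    (s : V → Site) (hs : s v ≠ none) :
    0 ≤ D.Val k (add s (some v), fun _ => none) - D.avg v fun z => D.Val k (add s z, fun _ => none) := by
  have hl := D.hlam
  refine D.maxp (ι := {s : V → Site // s v ≠ none}) (fun s => (s.1, fun _ => none))
    (fun s => D.Val k (add s.1 (some v), fun _ => none) - D.avg v fun z => D.Val k (add s.1 z, fun _ => none))
    ?_ ?_ (fun a => D.absorb hy hr _ fun _ => Or.inr rfl) ⟨s, hs⟩
  · intro a
    have h1 := D.Val_nonneg k (add a.1 (some v), fun _ => none)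
    have h2 := D.avg_mono v (h := fun z => D.Val k (add a.1 z, fun _ => none)) (h' := fun _ => 1)
      fun z => D.Val_le k _
    rw [avg_const] at h2
    linarith
  rintro ⟨s, hs⟩
  by_cases h : ∃ w, w ≠ v ∧ 0 < act (s w)
  · obtain ⟨w, hwv, hw⟩ := h
    refine Or.inr ⟨w, hw, fun i => D.Val k (add (D.app w i (s, fun _ => none)).1 (some v), fun _ => none) -
      D.avg v fun z => D.Val k (add (D.app w i (s, fun _ => none)).1 z, fun _ => none), le_of_eq ?_,
      fun i _ => Or.inr ⟨⟨_, D.app_ne hwv i (s, fun _ => none) hs⟩, ?_, le_rfl⟩⟩
    · have h1 : ∀ z, D.Val k (add s z, fun _ => none) =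
          ∑ i, D.wt w i * D.Val k (add (D.app w i (s, fun _ => none)).1 z, fun _ => none) := by
        intro z
        rw [D.Val_harm k _ w (lt_of_lt_of_le hw (act_add s z w))]
        refine sum_congr rfl fun i _ => ?_
        rw [D.app_add w i s _ z hw, app_none]
      simp only [h1 _, avg_sum, mul_sub, sum_sub_distrib]
    · exact Prod.ext rfl (D.app_none w i s).symm
  left
  have hv : 0 < act ((add s (some v), fun _ : ℕ => (none : Option V)).1 v) := by simp [add, act_arrive_pos]
  have h1 := D.Val_harm k _ v hv
  unfold T at h1
  rw [Fintype.sum_option] at h1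
  have h2 : ∑ f, D.wt v (some f) * D.Val k (D.app v (some f) (add s (some v), fun _ => none)) =
      (D.avg v fun z => D.Val k (add s z, fun _ => none)) / (1 + D.lam) := by
    unfold avg
    rw [sum_div]
    refine sum_congr rfl fun f _ => ?_
    simp only [app, dest_none, nxt_none, jump_add s hs]
    field_simp
  rw [h2] at h1
  simp only [app, wt] at h1
  set X := D.Val k (add s (some v), fun _ => none)
  set S := D.avg v fun z => D.Val k (add s z, fun _ => none) with hS
  set Y := D.Val k (sleep (add s (some v)) v, fun _ => none) with hY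
  have h3 : (1 + D.lam) * X = D.lam * Y + S := by
    rw [h1]; field_simp
  change 0 ≤ X - S
  rcases Nat.eq_zero_or_pos (act (s v)) with h0 | h0
  · have hYS : S ≤ Y := by
      by_cases hk : total s + 1 < k
      · have h4 := D.avg_mono v (h := fun z => D.Val k (add s z, fun _ => none)) (h' := fun _ => 0)
          fun z => (D.Val_zero k _ (lt_of_le_of_lt (total_add s z) hk)).le
        rw [avg_const] at h4
        exact h4.trans (D.Val_nonneg k _)
      · have h4 := D.avg_mono v (h := fun z => D.Val k (add s z, fun _ => none)) (h' := fun _ => 1)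
          fun z => D.Val_le k _
        rw [avg_const] at h4
        have hst : ∑ x, act (sleep (add s (some v)) v x) = 0 := by
          refine sum_eq_zero fun x _ => ?_
          by_cases hx : x = v
          · subst hx
            cases hsx : s x with
            | none => exact absurd hsx hs
            | some c =>
              rw [hsx] at h0
              simp only [act] at h0
              subst h0
              simp [sleep, add, hsx, arrive, trySleep, act]
          · have : ¬ 0 < act (s x) := fun hc => h ⟨x, hx, hc⟩
            simpa [sleep, add, Function.update_of_ne hx] using this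
        have h5 := total_stable _ hst
        rw [total_sleep, total_add_some] at h5
        rw [hY, D.Val_stable k (σ := (sleep (add s (some v)) v, fun _ => none)) hst]
        unfold target
        rw [if_pos ⟨hst, by rw [← h5]; omega⟩]
        exact h4
    nlinarith
  · obtain ⟨c, hc⟩ := act_pos h0
    have h4 : sleep (add s (some v)) v = add s (some v) := by
      simp [sleep, add, hc, arrive, trySleep]
    have h5 : Y = X := by rw [hY, h4]
    rw [h5] at h3
    nlinarith

/-- Superharmonicity in the destination of one use of the marked edge. -/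
lemma superharm {y : V} (hy : D.tgt D.e = some y) (hr : ∀ x, ReachesSink D.src D.tgt x) (k : ℕ) (v : V)
    (s : V → Site) (hs : s v ≠ none) (j : ℕ) :
    0 ≤ D.Val k (s, dj y j (some v)) - D.avg v fun z => D.Val k (s, dj y j z) := by
  refine D.maxp (ι := {p : (V → Site) × ℕ // p.1 v ≠ none}) (fun p => (p.1.1, dj y p.1.2 none))
    (fun p => D.Val k (p.1.1, dj y p.1.2 (some v)) - D.avg v fun z => D.Val k (p.1.1, dj y p.1.2 z))
    ?_ ?_ (fun a => D.absorb hy hr _ (good_dj y _)) ⟨(s, j), hs⟩
  · intro a
    have h1 := D.Val_nonneg k (a.1.1, dj y a.1.2 (some v))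
    have h2 := D.avg_mono v (h := fun z => D.Val k (a.1.1, dj y a.1.2 z)) (h' := fun _ => 1)
      fun z => D.Val_le k _
    rw [avg_const] at h2
    linarith
  have hstab : ∀ (s : V → Site) (j : ℕ), ∑ x, act (s x) = 0 →
      0 ≤ D.Val k (s, dj y j (some v)) - D.avg v fun z => D.Val k (s, dj y j z) := by
    intro s j h
    have h1 : ∀ z, D.Val k (s, dj y j z) = target k s := fun z => D.Val_stable k (σ := (s, dj y j z)) h
    simp only [h1, avg_const, sub_self, le_refl]
  rintro ⟨⟨s, j⟩, hs⟩
  by_cases h : ∑ x, act (s x) = 0
  · exact Or.inl (hstab s j h)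
  obtain ⟨x, hx, hxv⟩ : ∃ x, 0 < act (s x) ∧ (x ≠ v ∨ ∀ w, w ≠ v → act (s w) = 0) := by
    by_cases h2 : ∃ w, w ≠ v ∧ 0 < act (s w)
    · obtain ⟨w, hwv, hw⟩ := h2
      exact ⟨w, hw, Or.inl hwv⟩
    · obtain ⟨x, hx⟩ := exists_act h
      refine ⟨x, hx, Or.inr fun w hw => ?_⟩
      by_contra hc
      exact h2 ⟨w, hw, Nat.pos_of_ne_zero hc⟩
  refine Or.inr ⟨x, hx, fun i => D.Val k (D.app x i (s, dj y j (some v))) -
    D.avg v fun z => D.Val k (D.app x i (s, dj y j z)), le_of_eq ?_, fun i _ => ?_⟩
  · have h1 : ∀ z, D.Val k (s, dj y j z) = ∑ i, D.wt x i * D.Val k (D.app x i (s, dj y j z)) :=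
      fun z => D.Val_harm k (s, dj y j z) x hx
    simp only [h1 _, avg_sum, mul_sub, sum_sub_distrib]
  cases i with
  | none =>
    by_cases h2 : sleep s x v = none
    · left
      refine hstab (sleep s x) j (sum_eq_zero fun w _ => ?_)
      have hxv' : x = v := by
        by_contra hc
        exact hs (by simpa [sleep, Function.update_of_ne (Ne.symm hc)] using h2)
      subst hxv'
      by_cases hw : w = x
      · rw [hw, h2]; rfl
      · rcases hxv with h3 | h3
        · exact absurd rfl h3
        · simpa [sleep, Function.update_of_ne hw] using h3 w hw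
    · exact Or.inr ⟨⟨(sleep s x, j), h2⟩, rfl, le_rfl⟩
  | some f =>
    by_cases hf : f = D.e
    · cases j with
      | zero =>
        left
        have h1 : ∀ z, D.app x (some f) (s, dj y 0 z) =
            (add (Function.update s x (leave (s x))) z, fun _ => none) := by
          intro z
          simp only [app, dest, nxt, hf, if_true, dj_tail_zero]
          rfl
        simp only [h1]
        exact D.extra hy hr k v _ (leave_ne s x v hs)
      | succ j =>
        have h1 : ∀ z, D.app x (some f) (s, dj y (j + 1) z) = (jump s x (some y), dj y j z) := by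
          intro z
          simp only [app, dest, nxt, hf, if_true, dj_tail_succ]
          simp [dj]
        refine Or.inr ⟨⟨(jump s x (some y), j), jump_ne s x v (some y) hs⟩, (h1 none).symm, le_of_eq ?_⟩
        simp only [h1]
    · have h1 : ∀ z, D.app x (some f) (s, dj y j z) = (jump s x (D.tgt f), dj y j z) := by
        intro z
        simp only [app, dest, nxt, hf, if_false]
      refine Or.inr ⟨⟨(jump s x (D.tgt f), j), jump_ne s x v _ hs⟩, (h1 none).symm, le_of_eq ?_⟩
      simp only [h1]

/-- Minimum principle for superharmonic functions on the graph with the marked edge sent to the sink. -/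
lemma minp (hr : ∀ x, ReachesSink D.src D.tgt x) (h : Option V → ℝ) (hh : ∀ v, D.avg v h ≤ h (some v))
    (z : Option V) : h none ≤ h z := by
  obtain ⟨a, -, ha⟩ := exists_min_image univ h ⟨none, mem_univ _⟩
  have hl := D.hlam
  have key : ∀ b : Option V,
      Relation.ReflTransGen (fun a b : Option V => ∃ f, a = some (D.src f) ∧ b = D.tgt f) b none →
      h b = h a → h none = h a := by
    intro b hb
    induction hb using Relation.ReflTransGen.head_induction_on with
    | refl => exact id
    | head hab _ ih =>
      obtain ⟨f, rfl, rfl⟩ := hab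
      intro hb
      have h1 : h (D.te f) = h a := by
        by_contra hc
        have h2 : h a < h (D.te f) := lt_of_le_of_ne (ha _ (mem_univ _)) (Ne.symm hc)
        have h3 : D.avg (D.src f) (fun _ => h a) < D.avg (D.src f) h :=
          sum_lt_sum (fun g _ => mul_le_mul_of_nonneg_left (ha _ (mem_univ _))
            (mul_nonneg (by linarith) (D.wt_nonneg _ _)))
            ⟨f, mem_univ _, mul_lt_mul_of_pos_left h2 (mul_pos (by linarith) (D.wt_pos f))⟩
        rw [avg_const] at h3
        have := hh (D.src f)
        linarith
      by_cases hf : f = D.e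
      · rw [hf, te, Function.update_self] at h1
        exact h1
      · rw [te, Function.update_of_ne hf] at h1
        exact ih h1
  have h1 : h none = h a := by
    cases a with
    | none => rfl
    | some v => exact key _ (hr v) rfl
  rw [h1]
  exact ha z (mem_univ _)

lemma main {y : V} (hy : D.tgt D.e = some y) (hr : ∀ x, ReachesSink D.src D.tgt x) (k : ℕ)
    (s : V → Site) (hs : ∀ v, s v ≠ none) : D.Val k (s, fun _ => none) ≤ D.Val k (s, fun _ => some y) := by
  have h1 : ∀ j, D.Val k (s, fun _ => none) ≤ D.Val k (s, dj y j none) := by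
    intro j
    induction j with
    | zero => rw [dj_zero]
    | succ j ih =>
      rw [← dj_some]
      exact ih.trans (D.minp hr (fun z => D.Val k (s, dj y j z))
        (fun v => sub_nonneg.1 (D.superharm hy hr k v s (hs v) j)) (some y))
  have h2 : ∀ n, D.Val k (s, fun _ => none) ≤
      D.Val k (s, fun _ => some y) + 1 - D.P 0 n (s, fun _ => some y) := by
    intro n
    have h3 := D.Val_le_P k n (s, dj y n none)
    have h4 : ∀ i < n, dj y n none i = some y := fun i hi => by simp [dj, hi]
    rw [D.P_congr k n s _ _ h4, D.P_congr 0 n s _ _ h4] at h3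
    have := D.P_le_Val k n (s, fun _ => some y)
    have := h1 n
    linarith
  have h5 := (D.tendsto_Val 0 (s, fun _ => some y)).const_sub (D.Val k (s, fun _ => some y) + 1)
  rw [D.absorb hy hr _ fun _ => Or.inl rfl, add_sub_cancel_right] at h5
  exact ge_of_tendsto' h5 h2

end Dat

theorem divert (src : E → V) (tgt : E → Option V) (hr : ∀ x, ReachesSink src tgt x) (e : E) (y : V)
    (hy : tgt e = some y) (lam : ℝ) (hlam : 0 < lam) (s : V → Site) (hs : ∀ v, s v ≠ none) (k : ℕ) :
    tailProb src (Function.update tgt e none) lam s k ≤ tailProb src tgt lam s k := by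
  have hdeg : ∀ x, 0 < deg src x := by
    intro x
    rcases (hr x).cases_head with h | ⟨b, ⟨f, hf, -⟩, -⟩
    · exact absurd h (by simp)
    · exact card_pos.2 ⟨f, by simpa using (Option.some.inj hf).symm⟩
  let D : Dat V E := ⟨src, tgt, e, lam, hlam, hdeg⟩
  have h := D.main hy hr k s hs
  rw [D.Val_const, D.Val_const] at h
  have h2 : Function.update D.tgt D.e (some y) = tgt := by
    rw [← hy]; exact Function.update_eq_self e tgt
  rw [h2] at h
  exact h

end Pool.Agent.H264Z.Arw
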