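import Mathlib

set_option autoImplicit false

open Finset

namespace Pool.Agent.H264Z.Arw

/-- State of one site: `none` is one sleeping particle, `some c` is `c` active particles. -/
abbrev Site := Option ℕ

/-- Number of active particles at a site. -/
def act : Site → ℕ
  | none => 0
  | some c => c

/-- A particle arrives: a sleeping particle is woken up. -/
def arrive : Site → Site
  | none => some 2
  | some c => some (c + 1)

/-- An active particle leaves the site. -/
def leave : Site → Site
  | none => none
  | some c => some (c - 1)

/-- A sleep attempt: it succeeds exactly for an active particle alone at its site. -/
def trySleep (a : Site) : Site := if a = some 1 then none else a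

variable {V E : Type} [Fintype V] [DecidableEq V] [Fintype E]

/-- A particle arrives at `z`; `z = none` is the sink, where it is removed. -/
def add (s : V → Site) : Option V → V → Site
  | none => s
  | some y => Function.update s y (arrive (s y))

/-- An active particle jumps from the site `x` to `z`. -/
def jump (s : V → Site) (x : V) (z : Option V) : V → Site :=
  add (Function.update s x (leave (s x))) z

/-- A sleep attempt at the site `x`. -/
def sleep (s : V → Site) (x : V) : V → Site := Function.update s x (trySleep (s x))

/-- Number of edges leaving `x`. -/
def deg (src : E → V) (x : V) : ℕ := (univ.filter fun f => src f = x).card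

/-- Transition operator of the embedded jump chain of activated random walk with sleep rate `lam` on the
graph whose edge `f` goes from `src f` to `tgt f`. Each active particle makes sleep attempts at rate `lam`
and jumps along each edge leaving its site `x` at rate `1 / deg x`, so the total rate is `1 + lam` times the
number of active particles. Configurations without active particle are absorbing. -/
noncomputable def step (src : E → V) (tgt : E → Option V) (lam : ℝ) (g : (V → Site) → ℝ)
    (s : V → Site) : ℝ :=
  if ∑ x, act (s x) = 0 then g s else
    (∑ x, lam * act (s x) * g (sleep s x) +
      ∑ f, (act (s (src f)) : ℝ) / deg src (src f) * g (jump s (src f) (tgt f))) /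
      ((1 + lam) * ∑ x, (act (s x) : ℝ))

/-- Indicator function of the stable configurations with at least `k` sleeping particles. -/
def target (k : ℕ) (s : V → Site) : ℝ :=
  if ∑ x, act (s x) = 0 ∧ k ≤ (univ.filter fun x => s x = none).card then 1 else 0

/-- `P(N ≥ k)`: the probability that the process started at `s` stabilises with at least `k` sleeping
particles, as the supremum over `n` of the probability that this has happened after `n` events. -/
noncomputable def tailProb (src : E → V) (tgt : E → Option V) (lam : ℝ) (s : V → Site) (k : ℕ) : ℝ :=
  ⨆ n : ℕ, (step src tgt lam)^[n] (target k) s

/-- There is a directed path from the site `x` to the sink. -/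
def ReachesSink (src : E → V) (tgt : E → Option V) (x : V) : Prop :=
  Relation.ReflTransGen (fun a b : Option V => ∃ f, a = some (src f) ∧ b = tgt f) (some x) none

end Pool.Agent.H264Z.Arw
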