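import Mathlib

set_option autoImplicit false

open Finset Filter Topology

namespace Pool.Agent.H264Z.Comp

/-- the left shift -/
def T (z : ℤ → ℕ) : ℤ → ℕ := fun m => z (m + 1)

theorem T_iter (j : ℕ) (x : ℤ → ℕ) :
    (fun (z : ℤ → ℕ) (m : ℤ) => z (m + 1))^[j] x = fun m => x (m + j) := by
  induction j generalizing x with
  | zero => funext m; simp
  | succ j ih =>
    rw [Function.iterate_succ_apply', ih]
    funext m
    show x (m + 1 + j) = x (m + ((j + 1 : ℕ) : ℤ))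
    congr 1
    push_cast
    ring

/-- the partition sum -/
noncomputable def Z (S : Set (ℤ → ℕ)) (f : (ℤ → ℕ) → ℝ) (N : ℕ) : ℝ :=
  ∑ w : Fin N → Fin 3,
    sSup ((fun x : ℤ → ℕ => Real.exp (∑ j ∈ Finset.range N,
      f ((fun (z : ℤ → ℕ) (m : ℤ) => z (m + 1))^[j] x))) ''
      {x : ℤ → ℕ | x ∈ S ∧ ∀ i : Fin N, x ((i : ℕ) : ℤ) = ((w i : ℕ))})

/-- Birkhoff sum -/
noncomputable def B (f : (ℤ → ℕ) → ℝ) (N : ℕ) (x : ℤ → ℕ) : ℝ :=
  ∑ j ∈ Finset.range N, f (fun m => x (m + j))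

theorem Z_eq (S : Set (ℤ → ℕ)) (f : (ℤ → ℕ) → ℝ) (N : ℕ) :
    Z S f N = ∑ w : Fin N → Fin 3, sSup ((fun x : ℤ → ℕ => Real.exp (B f N x)) ''
      {x : ℤ → ℕ | x ∈ S ∧ ∀ i : Fin N, x ((i : ℕ) : ℤ) = ((w i : ℕ))}) := by
  unfold Z B
  simp only [T_iter]

theorem Z_upper (S : Set (ℤ → ℕ)) (f : (ℤ → ℕ) → ℝ) (N : ℕ) (b : (Fin N → Fin 3) → ℝ)
    (hb : ∀ w, 0 ≤ b w)
    (h : ∀ w : Fin N → Fin 3, ∀ x ∈ S, (∀ i : Fin N, x ((i : ℕ) : ℤ) = ((w i : ℕ))) →
      Real.exp (B f N x) ≤ b w) : Z S f N ≤ ∑ w, b w := by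
  rw [Z_eq]
  refine Finset.sum_le_sum fun w _ => ?_
  refine Real.sSup_le ?_ (hb w)
  rintro _ ⟨x, ⟨hx, hw⟩, rfl⟩
  exact h w x hx hw

theorem Z_lower (S : Set (ℤ → ℕ)) (f : (ℤ → ℕ) → ℝ) (N : ℕ) (M : ℝ)
    (hM : ∀ x ∈ S, B f N x ≤ M) {ι : Type*} (s : Finset ι) (x : ι → ℤ → ℕ)
    (hx : ∀ q ∈ s, x q ∈ S) (h3 : ∀ q i, x q i < 3)
    (hinj : ∀ q ∈ s, ∀ q' ∈ s, (∀ i : ℕ, i < N → x q i = x q' i) → q = q') :
    ∑ q ∈ s, Real.exp (B f N (x q)) ≤ Z S f N := by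
  classical
  rw [Z_eq]
  set g : (Fin N → Fin 3) → ℝ := fun w => sSup ((fun x : ℤ → ℕ => Real.exp (B f N x)) ''
      {x : ℤ → ℕ | x ∈ S ∧ ∀ i : Fin N, x ((i : ℕ) : ℤ) = ((w i : ℕ))}) with hg
  let W : ι → Fin N → Fin 3 := fun q i => ⟨x q ((i : ℕ) : ℤ), h3 q _⟩
  have h1 : ∀ q ∈ s, Real.exp (B f N (x q)) ≤ g (W q) := by
    intro q hq
    refine le_csSup ⟨Real.exp M, ?_⟩ ⟨x q, ⟨hx q hq, fun i => rfl⟩, rfl⟩
    rintro _ ⟨y, ⟨hy, -⟩, rfl⟩
    exact Real.exp_le_exp.2 (hM y hy)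
  have h2 : Set.InjOn W s := by
    intro q hq q' hq' h
    refine hinj q hq q' hq' fun i hi => ?_
    have := congrFun h ⟨i, hi⟩
    exact congrArg Fin.val this
  calc ∑ q ∈ s, Real.exp (B f N (x q)) ≤ ∑ q ∈ s, g (W q) := Finset.sum_le_sum h1
    _ = ∑ w ∈ s.image W, g w := (Finset.sum_image h2).symm
    _ ≤ ∑ w, g w := by
      refine Finset.sum_le_sum_of_subset_of_nonneg (Finset.subset_univ _) fun w _ _ => ?_
      refine Real.sSup_nonneg ?_
      rintro _ ⟨y, -, rfl⟩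
      exact (Real.exp_pos _).le

/-- the periods -/
def P (n : ℕ) : ℕ := n * 2 ^ n + 1

theorem P_pos (n : ℕ) : 0 < P n := Nat.succ_pos _

theorem P_mono : StrictMono P := by
  refine strictMono_nat_of_lt_succ fun n => ?_
  unfold P
  have : 0 < 2 ^ n := by positivity
  rw [pow_succ]
  nlinarith

/-- the letters between two markers: all binary words of length `n`, one after another -/
def bitw (n s : ℕ) : ℕ := if Nat.testBit ((s - 1) / n) ((s - 1) % n) then 1 else 0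

theorem bitw_le (n s : ℕ) : bitw n s ≤ 1 := by
  unfold bitw; split_ifs <;> simp

/-- the periodic point with marker letter `c` -/
def per (c n : ℕ) : ℤ → ℕ := fun t =>
  if t % (P n : ℤ) = 0 then c else bitw n (t % (P n : ℤ)).toNat

theorem per_two_iff (n : ℕ) (t : ℤ) : per 2 n t = 2 ↔ t % (P n : ℤ) = 0 := by
  unfold per
  split_ifs with h
  · simp [h]
  · have := bitw_le n (t % (P n : ℤ)).toNat
    constructor
    · intro h'; omega
    · intro h'; exact absurd h' h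

theorem per_add (c n : ℕ) (t k : ℤ) : per c n (t + (P n : ℤ) * k) = per c n t := by
  unfold per
  rw [Int.add_mul_emod_self_left]

theorem per_lt (c n : ℕ) (hc : c < 3) (t : ℤ) : per c n t < 3 := by
  unfold per
  split_ifs
  · exact hc
  · have := bitw_le n (t % (P n : ℤ)).toNat
    omega

/-- two consecutive markers at distance `P n` -/
def Gap (c n : ℕ) (x : ℤ → ℕ) (i : ℤ) : Prop :=
  x i = c ∧ x (i + P n) = c ∧ ∀ j : ℕ, 0 < j → j < P n → x (i + j) ≠ c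

/-- the domain subshift -/
def X : Set (ℤ → ℕ) :=
  {x | (∀ i, x i < 3) ∧ ∀ (n : ℕ) (i : ℤ), Gap 2 n x i → ∀ t, x t = per 2 n (t - i)}

/-- the factor map -/
def pr (x : ℤ → ℕ) : ℤ → ℕ := fun i => if x i = 2 then 1 else 0

theorem clopen_coord (i : ℤ) (c : ℕ) : IsClopen {x : ℤ → ℕ | x i = c} := by
  have : {x : ℤ → ℕ | x i = c} = (fun x : ℤ → ℕ => x i) ⁻¹' {c} := rfl
  rw [this]
  exact (isClopen_discrete _).preimage (continuous_apply i)

theorem clopen_gap (c n : ℕ) (i : ℤ) : IsClopen {x : ℤ → ℕ | Gap c n x i} := by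
  have : {x : ℤ → ℕ | Gap c n x i} = {x | x i = c} ∩ ({x | x (i + P n) = c} ∩
      ⋂ j ∈ Finset.Ioo 0 (P n), {x : ℤ → ℕ | x (i + j) = c}ᶜ) := by
    ext x
    simp only [Gap, Set.mem_ofPred_eq, Set.mem_inter_iff, Set.mem_iInter, Finset.mem_Ioo,
      Set.mem_compl_iff, and_imp]
  rw [this]
  exact (clopen_coord _ _).inter ((clopen_coord _ _).inter
    (isClopen_biInter_finset fun j _ => (clopen_coord _ _).compl))

theorem X_closed : IsClosed X := by
  have : X = (⋂ i : ℤ, (fun x : ℤ → ℕ => x i) ⁻¹' {c | c < 3}) ∩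
      ⋂ n : ℕ, ⋂ i : ℤ, ⋂ t : ℤ, ({x | Gap 2 n x i}ᶜ ∪ {x | x t = per 2 n (t - i)}) := by
    ext x
    simp only [X, Set.mem_ofPred_eq, Set.mem_inter_iff, Set.mem_iInter, Set.mem_preimage,
      Set.mem_union, Set.mem_compl_iff]
    refine and_congr Iff.rfl ?_
    constructor
    · intro h n i t
      by_cases hg : Gap 2 n x i
      · exact Or.inr (h n i hg t)
      · exact Or.inl hg
    · intro h n i hg t
      exact (h n i t).resolve_left (not_not.2 hg)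
  rw [this]
  refine (isClosed_iInter fun i => (isClosed_discrete _).preimage (continuous_apply i)).inter ?_
  exact isClosed_iInter fun n => isClosed_iInter fun i => isClosed_iInter fun t =>
    ((clopen_gap 2 n i).compl.union (clopen_coord _ _)).isClosed

theorem X_compact : IsCompact X := by
  have h : IsCompact (Set.pi Set.univ fun _ : ℤ => {c : ℕ | c < 3}) :=
    isCompact_univ_pi fun _ => (Set.finite_lt_nat 3).isCompact
  exact h.of_isClosed_subset X_closed fun x hx i _ => hx.1 i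

theorem gap_shift (c n : ℕ) (x : ℤ → ℕ) (i k : ℤ) :
    Gap c n (fun m => x (m + k)) i ↔ Gap c n x (i + k) := by
  unfold Gap
  simp only [add_right_comm i _ k]

theorem X_shift {x : ℤ → ℕ} (hx : x ∈ X) (k : ℤ) : (fun m => x (m + k)) ∈ X := by
  refine ⟨fun i => hx.1 _, fun n i hg t => ?_⟩
  have := hx.2 n (i + k) ((gap_shift 2 n x i k).1 hg) (t + k)
  simp only [this]
  congr 1
  ring

theorem X_iff (x : ℤ → ℕ) : x ∈ X ↔ (fun m : ℤ => x (m + 1)) ∈ X := by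
  refine ⟨fun h => X_shift h 1, fun h => ?_⟩
  have := X_shift h (-1)
  simpa using this

theorem per_zero_mem (n : ℕ) : per 0 n ∈ X := by
  refine ⟨per_lt 0 n (by norm_num), fun n' i hg => ?_⟩
  exfalso
  have h := hg.1
  unfold per at h
  have := bitw_le n (i % (P n : ℤ)).toNat
  by_cases h0 : i % (P n : ℤ) = 0
  · rw [if_pos h0] at h; omega
  · rw [if_neg h0] at h; omega

theorem per_two_mem (n : ℕ) : per 2 n ∈ X := by
  refine ⟨per_lt 2 n (by norm_num), fun n' i hg t => ?_⟩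
  obtain ⟨h1, h2, h3⟩ := hg
  rw [per_two_iff] at h1 h2
  have hd1 : (P n : ℤ) ∣ i := Int.dvd_of_emod_eq_zero h1
  have hd2 : (P n : ℤ) ∣ i + P n' := Int.dvd_of_emod_eq_zero h2
  have hd3 : (P n : ℤ) ∣ (P n' : ℤ) := (dvd_add_right hd1).1 hd2
  have hle : P n ≤ P n' := Nat.le_of_dvd (P_pos n') (Int.natCast_dvd_natCast.1 hd3)
  have heq : P n = P n' := by
    by_contra hne
    refine h3 (P n) (P_pos n) (lt_of_le_of_ne hle hne) ?_
    rw [per_two_iff]
    exact Int.emod_eq_zero_of_dvd (dvd_add hd1 dvd_rfl)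
  have : n = n' := P_mono.injective heq
  subst this
  obtain ⟨k, rfl⟩ := hd1
  have := per_add 2 n (t - P n * k) k
  rw [← this]
  congr 1
  ring

theorem pr_cont : Continuous pr := by
  refine continuous_pi fun i => ?_
  exact (continuous_of_discreteTopology (f := fun c : ℕ => if c = 2 then 1 else 0)).comp
    (continuous_apply i)

theorem gap_pr (n : ℕ) (x : ℤ → ℕ) (i : ℤ) : Gap 1 n (pr x) i ↔ Gap 2 n x i := by
  have h : ∀ t, pr x t = 1 ↔ x t = 2 := by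
    intro t; unfold pr; split_ifs with h <;> simp [h]
  unfold Gap
  simp only [ne_eq, h]

/-- the image subshift -/
def Y : Set (ℤ → ℕ) := pr '' X

theorem Y_closed : IsClosed Y := (X_compact.image pr_cont).isClosed

theorem Y_shift {y : ℤ → ℕ} (hy : y ∈ Y) (k : ℤ) : (fun m => y (m + k)) ∈ Y := by
  obtain ⟨x, hx, rfl⟩ := hy
  exact ⟨_, X_shift hx k, rfl⟩

theorem Y_iff (x : ℤ → ℕ) : x ∈ Y ↔ (fun m : ℤ => x (m + 1)) ∈ Y := by
  refine ⟨fun h => Y_shift h 1, fun h => ?_⟩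
  have := Y_shift h (-1)
  simpa using this

theorem Y_le {y : ℤ → ℕ} (hy : y ∈ Y) (i : ℤ) : y i ≤ 1 := by
  obtain ⟨x, -, rfl⟩ := hy
  unfold pr
  split_ifs <;> simp

end Pool.Agent.H264Z.Comp
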