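import Pool.Agent.H264Z.CompA

set_option autoImplicit false

open Finset Filter Topology

namespace Pool.Agent.H264Z.Comp

theorem per_sum_shift (f : ℤ → ℝ) (p : ℕ) (hf : ∀ t, f (t + p) = f t) (i : ℤ) :
    ∑ j ∈ range p, f (i + j) = ∑ j ∈ range p, f j := by
  have step : ∀ i : ℤ, ∑ j ∈ range p, f (i + 1 + j) = ∑ j ∈ range p, f (i + j) := by
    intro i
    have h1 := Finset.sum_range_succ (fun j : ℕ => f (i + j)) p
    have h2 := Finset.sum_range_succ' (fun j : ℕ => f (i + j)) p
    have h3 : ∑ j ∈ range p, f (i + 1 + j) = ∑ j ∈ range p, f (i + ((j + 1 : ℕ) : ℤ)) :=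
      Finset.sum_congr rfl fun j _ => by congr 1; push_cast; ring
    have h4 := hf i
    simp only [Nat.cast_zero, add_zero] at h2
    linarith
  induction i using Int.induction_on with
  | zero => simp
  | succ i ih => rw [step, ih]
  | pred i ih => rw [← ih, ← step]; congr 1; funext j; congr 1; ring

theorem per_sum_mul (f : ℤ → ℝ) (p : ℕ) (hf : ∀ t, f (t + p) = f t) (i : ℤ) (t : ℕ) :
    ∑ j ∈ range (p * t), f (i + j) = t * ∑ j ∈ range p, f j := by
  induction t with
  | zero => simp
  | succ t ih =>
    rw [Nat.mul_succ, Finset.sum_range_add, ih]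
    have := per_sum_shift f p hf (i + (p * t : ℕ))
    have h3 : ∑ j ∈ range p, f (i + ((p * t + j : ℕ) : ℤ)) =
        ∑ j ∈ range p, f (i + (p * t : ℕ) + j) :=
      Finset.sum_congr rfl fun j _ => by congr 1; push_cast; ring
    rw [h3, this]
    push_cast
    ring

/-- a window of the point shows two consecutive markers at distance `P n` -/
def Good (n : ℕ) : Set (ℤ → ℕ) := {y | ∃ i : ℕ, i < P n ∧ Gap 1 n y i}

theorem good_clopen (n : ℕ) : IsClopen (Good n) := by
  have : Good n = ⋃ i ∈ range (P n), {y | Gap 1 n y i} := by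
    ext y
    simp [Good]
  rw [this]
  exact isClopen_biUnion_finset fun i _ => clopen_gap _ _ _

theorem good_per (n : ℕ) (k : ℤ) : pr (fun m => per 2 n (m + k)) ∈ Good n := by
  have hp : (0 : ℤ) < P n := by exact_mod_cast P_pos n
  have h0 := Int.emod_nonneg (-k) hp.ne'
  have h1 := Int.emod_lt_of_pos (-k) hp
  refine ⟨((-k) % (P n : ℤ)).toNat, by omega, ?_⟩
  rw [gap_pr, gap_shift, Int.toNat_of_nonneg h0]
  have hd : (P n : ℤ) ∣ (-k) % (P n : ℤ) + k := by
    have := Int.emod_add_mul_ediv (-k) (P n)
    exact ⟨-((-k) / (P n : ℤ)), by linarith⟩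
  refine ⟨?_, ?_, ?_⟩
  · rw [per_two_iff]; exact Int.emod_eq_zero_of_dvd hd
  · rw [per_two_iff]; exact Int.emod_eq_zero_of_dvd (dvd_add hd dvd_rfl)
  · intro j hj0 hj h
    rw [per_two_iff] at h
    have h2 := (dvd_add_right hd).1 (Int.dvd_of_emod_eq_zero h)
    have := Nat.le_of_dvd hj0 (Int.natCast_dvd_natCast.1 h2)
    omega

theorem of_good {n : ℕ} {x : ℤ → ℕ} (hx : x ∈ X) (k : ℤ)
    (h : pr (fun m => x (m + k)) ∈ Good n) :
    ∃ i : ℕ, i < P n ∧ x = fun m => per 2 n (m + i) := by
  obtain ⟨i, -, hg⟩ := h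
  rw [gap_pr, gap_shift] at hg
  have h1 := hx.2 n _ hg
  have hp : (0 : ℤ) < P n := by exact_mod_cast P_pos n
  set a : ℤ := -((i : ℤ) + k) with ha
  have h0 := Int.emod_nonneg a hp.ne'
  have h2 := Int.emod_lt_of_pos a hp
  refine ⟨(a % (P n : ℤ)).toNat, by omega, ?_⟩
  funext m
  rw [h1 m, Int.toNat_of_nonneg h0, ← per_add 2 n (m + a % (P n : ℤ)) (a / (P n : ℤ))]
  congr 1
  have := Int.emod_add_mul_ediv a (P n)
  linarith

theorem tendsto_const_div (c : ℝ) (p : ℕ) (hp : 0 < p) :
    Tendsto (fun t : ℕ => c / ((p * t : ℕ) : ℝ)) atTop (𝓝 0) := by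
  have h : Tendsto (fun t : ℕ => p * t) atTop atTop :=
    tendsto_id.const_mul_atTop' hp
  exact (tendsto_const_div_atTop_nhds_zero_nat c).comp h

/-- Step 1: the sum of a compensation function along each periodic orbit is nonnegative. -/
theorem step1 (F : (ℤ → ℕ) → ℝ) (M : ℝ) (hM : ∀ x ∈ X, |F x| ≤ M)
    (H : ∀ φ : (ℤ → ℕ) → ℝ, ContinuousOn φ Y → ∃ L : ℝ,
      Tendsto (fun n : ℕ => Real.log (Z Y φ n) / (n : ℝ)) atTop (𝓝 L) ∧
      Tendsto (fun n : ℕ => Real.log (Z X (fun z => φ (pr z) + F z) n) / (n : ℝ)) atTop (𝓝 L))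
    (n : ℕ) : 0 ≤ ∑ j ∈ range (P n), F (fun m => per 2 n (m + j)) := by
  classical
  set A := ∑ j ∈ range (P n), F (fun m => per 2 n (m + j)) with hA
  have hp : (0 : ℝ) < P n := by exact_mod_cast P_pos n
  set K : ℝ := M + Real.log 3 - A / P n with hK
  set φ : (ℤ → ℕ) → ℝ := (Good n)ᶜ.indicator fun _ => -K with hφ
  have hφc : Continuous φ := (good_clopen n).compl.continuous_indicator continuous_const
  have hφ0 : ∀ k : ℤ, φ (pr fun m => per 2 n (m + k)) = 0 := fun k =>
    Set.indicator_of_notMem (not_not.2 (good_per n k)) _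
  have hφb : ∀ y, φ y ≤ |K| := by
    intro y
    by_cases hy : y ∈ (Good n)ᶜ
    · rw [hφ, Set.indicator_of_mem hy]; exact neg_le_abs K
    · rw [hφ, Set.indicator_of_notMem hy]; exact abs_nonneg K
  obtain ⟨L, hY, hX⟩ := H φ hφc.continuousOn
  have hL0 : 0 ≤ L := by
    refine ge_of_tendsto' hY fun N => div_nonneg (Real.log_nonneg ?_) (Nat.cast_nonneg _)
    have := Z_lower Y φ N (N * |K|) (fun y _ => by
        unfold B
        calc _ ≤ ∑ j ∈ range N, |K| := Finset.sum_le_sum fun j _ => hφb _
          _ = N * |K| := by simp) ({()} : Finset Unit) (fun _ => pr (per 2 n))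
      (fun _ _ => ⟨_, per_two_mem n, rfl⟩)
      (fun _ i => by unfold pr; split_ifs <;> norm_num) (fun _ _ _ _ _ => rfl)
    rw [Finset.sum_singleton] at this
    refine le_trans (le_of_eq ?_) this
    have h0 : B φ N (pr (per 2 n)) = 0 := Finset.sum_eq_zero fun j _ => hφ0 j
    rw [h0, Real.exp_zero]
  have hper : ∀ t : ℤ, F (fun m => per 2 n (m + (t + (P n : ℕ)))) = F (fun m => per 2 n (m + t)) := by
    intro t
    congr 1
    funext m
    have := per_add 2 n (m + t) 1
    rw [← this]
    congr 1
    ring
  have horb : ∀ (t : ℕ) (i : ℤ),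
      B (fun z => φ (pr z) + F z) (P n * t) (fun m => per 2 n (m + i)) = t * A := by
    intro t i
    have := per_sum_mul (fun s => F (fun m => per 2 n (m + s))) (P n) hper i t
    rw [hA, ← this]
    unfold B
    refine Finset.sum_congr rfl fun j _ => ?_
    have e : (fun m : ℤ => per 2 n (m + j + i)) = fun m => per 2 n (m + (i + j)) := by
      funext m; congr 1; ring
    simp only [e, hφ0, zero_add]
  have hup : ∀ t : ℕ, Z X (fun z => φ (pr z) + F z) (P n * t) ≤ (P n + 1) * Real.exp (t * A) := by
    intro t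
    set N := P n * t with hN
    let W : ℕ → Fin N → Fin 3 := fun i s => ⟨per 2 n ((s : ℕ) + i), per_lt 2 n (by norm_num) _⟩
    have := Z_upper X (fun z => φ (pr z) + F z) N
      (fun w => (∑ i ∈ range (P n), if w = W i then Real.exp (t * A) else 0) +
        Real.exp (N * (M - K)))
      (fun w => add_nonneg (Finset.sum_nonneg fun i _ => by split_ifs <;> positivity)
        (Real.exp_pos _).le)
      (by
        intro w x hx hw
        have hs : 0 ≤ ∑ i ∈ range (P n), if w = W i then Real.exp (t * A) else 0 :=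
          Finset.sum_nonneg fun i _ => by split_ifs <;> positivity
        by_cases hg : ∃ k : ℤ, pr (fun m => x (m + k)) ∈ Good n
        · obtain ⟨k, hk⟩ := hg
          obtain ⟨i, hi, rfl⟩ := of_good hx k hk
          have hwi : w = W i := by
            funext s
            exact Fin.ext (hw s).symm
          have h1 : Real.exp (t * A) ≤
              ∑ i ∈ range (P n), if w = W i then Real.exp (t * A) else 0 := by
            have := Finset.single_le_sum (f := fun i => if w = W i then Real.exp (t * A) else 0)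
              (fun i _ => by split_ifs <;> positivity) (Finset.mem_range.2 hi)
            simpa only [if_pos hwi] using this
          have h2 : B (fun z => φ (pr z) + F z) N (fun m => per 2 n (m + i)) = t * A := horb t i
          rw [h2]
          have := Real.exp_pos ((N : ℝ) * (M - K))
          linarith
        · push Not at hg
          have h1 : B (fun z => φ (pr z) + F z) N x ≤ N * (M - K) := by
            unfold B
            calc _ ≤ ∑ j ∈ range N, (M - K) := by
                  refine Finset.sum_le_sum fun j _ => ?_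
                  have e : φ (pr fun m => x (m + j)) = -K := Set.indicator_of_mem (hg j) _
                  have := (abs_le.1 (hM _ (X_shift hx j))).2
                  simp only [e]
                  linarith
              _ = N * (M - K) := by simp; ring
          have := Real.exp_le_exp.2 h1
          linarith)
    refine this.trans (le_of_eq ?_)
    rw [Finset.sum_add_distrib, Finset.sum_comm]
    simp only [Finset.sum_ite_eq', Finset.mem_univ, if_true, Finset.sum_const, Finset.card_range,
      Finset.card_univ, Fintype.card_fun, Fintype.card_fin, nsmul_eq_mul]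
    have e : ((3 ^ N : ℕ) : ℝ) * Real.exp (N * (M - K)) = Real.exp (t * A) := by
      have h3 : ((3 ^ N : ℕ) : ℝ) = Real.exp (N * Real.log 3) := by
        rw [Real.exp_nat_mul, Real.exp_log (by norm_num)]
        push_cast
        rfl
      rw [h3, ← Real.exp_add]
      congr 1
      rw [hK, hN]
      push_cast
      field_simp
      ring
    rw [e]
    ring
  have hpos : ∀ N : ℕ, 0 < Z X (fun z => φ (pr z) + F z) N := by
    intro N
    have := Z_lower X (fun z => φ (pr z) + F z) N (N * (|K| + M)) (fun y hy => by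
        unfold B
        calc _ ≤ ∑ j ∈ range N, (|K| + M) := Finset.sum_le_sum fun j _ =>
              add_le_add (hφb _) (abs_le.1 (hM _ (X_shift hy j))).2
          _ = N * (|K| + M) := by simp; ring) ({()} : Finset Unit) (fun _ => per 2 n)
      (fun _ _ => per_two_mem n) (fun _ i => per_lt 2 n (by norm_num) i) (fun _ _ _ _ _ => rfl)
    rw [Finset.sum_singleton] at this
    exact (Real.exp_pos _).trans_le this
  have hsub : Tendsto (fun t : ℕ => P n * t) atTop atTop := tendsto_id.const_mul_atTop' (P_pos n)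
  have hlim : Tendsto (fun t : ℕ => Real.log (P n + 1) / ((P n * t : ℕ) : ℝ) + A / P n) atTop
      (𝓝 (0 + A / P n)) := (tendsto_const_div _ _ (P_pos n)).add_const _
  have hLA : L ≤ 0 + A / P n := by
    refine le_of_tendsto_of_tendsto (hX.comp hsub) hlim ?_
    filter_upwards [eventually_gt_atTop 0] with t ht
    have ht' : (0 : ℝ) < t := by exact_mod_cast ht
    have h1 := Real.log_le_log (hpos (P n * t)) (hup t)
    rw [Real.log_mul (by positivity) (Real.exp_pos _).ne', Real.log_exp] at h1
    simp only [Function.comp]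
    have e : Real.log (P n + 1) / ((P n * t : ℕ) : ℝ) + A / P n =
        (Real.log (P n + 1) + t * A) / ((P n * t : ℕ) : ℝ) := by
      push_cast
      field_simp
    rw [e]
    exact div_le_div_of_nonneg_right h1 (Nat.cast_nonneg _)
  have : 0 ≤ A / P n := by linarith
  by_contra hneg
  push Not at hneg
  have := div_neg_of_neg_of_pos hneg hp
  linarith

end Pool.Agent.H264Z.Comp
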