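import Pool.Agent.H264Z.CompB

set_option autoImplicit false

open Finset Filter Topology

namespace Pool.Agent.H264Z.Comp

theorem unif (F : (ℤ → ℕ) → ℝ) (hF : ContinuousOn F X) (ε : ℝ) (hε : 0 < ε) :
    ∃ I : Finset ℤ, ∀ x ∈ X, ∀ x' ∈ X, (∀ a ∈ I, x a = x' a) → F x - F x' ≤ ε := by
  classical
  have h1 : ∀ x ∈ X, ∃ I : Finset ℤ, ∀ x' ∈ X, (∀ a ∈ I, x' a = x a) → |F x' - F x| < ε / 2 := by
    intro x hx
    have h : {x' | |F x' - F x| < ε / 2} ∈ 𝓝[X] x := by
      have := (hF x hx).tendsto (Metric.ball_mem_nhds (F x) (half_pos hε))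
      simpa [Metric.ball, Real.dist_eq] using this
    obtain ⟨u, hu, hsub⟩ := mem_nhdsWithin_iff_exists_mem_nhds_inter.1 h
    rw [nhds_pi, Filter.mem_pi] at hu
    obtain ⟨I, hI, t, ht, hIt⟩ := hu
    refine ⟨hI.toFinset, fun x' hx' hag => hsub ⟨hIt fun a ha => ?_, hx'⟩⟩
    rw [hag a (hI.mem_toFinset.2 ha)]
    exact mem_of_mem_nhds (ht a)
  choose! I hI using h1
  obtain ⟨s, hs, hcov⟩ := X_compact.elim_nhds_subcover
    (fun x => {x' | ∀ a ∈ I x, x' a = x a}) (fun x _ => by
      have : IsOpen {x' : ℤ → ℕ | ∀ a ∈ I x, x' a = x a} := by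
        have e : {x' : ℤ → ℕ | ∀ a ∈ I x, x' a = x a} = ⋂ a ∈ I x, {x' | x' a = x a} := by
          ext y; simp
        rw [e]
        exact (isClopen_biInter_finset fun a _ => clopen_coord _ _).isOpen
      exact this.mem_nhds fun a _ => rfl)
  refine ⟨s.biUnion I, fun x hx x' hx' hag => ?_⟩
  obtain ⟨x0, hx0, hxx⟩ := Set.mem_iUnion₂.1 (hcov hx)
  have h2 := hI x0 (hs x0 hx0) x hx hxx
  have h3 := hI x0 (hs x0 hx0) x' hx' fun a ha => by
    rw [← hag a (Finset.mem_biUnion.2 ⟨x0, hx0, ha⟩)]
    exact hxx a ha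
  have h4 := abs_lt.1 h2
  have h5 := abs_lt.1 h3
  linarith [h4.2, h5.1]

theorem sum_range_mul' (f : ℕ → ℝ) (n k : ℕ) :
    ∑ j ∈ range (n * k), f j = ∑ q ∈ range k, ∑ r ∈ range n, f (n * q + r) := by
  induction k with
  | zero => simp
  | succ k ih => rw [Nat.mul_succ, Finset.sum_range_add, ih, Finset.sum_range_succ]

theorem unmark (F : (ℤ → ℕ) → ℝ) (M ε : ℝ) (hε : 0 ≤ ε) (hM : ∀ x ∈ X, |F x| ≤ M) (I : Finset ℤ)
    (hI : ∀ x ∈ X, ∀ x' ∈ X, (∀ a ∈ I, x a = x' a) → F x - F x' ≤ ε) (n : ℕ) :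
    ∑ j ∈ range (P n), F (fun m => per 2 n (m + j)) - P n * ε - I.card * (2 * M) ≤
      ∑ j ∈ range (P n), F (fun m => per 0 n (m + j)) := by
  classical
  have hM0 : 0 ≤ M := (abs_nonneg _).trans (hM _ (per_two_mem 0))
  have h1 : ∀ j : ℕ, F (fun m => per 2 n (m + j)) - ε -
      (∑ a ∈ I, if (a + j) % (P n : ℤ) = 0 then (1 : ℝ) else 0) * (2 * M) ≤
      F (fun m => per 0 n (m + j)) := by
    intro j
    by_cases h : ∃ a ∈ I, (a + j) % (P n : ℤ) = 0
    · obtain ⟨a, ha, h0⟩ := h
      have h2 : (1 : ℝ) ≤ ∑ a ∈ I, if (a + j) % (P n : ℤ) = 0 then (1 : ℝ) else 0 := by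
        have := Finset.single_le_sum
          (f := fun a : ℤ => if (a + j) % (P n : ℤ) = 0 then (1 : ℝ) else 0)
          (fun i _ => by split_ifs <;> norm_num) ha
        simpa only [if_pos h0] using this
      have h3 := abs_le.1 (hM _ (X_shift (per_two_mem n) j))
      have h4 := abs_le.1 (hM _ (X_shift (per_zero_mem n) j))
      nlinarith [h3.2, h4.1]
    · push Not at h
      have h2 : (∑ a ∈ I, if (a + j) % (P n : ℤ) = 0 then (1 : ℝ) else 0) = 0 :=
        Finset.sum_eq_zero fun a ha => if_neg (h a ha)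
      have h3 := hI _ (X_shift (per_two_mem n) j) _ (X_shift (per_zero_mem n) j) fun a ha => by
        simp only [per, if_neg (h a ha)]
      rw [h2]
      linarith
  have h2 : ∑ j ∈ range (P n), ∑ a ∈ I, (if (a + j) % (P n : ℤ) = 0 then (1 : ℝ) else 0) ≤
      I.card := by
    rw [Finset.sum_comm]
    calc _ ≤ ∑ a ∈ I, (1 : ℝ) := by
          refine Finset.sum_le_sum fun a _ => ?_
          rw [Finset.sum_boole]
          have : ((range (P n)).filter fun j : ℕ => (a + j) % (P n : ℤ) = 0).card ≤ 1 := by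
            refine Finset.card_le_one.2 fun j hj j' hj' => ?_
            rw [Finset.mem_filter, Finset.mem_range] at hj hj'
            have h3 : (P n : ℤ) ∣ (a + j) - (a + j') :=
              dvd_sub (Int.dvd_of_emod_eq_zero hj.2) (Int.dvd_of_emod_eq_zero hj'.2)
            have h4 : (a + j) - (a + j') = 0 := by
              refine Int.eq_zero_of_abs_lt_dvd h3 ?_
              rw [abs_lt]
              constructor <;> omega
            omega
          exact_mod_cast this
      _ = I.card := by simp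
  have h3 := Finset.sum_le_sum fun j (_ : j ∈ range (P n)) => h1 j
  rw [Finset.sum_sub_distrib, Finset.sum_sub_distrib, ← Finset.sum_mul] at h3
  simp only [Finset.sum_const, Finset.card_range, nsmul_eq_mul] at h3
  nlinarith

theorem per_block (n q i : ℕ) (hq : q < 2 ^ n) (hi : i < n) :
    per 0 n ((i : ℤ) + ((n * q + 1 : ℕ) : ℤ)) = if Nat.testBit q i then 1 else 0 := by
  have hlt : n * q + i + 1 < P n := by
    unfold P
    have : n * (q + 1) ≤ n * 2 ^ n := Nat.mul_le_mul_left _ hq
    nlinarith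
  have e : (i : ℤ) + ((n * q + 1 : ℕ) : ℤ) = ((n * q + i + 1 : ℕ) : ℤ) := by push_cast; ring
  have e2 : ((n * q + i + 1 : ℕ) : ℤ) % (P n : ℤ) = ((n * q + i + 1 : ℕ) : ℤ) :=
    Int.emod_eq_of_lt (Int.natCast_nonneg _) (by exact_mod_cast hlt)
  unfold per
  rw [e, e2, if_neg (by omega), Int.toNat_natCast]
  unfold bitw
  have hn : 0 < n := by omega
  rw [Nat.add_sub_cancel, Nat.mul_add_div hn, Nat.div_eq_of_lt hi, Nat.mul_add_mod,
    Nat.mod_eq_of_lt hi, add_zero]

theorem pr_per_zero (n : ℕ) (k i : ℤ) : pr (fun m => per 0 n (m + k)) i = 0 := by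
  unfold pr
  refine if_neg ?_
  unfold per
  have := bitw_le n ((i + k) % (P n : ℤ)).toNat
  by_cases h0 : (i + k) % (P n : ℤ) = 0
  · simp only [if_pos h0]; omega
  · simp only [if_neg h0]; omega

theorem main : ¬ ∃ F : (ℤ → ℕ) → ℝ, ContinuousOn F X ∧
    ∀ φ : (ℤ → ℕ) → ℝ, ContinuousOn φ Y → ∃ L : ℝ,
      Tendsto (fun n : ℕ => Real.log (Z Y φ n) / (n : ℝ)) atTop (𝓝 L) ∧
      Tendsto (fun n : ℕ => Real.log (Z X (fun z => φ (pr z) + F z) n) / (n : ℝ)) atTop (𝓝 L) := by
  rintro ⟨F, hF, H⟩
  obtain ⟨M, hM⟩ : ∃ M, ∀ x ∈ X, |F x| ≤ M := X_compact.exists_bound_of_continuousOn hF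
  have hM0 : 0 ≤ M := (abs_nonneg _).trans (hM _ (per_two_mem 0))
  have hlog : Real.log (3 / 2) < Real.log 2 := Real.log_lt_log (by norm_num) (by norm_num)
  set ε := (Real.log 2 - Real.log (3 / 2)) / 2 with hε
  have hε0 : 0 < ε := by linarith
  obtain ⟨I, hI⟩ := unif F hF ε hε0
  set φ : (ℤ → ℕ) → ℝ := fun y => if y 0 = 1 then -Real.log 2 else 0 with hφ
  have hφc : Continuous φ :=
    (continuous_of_discreteTopology (f := fun c : ℕ => if c = 1 then -Real.log 2 else 0)).comp
      (continuous_apply 0)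
  have hl2 : 0 < Real.log 2 := Real.log_pos (by norm_num)
  have hφb : ∀ y, φ y ≤ 0 := by
    intro y; simp only [hφ]; split_ifs <;> linarith
  obtain ⟨L, hY, hX⟩ := H φ hφc.continuousOn
  have hL1 : L ≤ Real.log (3 / 2) := by
    refine le_of_tendsto hY ?_
    filter_upwards [eventually_gt_atTop 0] with N hN
    have hN' : (0 : ℝ) < N := by exact_mod_cast hN
    let c : Fin 3 → ℝ := ![1, 1 / 2, 0]
    have hc : ∀ a, 0 ≤ c a := by intro a; fin_cases a <;> simp [c]
    have h1 := Z_upper Y φ N (fun w => ∏ i, c (w i)) (fun w => Finset.prod_nonneg fun i _ => hc _)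
      (by
        intro w y hy hw
        unfold B
        rw [Real.exp_sum, Finset.prod_range]
        refine le_of_eq (Finset.prod_congr rfl fun i _ => ?_)
        have h2 := hw i
        have h3 := Y_le hy (i : ℕ)
        simp only [hφ, zero_add, h2]
        generalize w i = a at h2 ⊢
        fin_cases a
        · simp [c]
        · simp [c, Real.exp_neg, Real.exp_log]
        · exfalso
          simp only at h2
          omega)
    have h2 : ∑ w : Fin N → Fin 3, ∏ i, c (w i) = (3 / 2) ^ N := by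
      have := Finset.prod_univ_sum (fun _ : Fin N => (Finset.univ : Finset (Fin 3)))
        (fun _ a => c a)
      rw [Fintype.piFinset_univ] at this
      rw [← this]
      have h3 : ∑ a, c a = 3 / 2 := by simp [c, Fin.sum_univ_three]; norm_num
      rw [h3, Finset.prod_const, Finset.card_univ, Fintype.card_fin]
    rw [h2] at h1
    have h0 : 0 ≤ Z Y φ N := by
      simpa using Z_lower Y φ N 0 (fun y _ => Finset.sum_nonpos fun j _ => hφb (fun m => y (m + j)))
        (∅ : Finset Unit) (fun _ _ => 0) (by simp) (by simp) (by simp)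
    rw [div_le_iff₀ hN']
    have h4 : Real.log ((3 / 2 : ℝ) ^ N) = Real.log (3 / 2) * N := by rw [Real.log_pow]; ring
    rw [← h4]
    rcases h0.eq_or_lt with h0 | h0
    · rw [← h0, Real.log_zero]
      exact Real.log_nonneg (one_le_pow₀ (by norm_num))
    · exact Real.log_le_log h0 h1
  set C : ℝ := ε + I.card * (2 * M) + M with hC
  have hlow : ∀ n : ℕ, n * (Real.log 2 - ε) - C ≤
      Real.log (Z X (fun z => φ (pr z) + F z) n) := by
    intro n
    let z : ℕ → ℤ → ℕ := fun q m => per 0 n (m + ((n * q + 1 : ℕ) : ℤ))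
    have h1 := Z_lower X (fun z => φ (pr z) + F z) n (n * M) (fun y hy => by
        unfold B
        calc _ ≤ ∑ j ∈ range n, M := Finset.sum_le_sum fun j _ => by
              have := (abs_le.1 (hM _ (X_shift hy j))).2
              have := hφb (pr fun m => y (m + j))
              linarith
          _ = n * M := by simp) (range (2 ^ n)) z
      (fun q _ => X_shift (per_zero_mem n) _) (fun q i => per_lt 0 n (by norm_num) _)
      (by
        intro q hq q' hq' h
        rw [Finset.mem_range] at hq hq'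
        refine Nat.eq_of_testBit_eq fun i => ?_
        by_cases hi : i < n
        · have := h i hi
          simp only [z] at this
          rw [per_block n q i hq hi, per_block n q' i hq' hi] at this
          cases h1 : q.testBit i <;> cases h2 : q'.testBit i <;> simp_all
        · have hp : 2 ^ n ≤ 2 ^ i := Nat.pow_le_pow_right (by norm_num) (by omega)
          rw [Nat.testBit_eq_false_of_lt (hq.trans_le hp),
            Nat.testBit_eq_false_of_lt (hq'.trans_le hp)])
    set a : ℕ → ℝ := fun q => B (fun z => φ (pr z) + F z) n (z q) with ha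
    have h2 : ∑ q ∈ range (2 ^ n), a q + F (fun m => per 0 n (m + ((0 : ℕ) : ℤ))) =
        ∑ j ∈ range (P n), F (fun m => per 0 n (m + j)) := by
      unfold P
      rw [Finset.sum_range_succ', sum_range_mul']
      congr 1
      refine Finset.sum_congr rfl fun q _ => ?_
      simp only [ha, B, z]
      refine Finset.sum_congr rfl fun r _ => ?_
      have e : (fun m : ℤ => per 0 n (m + r + ((n * q + 1 : ℕ) : ℤ))) =
          fun m => per 0 n (m + ((n * q + r + 1 : ℕ) : ℤ)) := by
        funext m; congr 1; push_cast; ring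
      have e0 : φ (pr fun m => per 0 n (m + ((n * q + r + 1 : ℕ) : ℤ))) = 0 := by
        simp only [hφ, pr_per_zero]
        simp
      rw [e, e0, zero_add]
    have h3 := unmark F M ε hε0.le hM I hI n
    have h4 := step1 F M hM H n
    have h5 := (abs_le.1 (hM _ (X_shift (per_zero_mem n) ((0 : ℕ) : ℤ)))).2
    have hpow : (1 : ℝ) ≤ 2 ^ n := one_le_pow₀ (by norm_num)
    have hC0 : 0 ≤ C := by positivity
    set b : ℝ := -(n * ε) - C with hb
    have h6 : 2 ^ n * b ≤ ∑ q ∈ range (2 ^ n), a q := by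
      have e : (P n : ℝ) = n * 2 ^ n + 1 := by unfold P; push_cast; ring
      rw [e] at h3
      have : 2 ^ n * b ≤ -(n * 2 ^ n * ε) - C := by rw [hb]; nlinarith
      linarith
    have h7 : 2 ^ n * Real.exp b ≤ ∑ q ∈ range (2 ^ n), Real.exp (a q) := by
      have h8 : ∀ q ∈ range (2 ^ n), Real.exp b * (a q - b + 1) ≤ Real.exp (a q) := by
        intro q _
        have := Real.add_one_le_exp (a q - b)
        calc _ ≤ Real.exp b * Real.exp (a q - b) :=
              mul_le_mul_of_nonneg_left this (Real.exp_pos _).le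
          _ = _ := by rw [← Real.exp_add]; congr 1; ring
      have h9 := Finset.sum_le_sum h8
      rw [← Finset.mul_sum, Finset.sum_add_distrib, Finset.sum_sub_distrib] at h9
      simp only [Finset.sum_const, Finset.card_range, nsmul_eq_mul, Nat.cast_pow, Nat.cast_ofNat,
        mul_one] at h9
      have := Real.exp_pos b
      nlinarith
    have h10 := Real.log_le_log (by positivity) (h7.trans h1)
    rw [Real.log_mul (by positivity) (Real.exp_pos _).ne', Real.log_exp, Real.log_pow] at h10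
    linarith
  have hlim : Tendsto (fun n : ℕ => (Real.log 2 - ε) - C / (n : ℝ)) atTop
      (𝓝 ((Real.log 2 - ε) - 0)) :=
    (tendsto_const_div_atTop_nhds_zero_nat C).const_sub _
  have hL2 : (Real.log 2 - ε) - 0 ≤ L := by
    refine le_of_tendsto_of_tendsto hlim hX ?_
    filter_upwards [eventually_gt_atTop 0] with n hn
    have hn' : (0 : ℝ) < n := by exact_mod_cast hn
    have e : (Real.log 2 - ε) - C / (n : ℝ) = (n * (Real.log 2 - ε) - C) / n := by
      field_simp
    rw [e]
    exact div_le_div_of_nonneg_right (hlow n) hn'.le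
  linarith

end Pool.Agent.H264Z.Comp
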