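import Mathlib

set_option autoImplicit false

open Finset Filter Topology Module

namespace Pool.Agent.H264Z.Funtf

variable {𝕜 : Type*} [RCLike 𝕜]

theorem re_sum_nonpos {ι : Type*} [Fintype ι] [DecidableEq ι] (a : ι → 𝕜)
    (h : ∀ t : ℝ, 0 < t → t ≤ 1 → ‖∏ j, (1 + (t : 𝕜) * a j)‖ ≤ 1) :
    RCLike.re (∑ j, a j) ≤ 0 := by
  have h1 : ∀ j ∈ (Finset.univ : Finset ι),
      HasDerivAt (fun t : ℝ => 1 + (t : 𝕜) * a j) (a j) 0 := by
    intro j _
    have := ((RCLike.ofRealCLM (K := 𝕜)).hasDerivAt (x := (0 : ℝ))).mul_const (a j) |>.const_add 1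
    simpa using this
  have h2 := HasDerivAt.fun_finsetProd h1
  simp only [RCLike.ofReal_zero, zero_mul, add_zero, Finset.prod_const_one, one_smul] at h2
  have h3 : HasDerivAt (fun t : ℝ => RCLike.re (∏ j, (1 + (t : 𝕜) * a j)))
      (RCLike.re (∑ j, a j)) 0 :=
    (RCLike.reCLM (K := 𝕜)).hasFDerivAt.comp_hasDerivAt 0 h2
  have h4 := h3.tendsto_slope_zero_right
  refine le_of_tendsto h4 ?_
  filter_upwards [Ioc_mem_nhdsGT (zero_lt_one' ℝ)] with t ht
  have h5 := (RCLike.re_le_norm _).trans (h t ht.1 ht.2)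
  simp only [zero_add, RCLike.ofReal_zero, zero_mul, add_zero, Finset.prod_const_one,
    RCLike.one_re, smul_eq_mul]
  exact mul_nonpos_of_nonneg_of_nonpos (inv_nonneg.2 ht.1.le) (by linarith)

variable {X : Type*} [NormedAddCommGroup X] [NormedSpace 𝕜 X] [FiniteDimensional 𝕜 X]

theorem det_cont {n : ℕ} (b : Basis (Fin n) 𝕜 X) : Continuous fun v : Fin n → X => b.det v := by
  simp only [Basis.det_apply]
  refine Continuous.matrix_det (continuous_pi fun i => continuous_pi fun j => ?_)
  exact (b.coord i).continuous_of_finiteDimensional.comp (continuous_apply j)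

omit [FiniteDimensional 𝕜 X] in
theorem cramer {n : ℕ} (b : Basis (Fin n) 𝕜 X) (v : Fin n → X) (hv : b.det v ≠ 0) (y : X) :
    ∑ j, ((b.det v)⁻¹ * b.det (Function.update v j y)) • v j = y := by
  obtain ⟨hli, hsp⟩ := b.is_basis_iff_det.2 (isUnit_iff_ne_zero.2 hv)
  have h := (Basis.mk hli hsp.ge).sum_repr y
  refine Eq.trans (Finset.sum_congr rfl fun j _ => ?_) h
  have h1 := LinearMap.congr_fun (b.det_smul_mk_coord_eq_det_update hli hsp.ge j) y
  simp only [LinearMap.smul_apply, smul_eq_mul, MultilinearMap.toLinearMap_apply,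
    Basis.coord_apply] at h1
  have h2 : b.det (Function.update v j y) = b.det v * (Basis.mk hli hsp.ge).repr y j := h1.symm
  rw [h2, inv_mul_cancel_left₀ hv, Basis.coe_mk]

theorem main (n N : ℕ) (hn : finrank 𝕜 X = n) (hn0 : 0 < n) (hN : n ≤ N) :
    ∃ (x : Fin N → X) (f : Fin N → X →L[𝕜] 𝕜),
      (∀ i, ‖x i‖ = 1 ∧ ‖f i‖ = 1 ∧ f i (x i) = 1) ∧
      ∀ y, ∑ i, f i y • x i = ((N : 𝕜) / (n : 𝕜)) • y := by
  classical
  have : NeZero N := ⟨by omega⟩
  have : ProperSpace X := FiniteDimensional.proper_rclike 𝕜 X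
  let b : Basis (Fin n) 𝕜 X := Module.finBasisOfFinrankEq 𝕜 X hn
  let σ : Fin N → Fin n → Fin N := fun k j => k + Fin.castLE hN j
  have hσ : ∀ k, Function.Injective (σ k) := fun k j j' h =>
    Fin.castLE_injective hN (add_left_cancel h)
  let F : (Fin N → X) → ℝ := fun x => ∏ k, ‖b.det (x ∘ σ k)‖
  have hF : Continuous F := continuous_finsetProd _ fun k _ =>
    ((det_cont b).comp (continuous_pi fun j => continuous_apply (σ k j))).norm
  let K : Set (Fin N → X) := Set.pi Set.univ fun _ => Metric.closedBall 0 1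
  have hK : IsCompact K := isCompact_univ_pi fun _ => isCompact_closedBall _ _
  obtain ⟨x0, hx0K, hx0⟩ : ∃ x0 ∈ K, 0 < F x0 := by
    let u : Fin N → X := fun i => ∑ m : Fin n, ((i : ℕ) : 𝕜) ^ (m : ℕ) • b m
    have hu : ∀ k, b.det (u ∘ σ k) ≠ 0 := by
      intro k
      have e : b.toMatrix (u ∘ σ k) =
          (Matrix.vandermonde fun j => (((σ k j : Fin N) : ℕ) : 𝕜)).transpose := by
        ext i j
        simp [Basis.toMatrix_apply, u, Matrix.vandermonde_apply, Finsupp.single_apply]
      rw [Basis.det_apply, e, Matrix.det_transpose, Matrix.det_vandermonde_ne_zero_iff]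
      intro j j' h
      exact hσ k (Fin.ext (Nat.cast_injective (R := 𝕜) h))
    let c : Fin N → ℝ := fun i => (1 + ‖u i‖)⁻¹
    have hc : ∀ i, 0 < c i := fun i => by positivity
    refine ⟨fun i => (c i : 𝕜) • u i, fun i _ => ?_, Finset.prod_pos fun k _ => ?_⟩
    · rw [mem_closedBall_zero_iff, norm_smul, RCLike.norm_ofReal, abs_of_pos (hc i)]
      simp only [c]
      rw [inv_mul_le_iff₀ (by positivity)]
      linarith
    · rw [norm_pos_iff]
      have := b.det.map_smul_univ (fun j => (c (σ k j) : 𝕜)) (u ∘ σ k)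
      have e : ((fun i => (c i : 𝕜) • u i) ∘ σ k) =
          fun j => (c (σ k j) : 𝕜) • (u ∘ σ k) j := rfl
      rw [e, this, smul_eq_mul]
      refine mul_ne_zero (Finset.prod_ne_zero_iff.2 fun j _ => ?_) (hu k)
      exact_mod_cast (hc _).ne'
  obtain ⟨x, hxK, hx⟩ := hK.exists_isMaxOn ⟨x0, hx0K⟩ hF.continuousOn
  have hFx : 0 < F x := hx0.trans_le (hx hx0K)
  have hD : ∀ k, b.det (x ∘ σ k) ≠ 0 := fun k =>
    norm_ne_zero_iff.1 (Finset.prod_ne_zero_iff.1 hFx.ne' k (Finset.mem_univ k))
  have hxn : ∀ i, ‖x i‖ ≤ 1 := fun i => mem_closedBall_zero_iff.1 (hxK i (Set.mem_univ i))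
  let ψ : Fin N → Fin n → X →ₗ[𝕜] 𝕜 := fun k j =>
    (b.det (x ∘ σ k))⁻¹ • b.det.toMultilinearMap.toLinearMap (x ∘ σ k) j
  have hψ : ∀ k j y, ψ k j y =
      (b.det (x ∘ σ k))⁻¹ * b.det (Function.update (x ∘ σ k) j y) := fun k j y => rfl
  have hψ1 : ∀ k j, ψ k j (x (σ k j)) = 1 := by
    intro k j
    rw [hψ]
    have : Function.update (x ∘ σ k) j (x (σ k j)) = x ∘ σ k := Function.update_eq_self j _
    rw [this, inv_mul_cancel₀ (hD k)]
  let τ : Fin N → Fin n → Fin N := fun i j => i - Fin.castLE hN j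
  have hστ : ∀ i j, σ (τ i j) j = i := fun i j => sub_add_cancel _ _
  have hτσ : ∀ k j, τ (σ k j) j = k := fun k j => add_sub_cancel_right _ _
  have hτ : ∀ i, Function.Injective (τ i) := fun i j j' h =>
    Fin.castLE_injective hN (sub_right_injective h)
  have hupd : ∀ i z, F (Function.update x i z) = F x * ‖∏ j, ψ (τ i j) j z‖ := by
    intro i z
    let r : Fin N → 𝕜 := fun k => (b.det (x ∘ σ k))⁻¹ * b.det (Function.update x i z ∘ σ k)
    have h1 : F (Function.update x i z) = F x * ‖∏ k, r k‖ := by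
      simp only [F]
      rw [norm_prod, ← Finset.prod_mul_distrib]
      refine Finset.prod_congr rfl fun k _ => ?_
      rw [← norm_mul, mul_inv_cancel_left₀ (hD k)]
    have h2 : ∏ k, r k = ∏ k ∈ Finset.univ.image (τ i), r k := by
      refine (Finset.prod_subset (Finset.subset_univ _) fun k _ hk => ?_).symm
      have hne : ∀ j, σ k j ≠ i := by
        intro j hj
        exact hk (Finset.mem_image.2 ⟨j, Finset.mem_univ _, by rw [← hj, hτσ]⟩)
      simp only [r]
      rw [Function.update_comp_eq_of_forall_ne x z hne, inv_mul_cancel₀ (hD k)]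
    rw [h1, h2, Finset.prod_image fun j _ j' _ h => hτ i h]
    congr 2
    refine Finset.prod_congr rfl fun j _ => ?_
    rw [hψ]
    simp only [r]
    have := Function.update_comp_eq_of_injective x (hσ (τ i j)) j z
    rw [hστ] at this
    rw [this]
  let φ : Fin N → X →ₗ[𝕜] 𝕜 := fun i => ∑ j, ψ (τ i j) j
  have hφ : ∀ i y, φ i y = ∑ j, ψ (τ i j) j y := fun i y => by simp [φ]
  have hφx : ∀ i, φ i (x i) = n := by
    intro i
    rw [hφ]
    have : ∀ j, ψ (τ i j) j (x i) = 1 := fun j => by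
      have := hψ1 (τ i j) j
      rwa [hστ] at this
    simp [this]
  have hre : ∀ i y, ‖y‖ ≤ 1 → RCLike.re (φ i y) ≤ n := by
    intro i y hy
    have h1 := re_sum_nonpos (fun j => ψ (τ i j) j (y - x i)) (by
      intro t ht0 ht1
      have hmem : Function.update x i (x i + (t : 𝕜) • (y - x i)) ∈ K := by
        intro i' _
        rw [mem_closedBall_zero_iff]
        by_cases h : i' = i
        · subst h
          rw [Function.update_self]
          have e : x i' + (t : 𝕜) • (y - x i') = ((1 - t : ℝ) : 𝕜) • x i' + (t : 𝕜) • y := by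
            push_cast
            module
          rw [e]
          refine (norm_add_le _ _).trans ?_
          rw [norm_smul, norm_smul, RCLike.norm_ofReal, RCLike.norm_ofReal,
            abs_of_nonneg (by linarith), abs_of_pos ht0]
          nlinarith [hxn i']
        · rw [Function.update_of_ne h]
          exact hxn i'
      have h2 : F (Function.update x i (x i + (t : 𝕜) • (y - x i))) ≤ F x := hx hmem
      rw [hupd] at h2
      have h3 := (mul_le_iff_le_one_right hFx).1 h2
      refine le_trans (le_of_eq ?_) h3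
      congr 1
      refine Finset.prod_congr rfl fun j _ => ?_
      have := hψ1 (τ i j) j
      rw [hστ] at this
      rw [map_add, map_smul, this, smul_eq_mul])
    rw [← hφ, map_sub, hφx, map_sub, RCLike.natCast_re] at h1
    linarith
  have hnorm : ∀ i y, ‖y‖ ≤ 1 → ‖φ i y‖ ≤ n := by
    intro i y hy
    obtain ⟨c, hc, h⟩ := RCLike.exists_norm_eq_mul_self (φ i y)
    have h1 := hre i (c • y) (by rw [norm_smul, hc, one_mul]; exact hy)
    rw [map_smul, smul_eq_mul, ← h, RCLike.ofReal_re] at h1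
    exact h1
  have hnK : (n : 𝕜) ≠ 0 := by exact_mod_cast hn0.ne'
  have hnR : (0 : ℝ) < n := by exact_mod_cast hn0
  let f : Fin N → X →L[𝕜] 𝕜 := fun i => LinearMap.toContinuousLinearMap ((n : 𝕜)⁻¹ • φ i)
  have hf : ∀ i y, f i y = (n : 𝕜)⁻¹ * φ i y := fun i y => rfl
  have hfx : ∀ i, f i (x i) = 1 := fun i => by rw [hf, hφx, inv_mul_cancel₀ hnK]
  have hfn : ∀ i, ‖f i‖ ≤ 1 := by
    intro i
    refine ContinuousLinearMap.opNorm_le_bound _ zero_le_one fun y => ?_
    rcases eq_or_ne y 0 with rfl | hy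
    · simp
    have hy' : 0 < ‖y‖ := norm_pos_iff.2 hy
    have h1 := hnorm i (((‖y‖⁻¹ : ℝ) : 𝕜) • y) (by
      rw [norm_smul, RCLike.norm_ofReal, abs_of_pos (inv_pos.2 hy'), inv_mul_cancel₀ hy'.ne'])
    rw [map_smul, smul_eq_mul, norm_mul, RCLike.norm_ofReal, abs_of_pos (inv_pos.2 hy'),
      inv_mul_le_iff₀ hy'] at h1
    rw [hf, norm_mul, norm_inv, RCLike.norm_natCast, inv_mul_le_iff₀ hnR]
    linarith
  refine ⟨x, f, fun i => ?_, fun y => ?_⟩
  · have h1 := (f i).le_opNorm (x i)
    rw [hfx, norm_one] at h1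
    have h2 := hxn i
    have h3 := hfn i
    have h4 := norm_nonneg (x i)
    have h5 := norm_nonneg (f i)
    refine ⟨le_antisymm h2 (by nlinarith), le_antisymm h3 (by nlinarith), hfx i⟩
  · have h1 : ∑ i, φ i y • x i = (N : 𝕜) • y := by
      calc ∑ i, φ i y • x i = ∑ j, ∑ i, ψ (τ i j) j y • x i := by
            rw [Finset.sum_comm]
            exact Finset.sum_congr rfl fun i _ => by rw [hφ, Finset.sum_smul]
        _ = ∑ j, ∑ k, ψ k j y • x (σ k j) := by
            refine Finset.sum_congr rfl fun j _ => ?_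
            refine (Fintype.sum_equiv (Equiv.addRight (Fin.castLE hN j)) _ _ fun k => ?_).symm
            have : τ (σ k j) j = k := hτσ k j
            simp only [Equiv.coe_addRight]
            change _ = ψ (τ (σ k j) j) j y • x (σ k j)
            rw [this]
        _ = ∑ k : Fin N, y := by
            rw [Finset.sum_comm]
            exact Finset.sum_congr rfl fun k _ => cramer b (x ∘ σ k) (hD k) y
        _ = (N : 𝕜) • y := by
            rw [Finset.sum_const, Finset.card_univ, Fintype.card_fin, Nat.cast_smul_eq_nsmul]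
    calc ∑ i, f i y • x i = (n : 𝕜)⁻¹ • ∑ i, φ i y • x i := by
          rw [Finset.smul_sum]
          exact Finset.sum_congr rfl fun i _ => by rw [hf, mul_smul]
      _ = _ := by rw [h1, smul_smul, div_eq_inv_mul]

end Pool.Agent.H264Z.Funtf
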