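import Pool.Agent.H264Z.PcWalk

set_option autoImplicit false
set_option linter.unusedSectionVars false

open Finset BigOperators

namespace Pool.Agent.H264Z.Pc

lemma expect_prod {S R : Type} [Fintype S] [Fintype R] (g : S × R → ℝ) :
    𝔼 z, g z = 𝔼 s : S, 𝔼 r : R, g (s, r) := by
  rw [← Finset.expect_product' univ univ (fun (s : S) (r : R) => g (s, r))]
  rfl

section Sup

variable {B : Type} [Fintype B] [DecidableEq B] [Nonempty B]

/-- Squared norm after one step of the difference of two oriented walks. -/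
def nw (D : B → ℝ) (j j' : B) : ℝ := ∑ l, (D l + (if l = j then 1 else 0) - if l = j' then 1 else 0) ^ 2

lemma nw_eq (D : B → ℝ) (j j' : B) :
    nw D j j' = ∑ l, D l ^ 2 + (2 * (D j - D j') + if j = j' then 0 else 2) := by
  have h : ∀ l, (D l + (if l = j then 1 else 0) - if l = j' then 1 else 0) ^ 2 =
      D l ^ 2 + (if l = j then 2 * D l + (if j = j' then 0 else 1) else 0) +
        if l = j' then -2 * D l + (if j = j' then 0 else 1) else 0 := by
    intro l
    split_ifs <;> first | ring1 | simp_all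
  simp only [nw, h, sum_add_distrib, sum_ite_eq', mem_univ, if_true]
  split_ifs <;> ring

lemma nw_lower (D : B → ℝ) (j j' : B) : (∑ l, D l ^ 2 + 32) / 2 ≤ nw D j j' + 32 := by
  rw [nw_eq]
  have h0 : 0 ≤ ∑ l, D l ^ 2 := sum_nonneg fun l _ => sq_nonneg _
  split_ifs with h
  · subst h; linarith
  · have h1 : ∑ l ∈ {j, j'}, D l ^ 2 ≤ ∑ l, D l ^ 2 :=
      sum_le_sum_of_subset_of_nonneg (subset_univ _) fun l _ _ => sq_nonneg _
    rw [sum_pair h] at h1
    nlinarith [sq_nonneg (D j + 2), sq_nonneg (D j' - 2)]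

lemma expect_delta (j' : B) (c : ℝ) : 𝔼 j : B, (if j = j' then c else 0) = c / Fintype.card B := by
  rw [Fintype.expect_eq_sum_div_card]
  simp

lemma superharm (hb : 64 ≤ Fintype.card B) (D : B → ℝ) :
    𝔼 j' : B, 𝔼 j : B, 1 / (nw D j j' + 32) ≤
      1 / (∑ l, D l ^ 2 + 32) - 1 / (2 * (∑ l, D l ^ 2 + 32) ^ 2) := by
  have h0 : 0 ≤ ∑ l, D l ^ 2 := sum_nonneg fun l _ => sq_nonneg _
  have hb' : (64 : ℝ) ≤ Fintype.card B := by exact_mod_cast hb
  set s := ∑ l, D l ^ 2 with hs
  set t := s + 32 with ht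
  have ht0 : 0 < t := by linarith
  have h1 : ∀ j j', 1 / (nw D j j' + 32) ≤ (1 / t - 2 / t ^ 2 + 16 / t ^ 3) +
      (-2 / t ^ 2 * D j + 32 / t ^ 3 * D j ^ 2) + (2 / t ^ 2 * D j' + 32 / t ^ 3 * D j' ^ 2) +
      if j = j' then 2 / t ^ 2 else 0 := by
    intro j j'
    have h2 := nw_lower D j j'
    rw [nw_eq] at h2 ⊢
    set u := 2 * (D j - D j') + if j = j' then 0 else 2 with hu
    rw [← hs] at h2 ⊢
    have h3 : 0 < s + u + 32 := by linarith
    have h4 : 1 / (s + u + 32) ≤ 1 / t - u / t ^ 2 + 2 * u ^ 2 / t ^ 3 := by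
      rw [div_le_iff₀ h3, show s + u + 32 = t + u by rw [ht]; ring]
      have h5 : (1 / t - u / t ^ 2 + 2 * u ^ 2 / t ^ 3) * (t + u) = 1 + u ^ 2 * (t + 2 * u) / t ^ 3 := by
        field_simp; ring
      have h6 : 0 ≤ t + 2 * u := by linarith
      rw [h5]
      have : 0 ≤ u ^ 2 * (t + 2 * u) / t ^ 3 := by positivity
      linarith
    have h5 : u ^ 2 ≤ 16 * D j ^ 2 + 16 * D j' ^ 2 + 8 := by
      rw [hu]
      split_ifs <;> nlinarith [sq_nonneg (D j + D j'), sq_nonneg (D j - D j' - 1)]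
    have h6 : 2 * u ^ 2 / t ^ 3 ≤ 2 * (16 * D j ^ 2 + 16 * D j' ^ 2 + 8) / t ^ 3 := by gcongr
    refine h4.trans (le_trans (add_le_add_right h6 _) (le_of_eq ?_))
    rw [hu]
    split_ifs <;> ring
  have h2 : 𝔼 j : B, D j ^ 2 = s / Fintype.card B := Fintype.expect_eq_sum_div_card _
  refine (expect_le_expect fun j' _ => expect_le_expect fun j _ => h1 j j').trans ?_
  simp only [expect_add_distrib, Fintype.expect_const, ← mul_expect, expect_delta, h2]
  have h3 : s / Fintype.card B ≤ s / 64 := by gcongr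
  have h4 : 2 / t ^ 2 / Fintype.card B ≤ 2 / t ^ 2 / 64 := by gcongr
  have h5 : 32 / t ^ 3 * (s / Fintype.card B) ≤ 32 / t ^ 3 * (s / 64) := by gcongr
  have h6 : 1 / t - 1 / (2 * t ^ 2) - (1 / t - 2 / t ^ 2 + 16 / t ^ 3 + 2 * (32 / t ^ 3 * (s / 64)) +
      2 / t ^ 2 / 64) = (47 / 32 * t - 16 - s) / t ^ 3 := by
    field_simp; ring
  have h7 : 0 ≤ (47 / 32 * t - 16 - s) / t ^ 3 := div_nonneg (by linarith) (by positivity)
  have h8 : -2 / t ^ 2 * 𝔼 i, D i = -(2 / t ^ 2 * 𝔼 i, D i) := by ring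
  linarith

lemma hit_zero (D : B → ℝ) (j' : B) (c : ℝ) (hc : 0 ≤ c) :
    𝔼 j : B, (if nw D j j' = 0 then c else 0) ≤ c / Fintype.card B := by
  rw [expect_ite_le]
  have h1 : (univ.filter fun j : B => nw D j j' = 0).card ≤ 1 := by
    refine card_le_one.2 fun a ha b hb => ?_
    simp only [mem_filter, mem_univ, true_and, nw] at ha hb
    rw [sum_eq_zero_iff_of_nonneg fun l _ => sq_nonneg _] at ha hb
    have h2 := pow_eq_zero_iff (two_ne_zero) |>.1 (ha a (mem_univ _))
    have h3 := pow_eq_zero_iff (two_ne_zero) |>.1 (hb a (mem_univ _))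
    by_contra hab
    rw [if_pos rfl] at h2
    rw [if_neg hab] at h3
    linarith
  have h2 : ((univ.filter fun j : B => nw D j j' = 0).card : ℝ) ≤ 1 := by exact_mod_cast h1
  exact div_le_div_of_nonneg_right (by nlinarith) (Nat.cast_nonneg _)

/-- The potential. -/
noncomputable def pot (H b s : ℝ) : ℝ := if s = 0 then H else 1 + H * (8192 / b) * (1 / (s + 32))

lemma pot_le {H b s : ℝ} (hH : 0 ≤ H) (hb : 0 < b) (hs : 0 ≤ s) :
    pot H b s ≤ 1 + H * (8192 / b) * (1 / (s + 32)) + if s = 0 then H else 0 := by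
  unfold pot
  split_ifs
  · have : 0 ≤ H * (8192 / b) * (1 / (s + 32)) := by positivity
    linarith
  · linarith

lemma one_le_pot {H b s : ℝ} (hH : 1 ≤ H) (hb : 0 < b) (hs : 0 ≤ s) : 1 ≤ pot H b s := by
  unfold pot
  split_ifs
  · exact hH
  · have : 0 ≤ H * (8192 / b) * (1 / (s + 32)) := by positivity
    linarith

lemma nw_nonneg (D : B → ℝ) (j j' : B) : 0 ≤ nw D j j' := sum_nonneg fun _ _ => sq_nonneg _

lemma pot_super (hb : 64 ≤ Fintype.card B) {H : ℝ} (hH : 0 ≤ H) (D : B → ℝ) (hD : ∑ l, D l ^ 2 ≠ 0) :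
    𝔼 j' : B, 𝔼 j : B, pot H (Fintype.card B) (nw D j j') ≤ pot H (Fintype.card B) (∑ l, D l ^ 2) := by
  have hb' : (64 : ℝ) ≤ Fintype.card B := by exact_mod_cast hb
  have hb0 : (0 : ℝ) < Fintype.card B := by linarith
  have h0 : 0 ≤ ∑ l, D l ^ 2 := sum_nonneg fun l _ => sq_nonneg _
  have h1 := superharm hb D
  have h2 : 𝔼 j' : B, 𝔼 j : B, (if nw D j j' = 0 then H else 0) ≤
      H * (8192 / Fintype.card B) * (1 / (2 * (∑ l, D l ^ 2 + 32) ^ 2)) := by
    by_cases hs : ∑ l, D l ^ 2 ≤ 32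
    · refine (expect_le univ_nonempty fun j' _ => hit_zero D j' H hH).trans ?_
      have h3 : 1 / (8192 : ℝ) ≤ 1 / (2 * (∑ l, D l ^ 2 + 32) ^ 2) :=
        one_div_le_one_div_of_le (by positivity) (by nlinarith)
      calc H / Fintype.card B = H * (8192 / Fintype.card B) * (1 / 8192) := by ring
        _ ≤ _ := by gcongr
    · refine le_trans (le_of_eq ?_) (by positivity)
      refine expect_eq_zero fun j' _ => expect_eq_zero fun j _ => if_neg fun h => ?_
      have := nw_lower D j j'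
      rw [h] at this
      linarith
  refine (expect_le_expect fun j' _ => expect_le_expect fun j _ => pot_le hH hb0 (nw_nonneg D j j')).trans ?_
  simp only [expect_add_distrib, Fintype.expect_const, ← mul_expect]
  have h3 := mul_le_mul_of_nonneg_left h1 (show 0 ≤ H * (8192 / Fintype.card B) by positivity)
  rw [pot, if_neg hD]
  linarith

lemma pot_zero {H : ℝ} (hH : 0 ≤ H) (D : B → ℝ) (hD : ∑ l, D l ^ 2 = 0) (j j' : B) :
    pot H (Fintype.card B) (nw D j j') ≤ 1 + 256 * H / Fintype.card B + if j = j' then H else 0 := by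
  have hb0 : (0 : ℝ) < Fintype.card B := by exact_mod_cast Fintype.card_pos
  refine (pot_le hH hb0 (nw_nonneg D j j')).trans (add_le_add (add_le_add_right ?_ _) ?_)
  · have := nw_nonneg D j j'
    calc _ ≤ H * (8192 / Fintype.card B) * (1 / 32) := by gcongr; linarith
      _ = _ := by ring
  · have h1 : ∀ l, D l = 0 := fun l => pow_eq_zero_iff (two_ne_zero) |>.1
      ((sum_eq_zero_iff_of_nonneg fun l _ => sq_nonneg _).1 hD l (mem_univ _))
    rw [nw_eq, hD, h1, h1]
    by_cases h : j = j'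
    · simp [h]
    · simp [h]

end Sup

variable {d n : ℕ} {A B : Finset (Fin d)}

/-- A block: `n` steps in the directions of `A`, then one positive step in a direction of `B`. -/
abbrev Blk (A B : Finset (Fin d)) (n : ℕ) := (Fin n → Stp A) × B

def bE (x : Vtx d) (β : Blk A B n) : Finset (Edge d) := insert (wZ n x β.1, β.2.1) (wE n x β.1)

def bZ (x : Vtx d) (β : Blk A B n) : Vtx d := wZ n x β.1 + Pi.single β.2.1 1

def pE : (T : ℕ) → Vtx d → (Fin T → Blk A B n) → Finset (Edge d)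
  | 0, _, _ => ∅
  | T + 1, x, γ => bE x (γ 0) ∪ pE T (bZ x (γ 0)) (Fin.tail γ)

def pZ : (T : ℕ) → Vtx d → (Fin T → Blk A B n) → Vtx d
  | 0, x, _ => x
  | T + 1, x, γ => pZ T (bZ x (γ 0)) (Fin.tail γ)

def lev (B : Finset (Fin d)) (x : Vtx d) : ℤ := ∑ j : B, x j

variable (hAB : Disjoint A B)
include hAB

lemma mvv_B (x : Vtx d) (s : Stp A) (j : B) : mvv x s j = x j := by
  have h : j.1 ≠ s.1.1 := fun h => disjoint_left.1 hAB s.1.2 (h ▸ j.2)
  unfold mvv
  split_ifs <;> simp [Pi.single_eq_of_ne h]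

lemma wZ_B (k : ℕ) : ∀ (x : Vtx d) (f : Fin k → Stp A) (j : B), wZ k x f j = x j := by
  induction k with
  | zero => intro x f j; rfl
  | succ k ih => intro x f j; rw [wZ, ih, mvv_B hAB]

lemma wE_B (k : ℕ) : ∀ (x : Vtx d) (f : Fin k → Stp A), ∀ e ∈ wE k x f,
    (∀ j : B, e.1 j = x j) ∧ e.2 ∈ A := by
  induction k with
  | zero => intro x f e he; simp [wE] at he
  | succ k ih =>
    intro x f e he
    rcases mem_insert.1 he with rfl | he
    · have h := mvv_B hAB x (f 0)
      unfold mvv at h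
      unfold edg
      split_ifs with hb
      · exact ⟨fun j => rfl, (f 0).1.2⟩
      · simp only [hb] at h
        exact ⟨h, (f 0).1.2⟩
    · exact ⟨fun j => by rw [(ih _ _ e he).1, mvv_B hAB], (ih _ _ e he).2⟩

lemma bE_B (x : Vtx d) (β : Blk A B n) (e : Edge d) (he : e ∈ bE x β) (j : B) : e.1 j = x j := by
  rcases mem_insert.1 he with rfl | he
  · exact wZ_B hAB n x β.1 j
  · exact (wE_B hAB n x β.1 e he).1 j

lemma bZ_B (x : Vtx d) (β : Blk A B n) (j : B) : bZ x β j = x j + if j = β.2 then 1 else 0 := by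
  simp only [bZ, Pi.add_apply, wZ_B hAB, Pi.single_apply, Subtype.ext_iff]

lemma lev_bZ (x : Vtx d) (β : Blk A B n) : lev B (bZ x β) = lev B x + 1 := by
  simp [lev, bZ_B hAB, sum_add_distrib]

lemma lev_pE (T : ℕ) : ∀ (x : Vtx d) (γ : Fin T → Blk A B n), ∀ e ∈ pE T x γ, lev B x ≤ lev B e.1 := by
  induction T with
  | zero => intro x γ e he; simp [pE] at he
  | succ T ih =>
    intro x γ e he
    rcases mem_union.1 he with he | he
    · exact (sum_congr rfl fun j _ => bE_B hAB x _ e he j).ge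
    · have := ih _ _ e he
      rw [lev_bZ hAB] at this
      omega

lemma lev_pZ (T : ℕ) : ∀ (x : Vtx d) (γ : Fin T → Blk A B n), lev B (pZ T x γ) = lev B x + T := by
  induction T with
  | zero => intro x γ; simp [pZ]
  | succ T ih => intro x γ; rw [pZ, ih, lev_bZ hAB]; push_cast; ring

/-- Difference of the `B` coordinates. -/
def df (B : Finset (Fin d)) (x x' : Vtx d) : B → ℝ := fun j => (x j : ℝ) - x' j

lemma df_bZ (x x' : Vtx d) (β β' : Blk A B n) :
    ∑ l, df B (bZ x β) (bZ x' β') l ^ 2 = nw (df B x x') β.2 β'.2 := by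
  refine sum_congr rfl fun l _ => ?_
  simp only [df, bZ_B hAB]
  push_cast
  ring

lemma card_bE (x x' : Vtx d) (β β' : Blk A B n) : (bE x β ∩ bE x' β').card ≤
    (wE n x β.1 ∩ wE n x' β'.1).card + if wZ n x β.1 = wZ n x' β'.1 ∧ β.2 = β'.2 then 1 else 0 := by
  have h1 : ∀ (y z : Vtx d) (f : Fin n → Stp A) (j : B), (z, j.1) ∉ wE n y f := fun y z f j h =>
    disjoint_left.1 hAB (wE_B hAB n y f _ h).2 j.2
  split_ifs with h
  · refine le_trans (card_le_card ?_) (card_insert_le (wZ n x β.1, β.2.1) _)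
    intro e he
    simp only [bE, mem_inter, mem_insert] at he ⊢
    rw [← h.1, ← h.2] at he
    tauto
  · refine card_le_card fun e he => ?_
    simp only [bE, mem_inter, mem_insert] at he ⊢
    obtain ⟨rfl | h2, h3 | h3⟩ := he
    · exact absurd ⟨congrArg Prod.fst h3, Subtype.ext (congrArg Prod.snd h3)⟩ h
    · exact absurd h3 (h1 _ _ _ _)
    · exact absurd (h3 ▸ h2) (h1 _ _ _ _)
    · exact ⟨h2, h3⟩

variable [Nonempty A] [Nonempty B] {q M κ : ℝ}

lemma block (hq : 1 ≤ q) (hM0 : 0 ≤ M) (hb : 1024 * (M + 1) ≤ Fintype.card B)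
    (hl : (M + q * κ) / Fintype.card B ≤ 1 / 2)
    (hM : ∀ x x' : Vtx d, 𝔼 g : Fin n → Stp A, 𝔼 f : Fin n → Stp A, q ^ (wE n x f ∩ wE n x' g).card ≤ M)
    (hκ : ∀ x x' : Vtx d, 𝔼 g : Fin n → Stp A, 𝔼 f : Fin n → Stp A,
      (if wZ n x f = wZ n x' g then q ^ (wE n x f ∩ wE n x' g).card else 0) ≤ κ) (x x' : Vtx d) :
    𝔼 β' : Blk A B n, 𝔼 β : Blk A B n, q ^ (bE x β ∩ bE x' β').card *
      pot (4 * (M + 1)) (Fintype.card B) (∑ l, df B (bZ x β) (bZ x' β') l ^ 2) ≤
      pot (4 * (M + 1)) (Fintype.card B) (∑ l, df B x x' l ^ 2) := by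
  have hb0 : (0 : ℝ) < Fintype.card B := by exact_mod_cast Fintype.card_pos
  have hH : 0 ≤ 4 * (M + 1) := by linarith
  simp only [df_bZ hAB]
  by_cases hD : ∑ l, df B x x' l ^ 2 = 0
  · set H := 4 * (M + 1) with hHd
    set K := 1 + 256 * H / Fintype.card B with hK
    have hK0 : 0 ≤ K := by positivity
    have h1 : ∀ β β' : Blk A B n, q ^ (bE x β ∩ bE x' β').card *
        pot H (Fintype.card B) (nw (df B x x') β.2 β'.2) ≤
        K * q ^ (wE n x β.1 ∩ wE n x' β'.1).card + if β.2 = β'.2 then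
          (H * q ^ (wE n x β.1 ∩ wE n x' β'.1).card + (K + H) * q *
            if wZ n x β.1 = wZ n x' β'.1 then q ^ (wE n x β.1 ∩ wE n x' β'.1).card else 0) else 0 := by
      intro β β'
      have h2 := pow_le_pow_right₀ hq (card_bE hAB x x' β β')
      have h3 := pot_zero hH (df B x x') hD β.2 β'.2
      have h4 : 0 ≤ q ^ (wE n x β.1 ∩ wE n x' β'.1).card := by positivity
      have h5 : 0 ≤ pot H (Fintype.card B) (nw (df B x x') β.2 β'.2) :=
        zero_le_one.trans (one_le_pot (by linarith) hb0 (nw_nonneg _ _ _))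
      refine (mul_le_mul h2 h3 h5 (by positivity)).trans ?_
      rw [← hK]
      by_cases h6 : β.2 = β'.2
      · by_cases h7 : wZ n x β.1 = wZ n x' β'.1
        · simp only [h6, h7, and_self, if_true, pow_succ]
          nlinarith [mul_nonneg hK0 h4, mul_nonneg hH h4]
        · simp only [h6, h7, false_and, if_true, if_false, add_zero, mul_zero]
          linarith
      · simp only [h6, and_false, if_false, add_zero]
        linarith
    refine (expect_le_expect fun β' _ => expect_le_expect fun β _ => h1 β β').trans ?_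
    simp only [expect_prod, expect_add_distrib, Fintype.expect_const, expect_delta, ← mul_expect,
      ← expect_div]
    have h2 := hM x x'
    have h3 := hκ x x'
    rw [pot, if_pos hD]
    have h4 : K * M + (H * M + (K + H) * q * κ) / Fintype.card B ≤ H := by
      have h5 : (H * M + (K + H) * q * κ) / Fintype.card B ≤ (K + H) * ((M + q * κ) / Fintype.card B) := by
        rw [← mul_div_assoc]
        exact div_le_div_of_nonneg_right (by nlinarith) hb0.le
      have h6 : 256 * H / Fintype.card B * (M + 1) ≤ H / 4 := by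
        rw [div_mul_eq_mul_div, div_le_iff₀ hb0]
        nlinarith
      have h7 := mul_le_mul_of_nonneg_left hl (add_nonneg hK0 hH)
      have h8 : K * (M + 1) ≤ (M + 1) + H / 4 := by rw [hK]; linarith
      nlinarith
    refine le_trans ?_ h4
    gcongr
  · have h1 : ∀ β β' : Blk A B n, bE x β ∩ bE x' β' = ∅ := by
      intro β β'
      refine eq_empty_of_forall_notMem fun e he => hD (sum_eq_zero fun l _ => ?_)
      rw [mem_inter] at he
      rw [df, ← bE_B hAB x β e he.1, ← bE_B hAB x' β' e he.2]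
      simp
    simp only [h1, card_empty, pow_zero, one_mul, expect_prod, Fintype.expect_const]
    have hb' : (64 : ℝ) ≤ Fintype.card B := by linarith
    exact pot_super (by exact_mod_cast hb') hH _ hD

lemma path (hq : 1 ≤ q) (hM0 : 0 ≤ M) (hb : 1024 * (M + 1) ≤ Fintype.card B)
    (hl : (M + q * κ) / Fintype.card B ≤ 1 / 2)
    (hM : ∀ x x' : Vtx d, 𝔼 g : Fin n → Stp A, 𝔼 f : Fin n → Stp A, q ^ (wE n x f ∩ wE n x' g).card ≤ M)
    (hκ : ∀ x x' : Vtx d, 𝔼 g : Fin n → Stp A, 𝔼 f : Fin n → Stp A,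
      (if wZ n x f = wZ n x' g then q ^ (wE n x f ∩ wE n x' g).card else 0) ≤ κ) (T : ℕ) :
    ∀ x x' : Vtx d, lev B x = lev B x' →
      𝔼 γ' : Fin T → Blk A B n, 𝔼 γ : Fin T → Blk A B n, q ^ (pE T x γ ∩ pE T x' γ').card ≤
        pot (4 * (M + 1)) (Fintype.card B) (∑ l, df B x x' l ^ 2) := by
  have hb0 : (0 : ℝ) < Fintype.card B := by exact_mod_cast Fintype.card_pos
  induction T with
  | zero =>
    intro x x' _
    simp only [pE, empty_inter, card_empty, pow_zero, Fintype.expect_const]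
    exact one_le_pot (by linarith) hb0 (sum_nonneg fun _ _ => sq_nonneg _)
  | succ T ih =>
    intro x x' hx
    refine le_trans ?_ (block hAB hq hM0 hb hl hM hκ x x')
    simp only [expect_succ]
    refine expect_le_expect fun β' _ => ?_
    rw [expect_comm]
    refine expect_le_expect fun β _ => ?_
    refine le_trans ?_ (mul_le_mul_of_nonneg_left (ih (bZ x β) (bZ x' β')
      (by rw [lev_bZ hAB, lev_bZ hAB, hx])) (by positivity))
    simp only [mul_expect]
    refine expect_le_expect fun γ' _ => expect_le_expect fun γ _ => ?_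
    simp only [pE, Fin.cons_zero, Fin.tail_cons]
    rw [← pow_add]
    refine pow_le_pow_right₀ hq (le_trans (card_le_card ?_) (card_union_le _ _))
    intro e he
    simp only [mem_inter, mem_union] at he ⊢
    have h1 : e ∈ bE x β → lev B e.1 = lev B x := fun h => sum_congr rfl fun j _ => bE_B hAB x _ e h j
    have h2 : e ∈ bE x' β' → lev B e.1 = lev B x' := fun h => sum_congr rfl fun j _ => bE_B hAB x' _ e h j
    have h3 := lev_pE hAB T (bZ x β) γ e
    have h4 := lev_pE hAB T (bZ x' β') γ' e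
    rw [lev_bZ hAB] at h3 h4
    obtain ⟨h5 | h5, h6 | h6⟩ := he
    · exact Or.inl ⟨h5, h6⟩
    · have := h1 h5; have := h4 h6; omega
    · have := h2 h6; have := h3 h5; omega
    · exact Or.inr ⟨h5, h6⟩

end Pool.Agent.H264Z.Pc
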