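import Mathlib

set_option autoImplicit false

open MeasureTheory ProbabilityTheory

namespace Pool.Agent.H264Z.Pc

/-- Vertices of the lattice. -/
abbrev Vtx (d : ℕ) := Fin d → ℤ

/-- Edges of the lattice: `(x, i)` is the edge between `x` and `x + e_i`. -/
abbrev Edge (d : ℕ) := Vtx d × Fin d

/-- The graph formed by the set `ω` of open edges. -/
def openGraph {d : ℕ} (ω : Set (Edge d)) : SimpleGraph (Vtx d) :=
  SimpleGraph.fromRel fun a b => ∃ i, b = a + Pi.single i 1 ∧ (a, i) ∈ ω

/-- The vertices joined to the origin by an open path. -/
def verts {d : ℕ} (ω : Set (Edge d)) : Set (Vtx d) := {x | (openGraph ω).Reachable 0 x}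

/-- The open cluster of the origin as a subgraph: its vertex set and its set of open edges. -/
def cluster {d : ℕ} (ω : Set (Edge d)) : Set (Vtx d) × Set (Edge d) :=
  (verts ω, {e | e ∈ ω ∧ e.1 ∈ verts ω ∧ e.1 + Pi.single e.2 1 ∈ verts ω})

/-- Bond percolation: each edge is open with probability `p`, independently. -/
noncomputable def perc (d : ℕ) (p : unitInterval) : Measure (Set (Edge d)) := setBernoulli Set.univ p

/-- The event that the open cluster of the origin is infinite. -/
def infinite (d : ℕ) : Set (Set (Edge d)) := {ω | (verts ω).Infinite}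

/-- The critical probability. -/
noncomputable def pc (d : ℕ) : ℝ := sInf {t : ℝ | ∃ p : unitInterval, (p : ℝ) = t ∧ 0 < perc d p (infinite d)}

/-- The law of the open cluster of the origin conditioned to be infinite. -/
noncomputable def infLaw (d : ℕ) (p : unitInterval) : Measure (Set (Vtx d) × Set (Edge d)) :=
  (cond (perc d p) (infinite d)).map cluster

end Pool.Agent.H264Z.Pc
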