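import Pool.Agent.H264Z.PcSnake

set_option autoImplicit false
set_option linter.unusedSectionVars false

open Finset BigOperators MeasureTheory ProbabilityTheory

namespace Pool.Agent.H264Z.Pc

lemma perc_lower (d : ℕ) (hd : 10 ^ 18 ≤ d) : ∃ (B : Finset (Fin d)) (_ : B) (H : ℝ), 0 < H ∧
    ∀ p : unitInterval, 17 / (20 * d) ≤ (p : ℝ) → ∀ (z : Vtx d) (O C : Finset (Edge d)), Disjoint O C →
      (∀ e ∈ O, lev B e.1 < lev B z) → (∀ e ∈ C, lev B e.1 < lev B z) →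
      (p : ℝ) ^ O.card * (1 - p) ^ C.card / H ≤
        (perc d p).real (cyl O C ∩ {ω | {y | (openGraph ω).Reachable z y}.Infinite}) := by
  obtain ⟨B, -, hB⟩ := exists_subset_card_eq (s := (univ : Finset (Fin d))) (n := d / 10)
    (by simp; omega)
  have hA : Bᶜ.card = d - d / 10 := by rw [card_compl, hB, Fintype.card_fin]
  obtain ⟨j0, hj0⟩ : B.Nonempty := card_pos.1 (by omega)
  obtain ⟨i0, hi0⟩ : Bᶜ.Nonempty := card_pos.1 (by omega)
  have : Nonempty B := ⟨⟨j0, hj0⟩⟩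
  have : Nonempty (Bᶜ : Finset (Fin d)) := ⟨⟨i0, hi0⟩⟩
  have hd' : (10 : ℝ) ^ 18 ≤ d := by exact_mod_cast hd
  have hd0 : (0 : ℝ) < d := by linarith
  have hb : (d : ℝ) / 11 ≤ Fintype.card B := by
    rw [Fintype.card_coe, hB, div_le_iff₀ (by norm_num)]
    exact_mod_cast (by omega : d ≤ d / 10 * 11)
  have hN : 9 / 5 * (d : ℝ) ≤ Fintype.card (Stp Bᶜ) := by
    rw [Fintype.card_prod, Fintype.card_coe, hA, Fintype.card_bool]
    have : ((9 * d : ℕ) : ℝ) ≤ (5 * ((d - d / 10) * 2) : ℕ) := by exact_mod_cast (by omega)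
    push_cast at this ⊢
    linarith
  refine ⟨B, ⟨j0, hj0⟩, 4 * ((1 + (12 : ℕ)) ^ 12 + 1), by positivity, fun p hp z O C hOC hO hC => ?_⟩
  have hp0 : 0 < (p : ℝ) := lt_of_lt_of_le (by positivity) hp
  have hq1 : 1 ≤ (1 / p : ℝ) := one_le_one_div hp0 p.2.2
  have hq2 : (1 / p : ℝ) ≤ 20 / 17 * d := by
    rw [div_le_iff₀ hp0]
    rw [div_le_iff₀ (by positivity)] at hp
    linarith
  set N : ℝ := (Fintype.card (Stp Bᶜ) : ℝ) with hNd
  set b : ℝ := (Fintype.card B : ℝ) with hbd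
  have hN0 : 0 < N := by linarith
  have hb0 : 0 < b := by linarith
  have hρ : (1 / p : ℝ) ≤ N := by linarith
  refine lower (n := 12) (disjoint_compl_left (a := B)) p hp0 _ (by positivity) z (fun T => ?_) O C hOC hO hC
  have h := path (disjoint_compl_left (a := B)) hq1 (by positivity) ?_ ?_ (crude2 hq1 hρ 12) (fine2 hq1 hρ 12)
    T z z rfl
  · simpa [df, pot] using h
  · rw [← hbd]
    norm_num
    linarith
  · rw [← hbd, ← hNd]
    have h1 : 1 / (p : ℝ) / N ≤ 2 / 3 := by rw [div_le_iff₀ hN0]; linarith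
    have h2 : (1 / (p : ℝ) / N) ^ 12 ≤ (2 / 3) ^ 12 := by gcongr
    have h3 : ((3 : ℝ) ^ 12 * ((12 : ℕ) + 1) + (1 + (12 : ℕ)) ^ 12 * ((12 : ℕ) * (12 : ℕ))) / N ≤ 1 / 500 := by
      rw [div_le_iff₀ hN0]
      norm_num
      linarith
    have h4 : 1 / (p : ℝ) ≤ 13 * b := by linarith
    have h5 : ((3 : ℝ) ^ 12 * ((12 : ℕ) + 1) + (1 + (12 : ℕ)) ^ 12 * ((12 : ℕ) * (12 : ℕ))) / N +
        (1 / (p : ℝ) / N) ^ 12 * 2 ≤ 1 / 50 := by
      norm_num at h2 h3 ⊢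
      linarith
    have h6 := mul_le_mul h4 h5 (by positivity) (by positivity)
    rw [div_le_iff₀ hb0]
    have h7 : ((1 : ℝ) + (12 : ℕ)) ^ 12 ≤ b / 10 := by
      norm_num
      linarith
    linarith

lemma infLaw_real {d : ℕ} (p : unitInterval) (D : Set (Set (Vtx d) × Set (Edge d))) (hD : MeasurableSet D) :
    (infLaw d p).real D =
      ((perc d p).real (infinite d))⁻¹ * (perc d p).real (infinite d ∩ cluster ⁻¹' D) := by
  rw [infLaw, map_measureReal_apply meas_cluster hD, measureReal_def, cond_apply meas_infinite,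
    ENNReal.toReal_mul, ENNReal.toReal_inv]
  rfl

theorem no_coupling (d : ℕ) (hd : 10 ^ 18 ≤ d) (p₁ p₂ : unitInterval) (h₀ : 9 / (10 * d) ≤ (p₁ : ℝ))
    (h₁ : p₁ < p₂) (h₂ : (p₂ : ℝ) ≤ 1 / d) :
    (pc d < p₁ ∧ 0 < perc d p₁ (infinite d) ∧ 0 < perc d p₂ (infinite d)) ∧ ∃ D : Set (Set (Vtx d) × Set (Edge d)), MeasurableSet D ∧
      (∀ a b : Set (Vtx d) × Set (Edge d), a.2 ⊆ b.2 → b ∈ D → a ∈ D) ∧
      (infLaw d p₁).real D < (infLaw d p₂).real D := by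
  obtain ⟨B, j0, H, hH, h⟩ := perc_lower d hd
  have hd' : (10 : ℝ) ^ 18 ≤ d := by exact_mod_cast hd
  have hd0 : (0 : ℝ) < d := by linarith
  have h3 : 17 / (20 * (d : ℝ)) < 9 / (10 * d) := by
    rw [div_lt_div_iff₀ (by positivity) (by positivity)]; linarith
  have hθ : ∀ p : unitInterval, 17 / (20 * d) ≤ (p : ℝ) → 1 / H ≤ (perc d p).real (infinite d) := by
    intro p hp
    have := h p hp 0 ∅ ∅ disjoint_bot_left (by simp) (by simp)
    simp only [card_empty, pow_zero, mul_one] at this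
    exact this.trans (measureReal_mono Set.inter_subset_right)
  have h₁' : (p₁ : ℝ) < p₂ := h₁
  have hp1 : 0 < (p₁ : ℝ) := lt_of_lt_of_le (by positivity) h₀
  have hθ' : ∀ p : unitInterval, 17 / (20 * d) ≤ (p : ℝ) → 0 < perc d p (infinite d) := by
    intro p hp
    have := lt_of_lt_of_le (by positivity) (hθ p hp)
    exact pos_iff_ne_zero.2 fun h0 => by simp [measureReal_def, h0] at this
  refine ⟨⟨lt_of_le_of_lt (csInf_le ⟨0, ?_⟩ ?_) (h3.trans_le h₀), hθ' _ (by linarith), hθ' _ (by linarith)⟩, ?_⟩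
  · rintro _ ⟨p, rfl, -⟩
    exact p.2.1
  · exact ⟨⟨_, by positivity, (h3.trans_le h₀).le.trans p₁.2.2⟩, rfl, hθ' _ le_rfl⟩
  obtain ⟨L, hL, hL'⟩ := exists_side d (by omega) hp1 h₁' h₂ (H ^ 2) (by positivity)
  obtain ⟨O, C, z, hOC, hO, hc, hO', hC', hz, ht⟩ := exists_trap B j0 L hL
  have hD : MeasurableSet {c : Set (Vtx d) × Set (Edge d) | ∀ e ∈ C, e ∉ c.2} :=
    measurableSet_setOfPred.2 (Measurable.forall fun e => measurable_const.imp
      ((measurable_set_mem e).comp measurable_snd).not)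
  refine ⟨_, hD, fun a b hab hb e he h' => hb e he (hab h'), ?_⟩
  rw [infLaw_real _ _ hD, infLaw_real _ _ hD]
  have h4 := hL' C.card (hO ▸ hc)
  rw [← hO] at h4
  have h5 : (perc d p₁).real (infinite d ∩ cluster ⁻¹' {c | ∀ e ∈ C, e ∉ c.2}) ≤
      (p₁ : ℝ) ^ O.card * (1 - p₁) ^ C.card := by
    rw [← perc_cyl p₁ O C hOC]
    exact measureReal_mono fun ω hω => ht ω hω.1 hω.2
  have h6 : (p₂ : ℝ) ^ O.card * (1 - p₂) ^ C.card / H ≤
      (perc d p₂).real (infinite d ∩ cluster ⁻¹' {c | ∀ e ∈ C, e ∉ c.2}) :=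
    (h p₂ (by linarith) z O C hOC hO' hC').trans (measureReal_mono fun ω hω =>
      ⟨hω.2.mono fun y hy => (hz ω hω.1).trans hy, fun e he h' => hω.1.2 e he h'.1⟩)
  have h7 := hθ p₁ (by linarith)
  have h8 := hθ p₂ (by linarith)
  have h9 : ((perc d p₁).real (infinite d))⁻¹ ≤ H := by
    rw [inv_le_comm₀ (lt_of_lt_of_le (by positivity) h7) hH, ← one_div]; exact h7
  have h10 : 1 ≤ ((perc d p₂).real (infinite d))⁻¹ :=
    (one_le_inv₀ (lt_of_lt_of_le (by positivity) h8)).2 measureReal_le_one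
  calc _ ≤ H * ((p₁ : ℝ) ^ O.card * (1 - p₁) ^ C.card) := mul_le_mul h9 h5 measureReal_nonneg hH.le
    _ < (p₂ : ℝ) ^ O.card * (1 - p₂) ^ C.card / H := by rw [lt_div_iff₀ hH]; linarith
    _ ≤ _ := h6.trans (le_mul_of_one_le_left measureReal_nonneg h10)

theorem coupling_lt {X Ω : Type*} [MeasurableSpace X] [MeasurableSpace Ω] (P : Measure Ω)
    [IsProbabilityMeasure P] (μ ν : Measure X) (D : Set X) (hD : MeasurableSet D) (h : μ.real D < ν.real D)
    (C₁ C₂ : Ω → X) (h₁ : HasLaw C₁ μ P) (h₂ : HasLaw C₂ ν P) (S : Set Ω)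
    (hS : ∀ ω ∈ S, C₂ ω ∈ D → C₁ ω ∈ D) : P S < 1 := by
  rw [← h₁.map_eq, ← h₂.map_eq, measureReal_def, measureReal_def,
    Measure.map_apply_of_aemeasurable h₁.aemeasurable hD,
    Measure.map_apply_of_aemeasurable h₂.aemeasurable hD,
    ENNReal.toReal_lt_toReal (measure_ne_top _ _) (measure_ne_top _ _)] at h
  have n1 := h₁.aemeasurable.nullMeasurableSet_preimage hD
  have n2 := h₂.aemeasurable.nullMeasurableSet_preimage hD
  by_contra hc
  have h3 : P (C₂ ⁻¹' D \ C₁ ⁻¹' D)ᶜ = 1 :=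
    le_antisymm prob_le_one ((not_lt.1 hc).trans (measure_mono fun ω hω h' => h'.2 (hS ω hω h'.1)))
  rw [prob_compl_eq_one_iff₀ (n2.diff n1)] at h3
  exact absurd (measure_mono_ae (ae_le_set.2 h3)) (not_le.2 h)

end Pool.Agent.H264Z.Pc
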