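import Pool.Agent.H264Z.PcBlock

set_option autoImplicit false
set_option linter.unusedSectionVars false

open Finset BigOperators MeasureTheory ProbabilityTheory

namespace Pool.Agent.H264Z.Pc

lemma second_moment {Ω Γ : Type} [MeasurableSpace Ω] (μ : Measure Ω) [IsProbabilityMeasure μ] [Fintype Γ]
    [Nonempty Γ] (S : Γ → Set Ω) (hS : ∀ γ, MeasurableSet (S γ)) (w : Γ → ℝ) (c H : ℝ) (hH : 0 < H)
    (h1 : ∀ γ, w γ * μ.real (S γ) = c)
    (h2 : 𝔼 γ', 𝔼 γ, w γ * w γ' * μ.real (S γ ∩ S γ') ≤ c * H) : c / H ≤ μ.real (⋃ γ, S γ) := by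
  classical
  have hU : MeasurableSet (⋃ γ, S γ) := MeasurableSet.iUnion hS
  have hi : ∀ (s : Set Ω) (a : ℝ), MeasurableSet s → Integrable (fun ω => a * s.indicator 1 ω) μ :=
    fun s a hs => ((integrable_const (1 : ℝ)).indicator hs).const_mul a
  have hv : ∀ (s : Set Ω) (a : ℝ), MeasurableSet s → ∫ ω, a * s.indicator 1 ω ∂μ = a * μ.real s :=
    fun s a hs => by rw [integral_const_mul, integral_indicator_one hs]
  have hE : ∀ (g : Γ → Ω → ℝ), (∀ γ, Integrable (g γ) μ) →
      Integrable (fun ω => 𝔼 γ, g γ ω) μ ∧ ∫ ω, 𝔼 γ, g γ ω ∂μ = 𝔼 γ, ∫ ω, g γ ω ∂μ := by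
    intro g hg
    simp only [Fintype.expect_eq_sum_div_card]
    exact ⟨(integrable_finsetSum _ fun γ _ => hg γ).div_const _, by
      rw [integral_div, integral_finsetSum _ fun γ _ => hg γ]⟩
  set Z : Ω → ℝ := fun ω => 𝔼 γ, w γ * (S γ).indicator 1 ω with hZ
  have hZ1 := hE (fun γ ω => w γ * (S γ).indicator 1 ω) fun γ => hi _ _ (hS γ)
  have hZ2 : ∀ ω, Z ω ^ 2 = 𝔼 γ', 𝔼 γ, w γ * w γ' * (S γ ∩ S γ').indicator 1 ω := by
    intro ω
    rw [sq, hZ]
    simp only [mul_expect, expect_mul]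
    refine expect_congr rfl fun γ' _ => expect_congr rfl fun γ _ => ?_
    rw [Set.inter_indicator_one, Pi.mul_apply]
    ring
  have hZ3 := fun γ' => hE (fun γ ω => w γ * w γ' * (S γ ∩ S γ').indicator 1 ω)
    fun γ => hi _ _ ((hS γ).inter (hS γ'))
  have hZ4 := hE (fun γ' ω => 𝔼 γ, w γ * w γ' * (S γ ∩ S γ').indicator 1 ω) fun γ' => (hZ3 γ').1
  have hI1 : ∫ ω, Z ω ∂μ = c := by
    rw [hZ1.2]
    simp only [hv _ _ (hS _), h1, Fintype.expect_const]
  have hI2 : ∫ ω, Z ω ^ 2 ∂μ ≤ c * H := by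
    simp only [hZ2]
    rw [hZ4.2]
    simp only [(hZ3 _).2, hv _ _ ((hS _).inter (hS _))]
    exact h2
  have hI3 : Integrable (fun ω => Z ω ^ 2) μ := by simp only [hZ2]; exact hZ4.1
  have hp : ∀ ω, 2 / H * Z ω - 1 / H ^ 2 * Z ω ^ 2 ≤ 1 * (⋃ γ, S γ).indicator 1 ω := by
    intro ω
    by_cases hω : ω ∈ ⋃ γ, S γ
    · rw [Set.indicator_of_mem hω]
      have := sq_nonneg (1 - Z ω / H)
      have h3 : (1 - Z ω / H) ^ 2 = 1 - (2 / H * Z ω - 1 / H ^ 2 * Z ω ^ 2) := by ring
      simp only [Pi.one_apply]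
      linarith
    · have h3 : Z ω = 0 := expect_eq_zero fun γ _ => by
        rw [Set.indicator_of_notMem fun h => hω (Set.mem_iUnion.2 ⟨γ, h⟩), mul_zero]
      rw [Set.indicator_of_notMem hω, h3]
      simp
  have h3 := integral_mono ((hZ1.1.const_mul _).sub (hI3.const_mul _)) (hi _ 1 hU) hp
  rw [hv _ _ hU, one_mul] at h3
  refine le_trans ?_ h3
  change _ ≤ ∫ ω, (2 / H * Z ω - 1 / H ^ 2 * Z ω ^ 2) ∂μ
  rw [integral_sub (hZ1.1.const_mul _) (hI3.const_mul _), integral_const_mul, integral_const_mul, hI1]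
  have h4 := mul_le_mul_of_nonneg_left hI2 (show 0 ≤ 1 / H ^ 2 by positivity)
  have h5 : c / H = 2 / H * c - 1 / H ^ 2 * (c * H) := by field_simp; ring
  linarith

variable {d : ℕ}

/-- All edges of `O` are open and all edges of `C` are closed. -/
def cyl (O C : Finset (Edge d)) : Set (Set (Edge d)) := {ω | (∀ e ∈ O, e ∈ ω) ∧ ∀ e ∈ C, e ∉ ω}

lemma meas_cyl (O C : Finset (Edge d)) : MeasurableSet (cyl O C) :=
  measurableSet_setOfPred.2 ((Measurable.forall fun e => measurable_const.imp (measurable_set_mem e)).and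
    (Measurable.forall fun e => measurable_const.imp (measurable_set_mem e).not))

instance (p : unitInterval) : IsProbabilityMeasure (perc d p) := by
  unfold perc; infer_instance

lemma perc_cyl (p : unitInterval) (O C : Finset (Edge d)) (h : Disjoint O C) :
    (perc d p).real (cyl O C) = (p : ℝ) ^ O.card * (1 - p) ^ C.card := by
  classical
  have h1 : (fun P : Edge d → Prop => {i | P i}) ⁻¹' cyl O C =
      Set.pi (↑(O ∪ C)) fun i => if i ∈ O then {True} else {False} := by
    ext P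
    simp only [cyl, Set.mem_preimage, Set.mem_ofPred_eq, Set.mem_pi, coe_union, Set.mem_union, mem_coe]
    constructor
    · rintro ⟨h1, h2⟩ i hi
      split_ifs with hO
      · simpa using h1 i hO
      · simpa using h2 i (hi.resolve_left hO)
    · intro h1
      refine ⟨fun e he => ?_, fun e he => ?_⟩
      · simpa [he] using h1 e (Or.inl he)
      · simpa [disjoint_right.1 h he] using h1 e (Or.inr he)
  rw [measureReal_def, perc, setBernoulli_apply', h1, Measure.infinitePi_pi _ fun _ _ => .of_discrete,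
    prod_union h, prod_congr rfl (g := fun _ => (unitInterval.toNNReal p : ENNReal)),
    prod_congr (s₁ := C) rfl (g := fun _ => (unitInterval.toNNReal (unitInterval.symm p) : ENNReal))]
  · simp
  · intro e he
    simp [disjoint_right.1 h he]
  · intro e he
    simp [he]

lemma adj_iff (ω : Set (Edge d)) (a b : Vtx d) : (openGraph ω).Adj a b ↔
    (∃ i, b = a + Pi.single i 1 ∧ (a, i) ∈ ω) ∨ ∃ i, a = b + Pi.single i 1 ∧ (b, i) ∈ ω := by
  rw [openGraph, SimpleGraph.fromRel_adj]
  refine ⟨fun h => h.2, fun h => ⟨?_, h⟩⟩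
  rintro rfl
  rcases h with ⟨i, h, -⟩ | ⟨i, h, -⟩ <;> exact single_ne i (left_eq_add.1 h)

lemma adj_of_mem {ω : Set (Edge d)} {a : Vtx d} {i : Fin d} (h : (a, i) ∈ ω) :
    (openGraph ω).Adj a (a + Pi.single i 1) := (adj_iff ω _ _).2 (Or.inl ⟨i, rfl, h⟩)

lemma meas_adj (a b : Vtx d) : Measurable fun ω : Set (Edge d) => (openGraph ω).Adj a b := by
  simp only [adj_iff]
  exact (Measurable.exists fun i => measurable_const.and (measurable_set_mem _)).or
    (Measurable.exists fun i => measurable_const.and (measurable_set_mem _))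

/-- Joined by an open path with `k` steps. -/
def rch (ω : Set (Edge d)) (x : Vtx d) : ℕ → Vtx d → Prop
  | 0, y => y = x
  | k + 1, y => ∃ z, rch ω x k z ∧ (openGraph ω).Adj z y

lemma meas_reach (x y : Vtx d) : Measurable fun ω : Set (Edge d) => (openGraph ω).Reachable x y := by
  have h1 : ∀ k y, Measurable fun ω : Set (Edge d) => rch ω x k y := by
    intro k
    induction k with
    | zero => intro y; exact measurable_const
    | succ k ih => intro y; exact Measurable.exists fun z => (ih z).and (meas_adj z y)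
  have h2 : ∀ ω : Set (Edge d), (openGraph ω).Reachable x y ↔ ∃ k, rch ω x k y := by
    intro ω
    constructor
    · intro h
      rw [SimpleGraph.reachable_iff_reflTransGen] at h
      induction h with
      | refl => exact ⟨0, rfl⟩
      | tail _ hb ih => obtain ⟨k, hk⟩ := ih; exact ⟨k + 1, _, hk, hb⟩
    · rintro ⟨k, hk⟩
      induction k generalizing y with
      | zero => rw [hk]
      | succ k ih => obtain ⟨z, hz, ha⟩ := hk; exact (ih z hz).trans ha.reachable
  simp only [h2]
  exact Measurable.exists fun k => h1 k y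

lemma meas_cluster : Measurable (cluster (d := d)) :=
  (measurable_set_iff.2 fun x => meas_reach 0 x).prodMk (measurable_set_iff.2 fun e =>
    (measurable_set_mem e).and ((meas_reach 0 _).and (meas_reach 0 _)))

lemma meas_infinite : MeasurableSet (infinite d) := by
  have h : ∀ ω : Set (Edge d), (verts ω).Infinite ↔
      ∀ F : Finset (Vtx d), ∃ x, (openGraph ω).Reachable 0 x ∧ x ∉ F := by
    intro ω
    refine ⟨fun h F => h.exists_notMem_finset F, fun h hf => ?_⟩
    obtain ⟨x, hx, hx'⟩ := h hf.toFinset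
    exact hx' (hf.mem_toFinset.2 hx)
  refine measurableSet_setOfPred.2 ?_
  simp only [h]
  exact Measurable.forall fun F => Measurable.exists fun x => (meas_reach 0 x).and measurable_const

variable {n : ℕ} {A B : Finset (Fin d)}

lemma reach_wZ {ω : Set (Edge d)} (k : ℕ) : ∀ (x : Vtx d) (f : Fin k → Stp A), (∀ e ∈ wE k x f, e ∈ ω) →
    (openGraph ω).Reachable x (wZ k x f) := by
  induction k with
  | zero => intro x f _; rfl
  | succ k ih =>
    intro x f h
    refine SimpleGraph.Reachable.trans ?_ (ih _ _ fun e he => h e (mem_insert_of_mem he))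
    have h1 := h _ (mem_insert_self _ _)
    unfold edg at h1
    unfold mvv
    split_ifs at h1 ⊢
    · exact (adj_of_mem h1).reachable
    · simpa using (adj_of_mem h1).reachable.symm

lemma reach_pZ {ω : Set (Edge d)} (T : ℕ) : ∀ (x : Vtx d) (γ : Fin T → Blk A B n), (∀ e ∈ pE T x γ, e ∈ ω) →
    (openGraph ω).Reachable x (pZ T x γ) := by
  induction T with
  | zero => intro x γ _; rfl
  | succ T ih =>
    intro x γ h
    refine SimpleGraph.Reachable.trans ?_ (ih _ _ fun e he => h e (mem_union_right _ he))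
    exact (reach_wZ n x (γ 0).1 fun e he => h e (mem_union_left _ (mem_insert_of_mem he))).trans
      (adj_of_mem (h _ (mem_union_left _ (mem_insert_self _ _)))).reachable

lemma lower (hAB : Disjoint A B) [Nonempty A] [Nonempty B] (p : unitInterval) (hp : 0 < (p : ℝ)) (H : ℝ)
    (hH : 0 < H) (z : Vtx d)
    (h : ∀ T, 𝔼 γ' : Fin T → Blk A B n, 𝔼 γ : Fin T → Blk A B n,
      (1 / p : ℝ) ^ (pE T z γ ∩ pE T z γ').card ≤ H)
    (O C : Finset (Edge d)) (hOC : Disjoint O C) (hO : ∀ e ∈ O, lev B e.1 < lev B z)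
    (hC : ∀ e ∈ C, lev B e.1 < lev B z) :
    (p : ℝ) ^ O.card * (1 - p) ^ C.card / H ≤
      (perc d p).real (cyl O C ∩ {ω | {y | (openGraph ω).Reachable z y}.Infinite}) := by
  have hd : ∀ T (γ : Fin T → Blk A B n) (F : Finset (Edge d)), (∀ e ∈ F, lev B e.1 < lev B z) →
      Disjoint F (pE T z γ) := fun T γ F hF =>
    disjoint_left.2 fun e he he' => absurd (hF e he) (not_lt.2 (lev_pE hAB T z γ e he'))
  set S : ℕ → Set (Set (Edge d)) := fun T =>
    cyl O C ∩ {ω | ∃ y, (openGraph ω).Reachable z y ∧ lev B z + T ≤ lev B y} with hS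
  have h1 : ∀ T, (p : ℝ) ^ O.card * (1 - p) ^ C.card / H ≤ (perc d p).real (S T) := by
    intro T
    refine le_trans (second_moment (perc d p) (fun γ : Fin T → Blk A B n => cyl (O ∪ pE T z γ) C)
      (fun γ => meas_cyl _ _) (fun γ => (1 / p : ℝ) ^ (pE T z γ).card) _ H hH (fun γ => ?_) ?_)
      (measureReal_mono ?_)
    · rw [perc_cyl p _ _ (disjoint_union_left.2 ⟨hOC, (hd T γ C hC).symm⟩),
        card_union_of_disjoint (hd T γ O hO), pow_add, one_div, inv_pow]
      field_simp
    · have hc : 0 ≤ (p : ℝ) ^ O.card * (1 - p) ^ C.card :=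
        mul_nonneg (by positivity) (pow_nonneg (sub_nonneg.2 p.2.2) _)
      refine le_trans (le_of_eq ?_) (mul_le_mul_of_nonneg_left (h T) hc)
      simp only [mul_expect]
      refine expect_congr rfl fun γ' _ => expect_congr rfl fun γ _ => ?_
      have h2 : cyl (O ∪ pE T z γ) C ∩ cyl (O ∪ pE T z γ') C = cyl (O ∪ (pE T z γ ∪ pE T z γ')) C := by
        ext ω
        simp only [cyl, Set.mem_inter_iff, Set.mem_ofPred_eq, mem_union, or_imp, forall_and]
        tauto
      rw [h2, perc_cyl p _ _ (disjoint_union_left.2 ⟨hOC, disjoint_union_left.2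
        ⟨(hd T γ C hC).symm, (hd T γ' C hC).symm⟩⟩),
        card_union_of_disjoint (disjoint_union_right.2 ⟨hd T γ O hO, hd T γ' O hO⟩), ← pow_add,
        ← card_union_add_card_inter, pow_add, pow_add, one_div, inv_pow]
      field_simp
    · intro ω hω
      obtain ⟨γ, hγ⟩ := Set.mem_iUnion.1 hω
      exact ⟨⟨fun e he => hγ.1 e (mem_union_left _ he), hγ.2⟩, pZ T z γ,
        reach_pZ T z γ fun e he => hγ.1 e (mem_union_right _ he), (lev_pZ hAB T z γ).ge⟩
  have h2 : Antitone S := by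
    intro T T' hT ω hω
    obtain ⟨h3, y, h4, h5⟩ := hω
    exact ⟨h3, y, h4, by omega⟩
  have h3 : ∀ T, MeasurableSet (S T) := fun T => (meas_cyl O C).inter
    (measurableSet_setOfPred.2 (Measurable.exists fun y => (meas_reach z y).and measurable_const))
  have h4 := h2.measure_iInter (μ := perc d p) (fun T => (h3 T).nullMeasurableSet) ⟨0, measure_ne_top _ _⟩
  have h5 : (p : ℝ) ^ O.card * (1 - p) ^ C.card / H ≤ (perc d p).real (⋂ T, S T) := by
    rw [measureReal_def, h4, ← ENNReal.ofReal_le_iff_le_toReal (h4 ▸ measure_ne_top _ _)]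
    exact le_iInf fun T => (ENNReal.ofReal_le_iff_le_toReal (measure_ne_top _ _)).2 (h1 T)
  refine h5.trans (measureReal_mono fun ω hω => ?_)
  rw [Set.mem_iInter] at hω
  refine ⟨(hω 0).1, fun hf => ?_⟩
  obtain ⟨m, hm⟩ := (hf.image (lev B)).bddAbove
  obtain ⟨y, hy, hy'⟩ := (hω (m - lev B z + 1).toNat).2
  have := hm ⟨y, hy, rfl⟩
  omega

end Pool.Agent.H264Z.Pc
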