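import Pool.Agent.H264Z.PcMeas

set_option autoImplicit false
set_option linter.unusedSectionVars false

open Finset BigOperators Filter Topology

namespace Pool.Agent.H264Z.Pc

lemma dm {L r : ℕ} (q : ℕ) (hr : r < L) : (L * q + r) / L = q ∧ (L * q + r) % L = r :=
  ⟨by rw [Nat.mul_add_div (by omega), Nat.div_eq_of_lt hr, add_zero],
    by rw [Nat.mul_add_mod, Nat.mod_eq_of_lt hr]⟩

lemma cons_add_zero {d : ℕ} (a : ℤ) (x : Vtx d) :
    (Fin.cons (a + 1) x : Vtx (d + 1)) = Fin.cons a x + Pi.single 0 1 := by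
  funext i
  refine Fin.cases ?_ (fun i => ?_) i <;> simp

lemma cons_add_succ {d : ℕ} (a : ℤ) (x : Vtx d) (j : Fin d) :
    (Fin.cons a (x + Pi.single j 1) : Vtx (d + 1)) = Fin.cons a x + Pi.single j.succ 1 := by
  funext i
  refine Fin.cases ?_ (fun i => ?_) i
  · simp
  · simp [Pi.single_apply]

/-- A Hamiltonian path of the box of odd side `L`, from the origin to the opposite corner. -/
lemma snake (L : ℕ) (hL : Odd L) (d : ℕ) : ∃ γ : ℕ → Vtx d, γ 0 = 0 ∧ (∀ i, γ (L ^ d - 1) i = L - 1) ∧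
    Set.InjOn γ (Set.Iio (L ^ d)) ∧ (∀ k i, 0 ≤ γ k i ∧ γ k i < L) ∧
    ∀ k, k + 1 < L ^ d → ∃ i, γ (k + 1) = γ k + Pi.single i 1 ∨ γ k = γ (k + 1) + Pi.single i 1 := by
  have hL0 : 0 < L := hL.pos
  induction d with
  | zero =>
    exact ⟨fun _ => 0, rfl, fun i => i.elim0, fun a ha b hb _ => by simp at ha hb; omega,
      fun _ i => i.elim0, fun k hk => by simp at hk⟩
  | succ d ih =>
    obtain ⟨γ, h0, h1, h2, h3, h4⟩ := ih
    have hp : 0 < L ^ d := by positivity
    refine ⟨fun k => Fin.cons (if (k / L) % 2 = 0 then ((k % L : ℕ) : ℤ) else L - 1 - (k % L : ℕ)) (γ (k / L)),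
      ?_, ?_, ?_, ?_, ?_⟩
    · funext i
      refine Fin.cases ?_ (fun i => ?_) i <;> simp [h0]
    · have h5 : L ^ (d + 1) - 1 = L * (L ^ d - 1) + (L - 1) := by
        rw [pow_succ', Nat.mul_sub_one]
        have : L ≤ L * L ^ d := Nat.le_mul_of_pos_right L hp
        omega
      obtain ⟨h6, h7⟩ := dm (L ^ d - 1) (show L - 1 < L by omega)
      have h8 : (L ^ d - 1) % 2 = 0 := by
        have := Nat.odd_iff.1 (hL.pow (n := d))
        omega
      intro i
      simp only [h5, h6, h7, h8, if_true]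
      refine Fin.cases ?_ (fun i => ?_) i
      · simp only [Fin.cons_zero]; omega
      · simp only [Fin.cons_succ, h1]
    · intro a ha b hb hab
      have hd : ∀ a, a < L ^ (d + 1) → a / L < L ^ d := fun a ha =>
        Nat.div_lt_of_lt_mul (by rwa [pow_succ'] at ha)
      obtain ⟨h5, h6⟩ := Fin.cons_injective2 hab
      have h7 : a / L = b / L := h2 (hd a ha) (hd b hb) h6
      rw [h7] at h5
      have h8 : a % L = b % L := by split_ifs at h5 <;> omega
      rw [← Nat.div_add_mod a L, ← Nat.div_add_mod b L, h7, h8]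
    · intro k i
      refine Fin.cases ?_ (fun i => ?_) i
      · have := Nat.mod_lt k hL0
        simp only [Fin.cons_zero]
        split_ifs <;> omega
      · simpa using h3 _ i
    · intro k hk
      have h5 := Nat.mod_lt k hL0
      have h6 := Nat.div_add_mod k L
      by_cases h : k % L + 1 < L
      · obtain ⟨h7, h8⟩ := dm (k / L) h
        rw [← add_assoc, h6] at h7 h8
        refine ⟨0, ?_⟩
        simp only [h7, h8]
        split_ifs
        · left; rw [← cons_add_zero]; push_cast; rfl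
        · right; rw [← cons_add_zero]; congr 1; push_cast; ring
      · obtain ⟨h7, h8⟩ := dm (k / L + 1) hL0
        have h9 : L * (k / L + 1) + 0 = k + 1 := by rw [mul_add]; omega
        rw [h9] at h7 h8
        have h10 : k / L + 1 < L ^ d := by
          rw [← h7]
          exact Nat.div_lt_of_lt_mul (by rwa [pow_succ'] at hk)
        obtain ⟨i, hi⟩ := h4 _ h10
        have h11 : (if (k / L + 1) % 2 = 0 then ((0 : ℕ) : ℤ) else L - 1 - (0 : ℕ)) =
            if (k / L) % 2 = 0 then ((k % L : ℕ) : ℤ) else L - 1 - (k % L : ℕ) := by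
          split_ifs <;> omega
        refine ⟨i.succ, ?_⟩
        simp only [h7, h8, h11]
        rcases hi with hi | hi
        · left; rw [← cons_add_succ, ← hi]
        · right; rw [← cons_add_succ, ← hi]

variable {d : ℕ}

/-- The edge `e` joins `a` and `b`. -/
def Joins (e : Edge d) (a b : Vtx d) : Prop :=
  (e.1 = a ∧ e.1 + Pi.single e.2 1 = b) ∨ (e.1 = b ∧ e.1 + Pi.single e.2 1 = a)

lemma Joins.adj {e : Edge d} {a b : Vtx d} (h : Joins e a b) {ω : Set (Edge d)} (he : e ∈ ω) :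
    (openGraph ω).Adj a b := by
  rcases h with ⟨rfl, rfl⟩ | ⟨rfl, rfl⟩
  · exact adj_of_mem he
  · exact (adj_of_mem he).symm

lemma Joins.eq {e : Edge d} {a b a' b' : Vtx d} (h : Joins e a b) (h' : Joins e a' b') :
    (a = a' ∧ b = b') ∨ (a = b' ∧ b = a') := by
  rcases h with ⟨rfl, rfl⟩ | ⟨rfl, rfl⟩ <;> rcases h' with ⟨rfl, rfl⟩ | ⟨rfl, rfl⟩ <;> simp

lemma exists_joins {ω : Set (Edge d)} {a b : Vtx d} (h : (openGraph ω).Adj a b) : ∃ e ∈ ω, Joins e a b := by
  rcases (adj_iff ω a b).1 h with ⟨i, h1, h2⟩ | ⟨i, h1, h2⟩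
  · exact ⟨_, h2, Or.inl ⟨rfl, h1.symm⟩⟩
  · exact ⟨_, h2, Or.inr ⟨rfl, h1.symm⟩⟩

section Trap

variable {m : ℕ} {Γ : ℕ → Vtx d} {ed : ℕ → Edge d} (h0 : Γ 0 = 0) (hi : Set.InjOn Γ (Set.Iic m))
  (he : ∀ k < m, Joins (ed k) (Γ k) (Γ (k + 1)))

include hi he in
lemma trap_card : ((range m).image ed).card = m := by
  rw [card_image_of_injOn, card_range]
  intro a ha b hb hab
  simp only [coe_range, Set.mem_Iio] at ha hb
  rcases (he a ha).eq (hab ▸ he b hb) with h | h
  · exact hi ha.le hb.le h.1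
  · have h1 := hi ha.le (show b + 1 ≤ m by omega) h.1
    have h2 := hi (show a + 1 ≤ m by omega) hb.le h.2
    omega

include h0 he in
lemma trap_reach {ω : Set (Edge d)} (k : ℕ) (hk : k ≤ m) (h : ∀ j < k, ed j ∈ ω) :
    (openGraph ω).Reachable 0 (Γ k) := by
  induction k with
  | zero => rw [h0]
  | succ k ih =>
    exact (ih (by omega) fun j hj => h j (by omega)).trans ((he k (by omega)).adj (h k (by omega))).reachable

lemma mem_cluster {ω : Set (Edge d)} {e : Edge d} {a b : Vtx d} (h : Joins e a b) (he : e ∈ ω)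
    (ha : (openGraph ω).Reachable 0 a) : e ∈ (cluster ω).2 := by
  have hb := ha.trans (h.adj he).reachable
  rcases h with ⟨rfl, rfl⟩ | ⟨rfl, rfl⟩
  · exact ⟨he, ha, hb⟩
  · exact ⟨he, hb, ha⟩

include h0 hi he in
lemma trap {C : Finset (Edge d)}
    (hC : ∀ e, e ∈ C ↔ e ∉ (range m).image ed ∧ ∃ k < m, ∃ b, Joins e (Γ k) b)
    {ω : Set (Edge d)} (hω : ω ∈ infinite d) (hD : ∀ e ∈ C, e ∉ (cluster ω).2) :
    ω ∈ cyl ((range m).image ed) C := by
  have h1 : ∀ k < m, ed k ∈ ω := by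
    intro k hk
    by_contra hc
    refine hω (((Set.finite_Iic k).image Γ).subset fun x hx => ?_)
    have hx' : (openGraph ω).Reachable 0 x := hx
    rw [SimpleGraph.reachable_iff_reflTransGen] at hx'
    induction hx' with
    | refl => exact ⟨0, Nat.zero_le k, h0⟩
    | tail hb ha ih =>
      have hb' := (SimpleGraph.reachable_iff_reflTransGen _ _).2 hb
      obtain ⟨i, hik, rfl⟩ := ih hb'
      have hik' : i ≤ k := hik
      obtain ⟨e, he1, he2⟩ := exists_joins ha
      have h2 : e ∈ (range m).image ed := by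
        by_contra h2
        exact hD e ((hC e).2 ⟨h2, i, by omega, _, he2⟩) (mem_cluster he2 he1 hb')
      obtain ⟨j, hj, rfl⟩ := mem_image.1 h2
      rw [mem_range] at hj
      rcases he2.eq (he j hj) with h3 | h3
      · have h4 := hi (show i ≤ m by omega) hj.le h3.1
        subst h4
        have h5 : i ≠ k := fun h => hc (h ▸ he1)
        exact ⟨i + 1, show i + 1 ≤ k by omega, h3.2.symm⟩
      · have h4 := hi (show i ≤ m by omega) (show j + 1 ≤ m by omega) h3.1
        exact ⟨j, show j ≤ k by omega, h3.2.symm⟩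
  refine ⟨fun e h => ?_, fun e h h' => ?_⟩
  · obtain ⟨j, hj, rfl⟩ := mem_image.1 h
    exact h1 j (mem_range.1 hj)
  · obtain ⟨-, k, hk, b, hb⟩ := (hC e).1 h
    exact hD e h (mem_cluster hb h' (trap_reach h0 he k hk.le fun j hj => h1 j (by omega)))

end Trap

/-- The trap: a long path that fills a box. -/
lemma exists_trap (B : Finset (Fin d)) (j0 : B) (L : ℕ) (hL : Odd L) :
    ∃ (O C : Finset (Edge d)) (z : Vtx d), Disjoint O C ∧ O.card = L ^ d ∧ O.card + C.card ≤ d * (L + 1) ^ d ∧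
      (∀ e ∈ O, lev B e.1 < lev B z) ∧ (∀ e ∈ C, lev B e.1 < lev B z) ∧
      (∀ ω ∈ cyl O C, (openGraph ω).Reachable 0 z) ∧
      ∀ ω ∈ infinite d, (∀ e ∈ C, e ∉ (cluster ω).2) → ω ∈ cyl O C := by
  classical
  obtain ⟨γ, h0, h1, h2, h3, h4⟩ := snake L hL d
  have hL0 : 0 < L := hL.pos
  have hp : 0 < L ^ d := by positivity
  set m := L ^ d with hm
  set z : Vtx d := γ (m - 1) + Pi.single j0.1 1 with hz
  set Γ : ℕ → Vtx d := fun k => if k < m then γ k else z with hΓ
  have hΓ0 : Γ 0 = 0 := by simp [hΓ, hp, h0]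
  have hzj : ∀ k, γ k ≠ z := by
    intro k h
    have h5 := (h3 k j0.1).2
    rw [h, hz] at h5
    simp [h1] at h5
  have hi : Set.InjOn Γ (Set.Iic m) := by
    intro a ha b hb hab
    simp only [hΓ, Set.mem_Iic] at ha hb hab
    split_ifs at hab with h5 h6 h6
    · exact h2 h5 h6 hab
    · exact absurd hab (hzj _)
    · exact absurd hab.symm (hzj _)
    · omega
  have he : ∀ k, ∃ e : Edge d, k < m → Joins e (Γ k) (Γ (k + 1)) := by
    intro k
    by_cases hk : k + 1 < m
    · obtain ⟨i, h5⟩ := h4 k hk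
      simp only [hΓ, hk, show k < m by omega, if_true, forall_const]
      rcases h5 with h5 | h5
      · exact ⟨(γ k, i), Or.inl ⟨rfl, h5.symm⟩⟩
      · exact ⟨(γ (k + 1), i), Or.inr ⟨rfl, h5.symm⟩⟩
    · refine ⟨(γ k, j0.1), fun hk' => Or.inl ?_⟩
      have h5 : m - 1 = k := by omega
      simp [hΓ, hk, hk', hz, h5]
  choose ed he using he
  set T : Finset (Edge d) := (Fintype.piFinset fun _ : Fin d => Finset.Ico (-1 : ℤ) L) ×ˢ univ with hT
  have hT1 : ∀ e : Edge d, (∃ k < m, ∃ b, Joins e (Γ k) b) → e ∈ T := by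
    rintro e ⟨k, hk, b, hb⟩
    simp only [hT, mem_product, mem_univ, and_true, Fintype.mem_piFinset, mem_Ico]
    intro i
    have h5 := h3 k i
    simp only [hΓ, hk, if_true] at hb
    rcases hb with ⟨h6, -⟩ | ⟨-, h6⟩
    · rw [h6]; omega
    · have h7 := congrFun h6 i
      simp only [Pi.add_apply, Pi.single_apply] at h7
      split_ifs at h7 <;> omega
  have hT2 : T.card = d * (L + 1) ^ d := by
    rw [hT, card_product, Fintype.card_piFinset]
    simp [mul_comm]
  have hT3 : ∀ e ∈ T, lev B e.1 < lev B z := by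
    intro e h
    simp only [hT, mem_product, mem_univ, and_true, Fintype.mem_piFinset, mem_Ico] at h
    refine sum_lt_sum (fun j _ => ?_) ⟨j0, mem_univ _, ?_⟩
    · have := (h j.1).2
      simp only [hz, Pi.add_apply, h1, Pi.single_apply]
      split_ifs <;> omega
    · have := (h j0.1).2
      simp only [hz, Pi.add_apply, h1, Pi.single_eq_same]
      omega
  set O := (range m).image ed with hO
  set C := T.filter fun e => e ∉ O ∧ ∃ k < m, ∃ b, Joins e (Γ k) b with hC
  have hOT : O ⊆ T := by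
    intro e h
    obtain ⟨j, hj, rfl⟩ := mem_image.1 h
    exact hT1 _ ⟨j, mem_range.1 hj, _, he j (mem_range.1 hj)⟩
  have hCT : C ⊆ T := filter_subset _ _
  have hOC : Disjoint O C := disjoint_left.2 fun e h h' => (mem_filter.1 h').2.1 h
  refine ⟨O, C, z, hOC, trap_card hi he, ?_, fun e h => hT3 e (hOT h), fun e h => hT3 e (hCT h),
    fun ω hω => ?_, fun ω hω hD => trap hΓ0 hi he (fun e => ?_) hω hD⟩
  · rw [← card_union_of_disjoint hOC, ← hT2]
    exact card_le_card (union_subset hOT hCT)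
  · have := trap_reach hΓ0 he (ω := ω) m le_rfl fun j hj => hω.1 _ (mem_image_of_mem _ (mem_range.2 hj))
    simpa [hΓ] using this
  · rw [hC, mem_filter]
    exact ⟨fun h => h.2, fun h => ⟨hT1 e h.2, h⟩⟩

lemma exists_side (d : ℕ) (hd : 2 ≤ d) {p₁ p₂ : ℝ} (h0 : 0 < p₁) (h1 : p₁ < p₂) (h2 : p₂ ≤ 1 / d) (K : ℝ)
    (hK : 0 < K) : ∃ L : ℕ, Odd L ∧ ∀ c : ℕ, L ^ d + c ≤ d * (L + 1) ^ d →
      K * (p₁ ^ L ^ d * (1 - p₁) ^ c) < p₂ ^ L ^ d * (1 - p₂) ^ c := by
  have hd' : (2 : ℝ) ≤ d := by exact_mod_cast hd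
  have h3 : p₂ * d ≤ 1 := (le_div_iff₀ (by linarith)).1 h2
  have h4 : p₂ < 1 := by nlinarith
  have h5 : 0 < 1 - p₂ := by linarith
  have h6 : 0 < 1 - p₁ := by linarith
  set R := (1 - p₁) / (1 - p₂) with hR
  have hR1 : 1 < R := (one_lt_div h5).2 (by linarith)
  have hlR : 0 < Real.log R := Real.log_pos hR1
  have hs : (d * 1 ^ d - 1) * Real.log R < Real.log (p₂ / p₁) := by
    obtain ⟨e, rfl⟩ : ∃ e, d = e + 1 := ⟨d - 1, by omega⟩
    have h7 := one_add_mul_le_pow (a := -((p₂ - p₁) / (1 - p₁))) (by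
      have : (p₂ - p₁) / (1 - p₁) ≤ 1 := (div_le_one h6).2 (by linarith)
      linarith) e
    have h8 : 1 + -((p₂ - p₁) / (1 - p₁)) = R⁻¹ := by rw [hR]; field_simp; ring
    have h9 : p₁ / p₂ < 1 + e * -((p₂ - p₁) / (1 - p₁)) := by
      have h10 : 1 + e * -((p₂ - p₁) / (1 - p₁)) - p₁ / p₂ =
          (p₂ - p₁) * (1 - p₁ - e * p₂) / (p₂ * (1 - p₁)) := by
        have : p₂ ≠ 0 := by linarith
        field_simp; ring
      have h11 : 0 < (p₂ - p₁) * (1 - p₁ - e * p₂) / (p₂ * (1 - p₁)) := by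
        push_cast at h3
        exact div_pos (mul_pos (by linarith) (by nlinarith)) (mul_pos (by linarith) h6)
      linarith
    rw [h8] at h7
    have h10 := Real.log_lt_log (div_pos h0 (by linarith)) (h9.trans_le h7)
    rw [Real.log_pow, Real.log_inv, ← inv_div, Real.log_inv] at h10
    push_cast
    rw [one_pow]
    linarith
  have hL : Tendsto (fun r : ℕ => ((2 * r + 1 : ℕ) : ℝ)) atTop atTop :=
    tendsto_natCast_atTop_atTop.comp (tendsto_atTop_mono (fun r => by simp only [id]; omega) tendsto_id)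
  have ht : Tendsto (fun r : ℕ => Real.log K * (((2 * r + 1 : ℕ) : ℝ)⁻¹) ^ d +
      (d * (1 + ((2 * r + 1 : ℕ) : ℝ)⁻¹) ^ d - 1) * Real.log R) atTop
      (𝓝 (Real.log K * 0 ^ d + (d * (1 + 0) ^ d - 1) * Real.log R)) :=
    ((hL.inv_tendsto_atTop.pow d).const_mul _).add
      (((((hL.inv_tendsto_atTop.const_add 1).pow d).const_mul _).sub_const 1).mul_const _)
  rw [zero_pow (by omega), mul_zero, zero_add, add_zero] at ht
  obtain ⟨r, hr⟩ := (ht.eventually (gt_mem_nhds hs)).exists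
  refine ⟨2 * r + 1, odd_two_mul_add_one r, fun c hc => ?_⟩
  set L := 2 * r + 1 with hLd
  have hL0 : (0 : ℝ) < L := by positivity
  have hc' : ((L : ℝ) ^ d + c) ≤ d * (L + 1) ^ d := by exact_mod_cast hc
  have h7 : Real.log K + c * Real.log R < (L : ℝ) ^ d * Real.log (p₂ / p₁) := by
    have h8 := mul_lt_mul_of_pos_left hr (pow_pos hL0 d)
    have h9 : (L : ℝ) ^ d * (Real.log K * ((L : ℝ)⁻¹) ^ d + (d * (1 + (L : ℝ)⁻¹) ^ d - 1) * Real.log R) =
        Real.log K + (d * (L + 1) ^ d - L ^ d) * Real.log R := by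
      have h10 : (1 + (L : ℝ)⁻¹) = (L + 1) / L := by field_simp
      rw [h10, div_pow, inv_pow]
      field_simp
    rw [h9] at h8
    nlinarith
  have h8 : K * R ^ c < (p₂ / p₁) ^ L ^ d := by
    refine (Real.log_lt_log_iff (by positivity) (pow_pos (div_pos (by linarith) h0) _)).1 ?_
    rw [Real.log_mul hK.ne' (by positivity), Real.log_pow, Real.log_pow]
    push_cast
    exact h7
  rw [hR, div_pow, div_pow, ← mul_div_assoc, div_lt_div_iff₀ (by positivity) (by positivity)] at h8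
  linarith

end Pool.Agent.H264Z.Pc
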