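import Pool.Agent.H264Z.PcDefs

set_option autoImplicit false
set_option linter.unusedSectionVars false

open Finset BigOperators

namespace Pool.Agent.H264Z.Pc

lemma expect_succ {S : Type} [Fintype S] (n : ℕ) (g : (Fin (n + 1) → S) → ℝ) :
    𝔼 f, g f = 𝔼 s : S, 𝔼 f : Fin n → S, g (Fin.cons s f) := by
  rw [← Finset.expect_product' univ univ (fun (s : S) (f : Fin n → S) => g (Fin.cons s f))]
  exact (Fintype.expect_equiv (Fin.consEquiv fun _ => S) _ _ fun _ => rfl).symm

lemma expect_ite_le {S : Type} [Fintype S] (P : S → Prop) [DecidablePred P] (c : ℝ) :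
    𝔼 s, (if P s then c else 0) = c * (univ.filter P).card / Fintype.card S := by
  rw [Fintype.expect_eq_sum_div_card, ← sum_filter, sum_const, nsmul_eq_mul, mul_comm]

variable {d : ℕ} {A : Finset (Fin d)}

/-- Steps in the directions of `A`. -/
abbrev Stp (A : Finset (Fin d)) := A × Bool

def mvv (x : Vtx d) (s : Stp A) : Vtx d :=
  if s.2 then x + Pi.single s.1.1 1 else x - Pi.single s.1.1 1

def edg (x : Vtx d) (s : Stp A) : Edge d :=
  if s.2 then (x, s.1.1) else (x - Pi.single s.1.1 1, s.1.1)

lemma single_ne (i : Fin d) : (Pi.single i 1 : Vtx d) ≠ 0 := by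
  intro h
  have := congrFun h i
  simp at this

lemma edg_inj (x : Vtx d) : Function.Injective (edg (A := A) x) := by
  rintro ⟨i, b⟩ ⟨j, c⟩ h
  cases b <;> cases c <;> simp only [edg, if_true, Bool.false_eq_true, if_false, Prod.mk.injEq] at h
  · rw [Subtype.ext h.2]
  · exact absurd (sub_eq_self.1 h.1) (single_ne _)
  · exact absurd (sub_eq_self.1 h.1.symm) (single_ne _)
  · rw [Subtype.ext h.2]

lemma mvv_inj (x : Vtx d) : Function.Injective (mvv (A := A) x) := by
  rintro ⟨i, b⟩ ⟨j, c⟩ h
  have h1 := congrFun h i.1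
  by_cases hij : i = j
  · subst hij
    cases b <;> cases c <;> simp [mvv] at h1 ⊢ <;> omega
  · have : i.1 ≠ j.1 := fun hc => hij (Subtype.ext hc)
    cases b <;> cases c <;> simp [mvv, Pi.single_eq_of_ne this] at h1

lemma edg_rev (x : Vtx d) (s : Stp A) : edg (mvv x s) (s.1, !s.2) = edg x s := by
  obtain ⟨i, b⟩ := s
  cases b <;> simp [edg, mvv]

lemma edg_eq {u x : Vtx d} {s t : Stp A} (h : edg u t = edg x s) : u = x ∨ u = mvv x s := by
  obtain ⟨i, b⟩ := s
  obtain ⟨j, c⟩ := t
  cases b <;> cases c <;> simp only [edg, mvv, if_true, Bool.false_eq_true, if_false, Prod.mk.injEq] at h ⊢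
  · left; rw [h.2] at h; exact sub_left_inj.1 h.1
  · right; exact h.1
  · right; rw [← h.1, h.2]; simp
  · left; exact h.1

/-- Edges of a walk. -/
def wE : (k : ℕ) → Vtx d → (Fin k → Stp A) → Finset (Edge d)
  | 0, _, _ => ∅
  | k + 1, x, f => insert (edg x (f 0)) (wE k (mvv x (f 0)) (Fin.tail f))

/-- End point of a walk. -/
def wZ : (k : ℕ) → Vtx d → (Fin k → Stp A) → Vtx d
  | 0, x, _ => x
  | k + 1, x, f => wZ k (mvv x (f 0)) (Fin.tail f)

/-- Vertices of a walk. -/
def wU : (k : ℕ) → Vtx d → (Fin k → Stp A) → Finset (Vtx d)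
  | 0, x, _ => {x}
  | k + 1, x, f => insert x (wU k (mvv x (f 0)) (Fin.tail f))

/-- The walk is self-avoiding and avoids `W`. -/
def good : (k : ℕ) → Finset (Vtx d) → Vtx d → (Fin k → Stp A) → Prop
  | 0, _, _, _ => True
  | k + 1, W, x, f => mvv x (f 0) ∉ insert x W ∧ good k (insert x W) (mvv x (f 0)) (Fin.tail f)

lemma card_wE (k : ℕ) : ∀ (x : Vtx d) (f : Fin k → Stp A), (wE k x f).card ≤ k := by
  induction k with
  | zero => intro x f; simp [wE]
  | succ k ih => intro x f; exact (card_insert_le _ _).trans (Nat.succ_le_succ (ih _ _))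

lemma card_wU (k : ℕ) : ∀ (x : Vtx d) (f : Fin k → Stp A), (wU k x f).card ≤ k + 1 := by
  induction k with
  | zero => intro x f; simp [wU]
  | succ k ih => intro x f; exact (card_insert_le _ _).trans (Nat.succ_le_succ (ih _ _))

lemma mem_wU (k : ℕ) (x : Vtx d) (f : Fin k → Stp A) : x ∈ wU k x f := by
  cases k <;> simp [wU]

variable (A) in
/-- Number of steps from `v` along an edge of `F`. -/
def dg (v : Vtx d) (F : Finset (Edge d)) : ℕ := (univ.filter fun s : Stp A => edg v s ∈ F).card

variable (A) in
def cc (v : Vtx d) (F : Finset (Edge d)) (z : Vtx d) : ℕ := dg A v F + if v = z then 1 else 0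

lemma dg_le (v : Vtx d) (F : Finset (Edge d)) : dg A v F ≤ F.card :=
  card_le_card_of_injOn (edg v) (fun s hs => by simpa using hs) (edg_inj v).injOn

lemma dg_mono (v : Vtx d) {F G : Finset (Edge d)} (h : F ⊆ G) : dg A v F ≤ dg A v G :=
  card_le_card fun s hs => by
    simp only [mem_filter, mem_univ, true_and] at hs ⊢
    exact h hs

lemma dg_erase (x : Vtx d) (s : Stp A) (F : Finset (Edge d)) (h : edg x s ∈ F) :
    dg A (mvv x s) (F.erase (edg x s)) + 1 ≤ dg A (mvv x s) F := by
  refine card_lt_card ⟨fun t ht => ?_, fun hc => ?_⟩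
  · simp only [mem_filter, mem_univ, true_and] at ht ⊢
    exact mem_of_mem_erase ht
  · have := @hc (s.1, !s.2) (by simpa [edg_rev] using h)
    simp [edg_rev] at this

lemma dg_insert (u x : Vtx d) (s : Stp A) (F : Finset (Edge d)) :
    dg A u (insert (edg x s) F) ≤ dg A u F + if u = x ∨ u = mvv x s then 1 else 0 := by
  have h1 : (univ.filter fun t : Stp A => edg u t ∈ insert (edg x s) F) ⊆
      (univ.filter fun t : Stp A => edg u t ∈ F) ∪ univ.filter fun t : Stp A => edg u t = edg x s := by
    intro t ht
    simp only [mem_filter, mem_univ, true_and, mem_insert, mem_union] at ht ⊢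
    exact ht.symm
  refine (card_le_card h1).trans ((card_union_le _ _).trans (Nat.add_le_add_left ?_ _))
  split_ifs with h
  · refine card_le_one.2 fun a ha b hb => edg_inj u ?_
    simp only [mem_filter, mem_univ, true_and] at ha hb
    rw [ha, hb]
  · rw [Nat.le_zero, card_eq_zero, filter_eq_empty_iff]
    exact fun t _ ht => h (edg_eq ht)

lemma cc_insert (u x z : Vtx d) (s : Stp A) (F : Finset (Edge d)) :
    cc A u (insert (edg x s) F) z ≤ cc A u F z + if u = x ∨ u = mvv x s then 1 else 0 := by
  have := dg_insert u x s F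
  unfold cc
  omega

lemma cc_zero (k : ℕ) : ∀ (x : Vtx d) (f : Fin k → Stp A) (u : Vtx d), u ∉ wU k x f →
    cc A u (wE k x f) (wZ k x f) = 0 := by
  induction k with
  | zero =>
    intro x f u hu
    simp only [wU, mem_singleton] at hu
    simp [cc, dg, wE, wZ, hu]
  | succ k ih =>
    intro x f u hu
    simp only [wU, mem_insert, not_or] at hu
    have h1 := ih _ _ u hu.2
    have h2 := cc_insert u x (wZ k (mvv x (f 0)) (Fin.tail f)) (f 0) (wE k (mvv x (f 0)) (Fin.tail f))
    have h3 : u ≠ mvv x (f 0) := fun h => hu.2 (h ▸ mem_wU _ _ _)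
    rw [if_neg (by tauto), h1] at h2
    exact Nat.le_zero.1 h2

lemma cc_good (k : ℕ) : ∀ (W : Finset (Vtx d)) (x : Vtx d) (f : Fin k → Stp A), good k W x f → x ∉ W →
    (∀ u ∈ wU k x f, u ∉ W) ∧ (∀ u, cc A u (wE k x f) (wZ k x f) ≤ 2) ∧ cc A x (wE k x f) (wZ k x f) ≤ 1 := by
  induction k with
  | zero =>
    intro W x f _ hx
    refine ⟨by simpa [wU] using hx, fun u => ?_, ?_⟩ <;> simp only [cc, dg, wE, wZ] <;> split_ifs <;> simp
  | succ k ih =>
    intro W x f hg hx
    obtain ⟨h1, h2, h3⟩ := ih _ _ _ hg.2 hg.1
    have h4 := cc_zero k (mvv x (f 0)) (Fin.tail f) x fun h => h1 x h (mem_insert_self _ _)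
    have h5 := fun u => cc_insert u x (wZ k (mvv x (f 0)) (Fin.tail f)) (f 0) (wE k (mvv x (f 0)) (Fin.tail f))
    refine ⟨fun u hu => ?_, fun u => ?_, ?_⟩
    · rcases mem_insert.1 hu with rfl | hu
      · exact hx
      · exact fun h => h1 u hu (mem_insert_of_mem h)
    · have h6 := h5 u
      have h7 := h2 u
      simp only [wE, wZ]
      split_ifs at h6 with h
      · rcases h with rfl | rfl <;> omega
      · omega
    · have h6 := h5 x
      simp only [wE, wZ]
      split_ifs at h6 <;> omega

variable [Nonempty A]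

lemma hit_le (x : Vtx d) (U : Finset (Vtx d)) (c : ℝ) (hc : 0 ≤ c) :
    𝔼 s : Stp A, (if mvv x s ∈ U then c else 0) ≤ c * U.card / Fintype.card (Stp A) := by
  rw [expect_ite_le]
  have : (univ.filter fun s : Stp A => mvv x s ∈ U).card ≤ U.card :=
    card_le_card_of_injOn (mvv x) (fun s hs => by simpa using hs) (mvv_inj x).injOn
  gcongr

open Classical in
lemma bad_le (k : ℕ) : ∀ (W : Finset (Vtx d)) (x : Vtx d),
    𝔼 f : Fin k → Stp A, (if good k W x f then (0 : ℝ) else 1) ≤
      k * (W.card + k) / Fintype.card (Stp A) := by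
  induction k with
  | zero => intro W x; simp [good]
  | succ k ih =>
    intro W x
    rw [expect_succ]
    have hc : ((insert x W).card : ℝ) ≤ W.card + 1 := by exact_mod_cast card_insert_le x W
    have hS : (0 : ℝ) < Fintype.card (Stp A) := by exact_mod_cast Fintype.card_pos
    calc _ ≤ 𝔼 s : Stp A, ((if mvv x s ∈ insert x W then (1 : ℝ) else 0) +
          k * ((insert x W).card + k) / Fintype.card (Stp A)) := by
          refine expect_le_expect fun s _ => ?_
          refine le_trans ?_ (add_le_add_right (ih (insert x W) (mvv x s)) _)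
          rw [← Fintype.expect_const (ι := Fin k → Stp A) (if mvv x s ∈ insert x W then (1 : ℝ) else 0),
            ← expect_add_distrib]
          refine expect_le_expect fun f _ => ?_
          simp only [good, Fin.cons_zero, Fin.tail_cons]
          split_ifs <;> simp_all
      _ ≤ 1 * (insert x W).card / Fintype.card (Stp A) +
          k * ((insert x W).card + k) / Fintype.card (Stp A) := by
          rw [expect_add_distrib, Fintype.expect_const]
          exact add_le_add_left (hit_le x _ 1 zero_le_one) _
      _ ≤ _ := by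
          rw [← add_div]
          push_cast
          refine div_le_div_of_nonneg_right ?_ hS.le
          have : (0 : ℝ) ≤ k := Nat.cast_nonneg k
          nlinarith

variable {q : ℝ}

lemma crude (hq : 1 ≤ q) (hρ : q ≤ Fintype.card (Stp A)) (n : ℕ) (F : Finset (Edge d)) (hF : F.card ≤ n)
    (k : ℕ) : ∀ v : Vtx d, 𝔼 f : Fin k → Stp A, q ^ (wE k v f ∩ F).card ≤ (1 + n : ℝ) ^ k := by
  have hS : (0 : ℝ) < Fintype.card (Stp A) := by exact_mod_cast Fintype.card_pos
  induction k with
  | zero => intro v; simp [wE]
  | succ k ih =>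
    intro v
    rw [expect_succ]
    calc _ ≤ 𝔼 s : Stp A, ((1 + if edg v s ∈ F then q else 0) * (1 + n : ℝ) ^ k) := by
          refine expect_le_expect fun s _ => ?_
          refine le_trans ?_ (mul_le_mul_of_nonneg_left (ih (mvv v s)) (by split_ifs <;> linarith))
          rw [mul_expect]
          refine expect_le_expect fun f _ => ?_
          simp only [wE, Fin.cons_zero, Fin.tail_cons]
          split_ifs with h
          · rw [insert_inter_of_mem h]
            calc _ ≤ q ^ ((wE k (mvv v s) f ∩ F).card + 1) := pow_le_pow_right₀ hq (card_insert_le _ _)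
              _ ≤ _ := by
                rw [pow_succ']
                exact mul_le_mul_of_nonneg_right (by linarith) (by positivity)
          · rw [insert_inter_of_notMem h]; simp
      _ ≤ _ := by
          rw [← expect_mul, expect_add_distrib, Fintype.expect_const, expect_ite_le, pow_succ']
          refine mul_le_mul_of_nonneg_right (add_le_add_right ?_ _) (by positivity)
          have h1 : ((univ.filter fun s : Stp A => edg v s ∈ F).card : ℝ) ≤ n := by
            exact_mod_cast (dg_le v F).trans hF
          rw [div_le_iff₀ hS, mul_comm]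
          exact mul_le_mul h1 hρ (by linarith) (by positivity)

lemma fine (hq : 1 ≤ q) (hρ : q ≤ Fintype.card (Stp A)) (U : Finset (Vtx d)) (z : Vtx d) (k : ℕ) :
    ∀ (v : Vtx d) (F : Finset (Edge d)), (∀ u, cc A u F z ≤ 2) → (∀ u, u ∉ U → cc A u F z = 0) →
      𝔼 f : Fin k → Stp A, (if wZ k v f = z then q ^ (wE k v f ∩ F).card else 0) ≤
        (3 ^ k - 1) * U.card / Fintype.card (Stp A) + (q / Fintype.card (Stp A)) ^ k * cc A v F z := by
  have hS : (0 : ℝ) < Fintype.card (Stp A) := by exact_mod_cast Fintype.card_pos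
  set N : ℝ := (Fintype.card (Stp A) : ℝ) with hN
  have hρ1 : q / N ≤ 1 := (div_le_one hS).2 hρ
  have hρ0 : 0 ≤ q / N := by positivity
  induction k with
  | zero =>
    intro v F _ _
    simp only [wZ, wE, cc, empty_inter, card_empty, pow_zero, Fintype.expect_const]
    split_ifs <;> simp
  | succ k ih =>
    intro v F h2 h0
    rw [expect_succ]
    have hε : (0 : ℝ) ≤ (3 ^ k - 1) * U.card / N := by
      have : (1 : ℝ) ≤ 3 ^ k := one_le_pow₀ (by norm_num)
      have : (0 : ℝ) ≤ 3 ^ k - 1 := by linarith
      positivity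
    set ε : ℝ := (3 ^ k - 1) * U.card / N with hεd
    have hpk : (q / N) ^ k ≤ 1 := pow_le_one₀ hρ0 hρ1
    have hpk0 : 0 ≤ (q / N) ^ k := by positivity
    calc _ ≤ 𝔼 s : Stp A, ((if edg v s ∈ F then q * (ε + (q / N) ^ k) else 0) + ε +
          if mvv v s ∈ U then 2 else 0) := by
          refine expect_le_expect fun s _ => ?_
          simp only [wE, wZ, Fin.cons_zero, Fin.tail_cons]
          by_cases h : edg v s ∈ F
          · have hm : ∀ u, cc A u (F.erase (edg v s)) z ≤ cc A u F z := fun u =>
              Nat.add_le_add_right (dg_mono u (erase_subset _ _)) _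
            have h3 := ih (mvv v s) (F.erase (edg v s)) (fun u => (hm u).trans (h2 u))
              fun u hu => Nat.le_zero.1 ((hm u).trans (h0 u hu).le)
            have h4 : (cc A (mvv v s) (F.erase (edg v s)) z : ℝ) ≤ 1 := by
              have h5 := dg_erase v s F h
              have h6 := h2 (mvv v s)
              have : cc A (mvv v s) (F.erase (edg v s)) z ≤ 1 := by
                simp only [cc] at h6 ⊢
                omega
              exact_mod_cast this
            have h5 : 𝔼 f : Fin k → Stp A, (if wZ k (mvv v s) f = z then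
                q ^ (insert (edg v s) (wE k (mvv v s) f) ∩ F).card else 0) ≤
                q * 𝔼 f : Fin k → Stp A, (if wZ k (mvv v s) f = z then
                  q ^ (wE k (mvv v s) f ∩ F.erase (edg v s)).card else 0) := by
              rw [mul_expect]
              refine expect_le_expect fun f _ => ?_
              split_ifs
              · rw [← pow_succ']
                refine pow_le_pow_right₀ hq (le_trans (card_le_card ?_) (card_insert_le (edg v s) _))
                intro e he
                simp only [mem_inter, mem_insert, mem_erase] at he ⊢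
                tauto
              · simp
            have h6 := mul_le_mul_of_nonneg_left h3 (show 0 ≤ q by linarith)
            have h7 := mul_le_mul_of_nonneg_left h4 hpk0
            rw [if_pos h]
            have h8 : (0 : ℝ) ≤ if mvv v s ∈ U then 2 else 0 := by split_ifs <;> norm_num
            nlinarith
          · have h3 := ih (mvv v s) F h2 h0
            simp only [insert_inter_of_notMem h, if_neg h]
            refine h3.trans ?_
            rw [zero_add]
            refine add_le_add_right ?_ _
            split_ifs with hU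
            · have : (cc A (mvv v s) F z : ℝ) ≤ 2 := by exact_mod_cast h2 _
              have : (0 : ℝ) ≤ cc A (mvv v s) F z := Nat.cast_nonneg _
              nlinarith
            · rw [h0 _ hU]; simp
      _ ≤ q * (ε + (q / N) ^ k) * dg A v F / N + ε + 2 * U.card / N := by
          rw [expect_add_distrib, expect_add_distrib, Fintype.expect_const, expect_ite_le]
          exact add_le_add_right (hit_le v U 2 (by norm_num)) _
      _ ≤ _ := by
          have h3 : (dg A v F : ℝ) ≤ cc A v F z := by exact_mod_cast Nat.le_add_right _ _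
          have h4 : (cc A v F z : ℝ) ≤ 2 := by exact_mod_cast h2 v
          have h5 : (0 : ℝ) ≤ dg A v F := Nat.cast_nonneg _
          have h6 : (3 ^ (k + 1) - 1) * U.card / N = 3 * ε + 2 * U.card / N := by
            rw [hεd]; field_simp; ring
          have h7 : q * (ε + (q / N) ^ k) * dg A v F / N =
              q / N * dg A v F * ε + (q / N) ^ (k + 1) * dg A v F := by
            rw [pow_succ]; field_simp
          have h8 : q / N * dg A v F ≤ 2 := by nlinarith
          have h9 := mul_le_mul_of_nonneg_left h3 (show 0 ≤ (q / N) ^ (k + 1) by positivity)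
          rw [h6, h7]
          nlinarith

lemma crude2 (hq : 1 ≤ q) (hρ : q ≤ Fintype.card (Stp A)) (n : ℕ) (x x' : Vtx d) :
    𝔼 g : Fin n → Stp A, 𝔼 f : Fin n → Stp A, q ^ (wE n x f ∩ wE n x' g).card ≤ (1 + n : ℝ) ^ n :=
  expect_le univ_nonempty fun g _ => crude hq hρ n _ (card_wE n x' g) n x

lemma fine2 (hq : 1 ≤ q) (hρ : q ≤ Fintype.card (Stp A)) (n : ℕ) (x x' : Vtx d) :
    𝔼 g : Fin n → Stp A, 𝔼 f : Fin n → Stp A,
      (if wZ n x f = wZ n x' g then q ^ (wE n x f ∩ wE n x' g).card else 0) ≤
      (3 ^ n * (n + 1) + (1 + n) ^ n * (n * n)) / Fintype.card (Stp A) +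
        (q / Fintype.card (Stp A)) ^ n * 2 := by
  classical
  have hS : (0 : ℝ) < Fintype.card (Stp A) := by exact_mod_cast Fintype.card_pos
  calc _ ≤ 𝔼 g : Fin n → Stp A, (3 ^ n * (n + 1) / Fintype.card (Stp A) +
        (q / Fintype.card (Stp A)) ^ n * 2 + (1 + n : ℝ) ^ n * if good n ∅ x' g then 0 else 1) := by
        refine expect_le_expect fun g _ => ?_
        split_ifs with hg
        · have h1 := (cc_good n ∅ x' g hg (notMem_empty _)).2.1
          refine (fine hq hρ (wU n x' g) _ n x _ h1 (cc_zero n x' g)).trans ?_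
          have h2 : ((wU n x' g).card : ℝ) ≤ n + 1 := by exact_mod_cast card_wU n x' g
          have h3 : (cc A x (wE n x' g) (wZ n x' g) : ℝ) ≤ 2 := by exact_mod_cast h1 x
          rw [mul_zero, add_zero]
          gcongr
          linarith
        · refine le_trans (le_trans (expect_le_expect fun f _ => ?_) (crude hq hρ n _ (card_wE n x' g) n x)) ?_
          · split_ifs
            · exact le_rfl
            · positivity
          · rw [mul_one]
            exact le_add_of_nonneg_left (by positivity)
    _ ≤ _ := by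
        rw [expect_add_distrib, Fintype.expect_const, ← mul_expect]
        have h1 := mul_le_mul_of_nonneg_left (bad_le (A := A) n ∅ x') (show 0 ≤ (1 + n : ℝ) ^ n by positivity)
        simp only [card_empty, Nat.cast_zero, zero_add] at h1
        rw [add_div, mul_div_assoc ((1 + n : ℝ) ^ n)]
        linarith

end Pool.Agent.H264Z.Pc
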